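import Pool.Agent.LibRG7.Defs

set_option autoImplicit false

/-! ROW J2 (MEDIUM, only Mathlib). Images of the minors mn under the shifts.
 Use the recursion of sums over antidiagonal (l+1) on the side which is shifted
 (Finset.Nat.sum_antidiagonal_succ, Finset.Nat.sum_antidiagonal_succ'), the killed term is 0.
 E.g. P01: mn 0 1 (l+2): both factors of every product are shifted, so the terms with an index 0 vanish and the rest is
 mn 0 1 l; mn 0 2: only the factor with column 0 is shifted. -/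

namespace Pool.Agent.LibRG7

open MvPolynomial

variable {k : Type*} [CommRing k]

private theorem J2_U0 (P : Bool → Fin 3 → Bool) {a : Fin 3} (h : P false a = true) :
    sh k P (U k a 0) = 0 := by
  unfold sh U
  rw [aeval_X]
  simp [h]

private theorem J2_US (P : Bool → Fin 3 → Bool) {a : Fin 3} (h : P false a = true) (i : ℕ) :
    sh k P (U k a (i + 1)) = U k a i := by
  unfold sh U
  rw [aeval_X]
  simp [h]

private theorem J2_Un (P : Bool → Fin 3 → Bool) {a : Fin 3} (h : P false a = false) (i : ℕ) :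
    sh k P (U k a i) = U k a i := by
  unfold sh U
  rw [aeval_X]
  simp [h]

private theorem J2_W0 (P : Bool → Fin 3 → Bool) {a : Fin 3} (h : P true a = true) :
    sh k P (W k a 0) = 0 := by
  unfold sh W
  rw [aeval_X]
  simp [h]

private theorem J2_WS (P : Bool → Fin 3 → Bool) {a : Fin 3} (h : P true a = true) (i : ℕ) :
    sh k P (W k a (i + 1)) = W k a i := by
  unfold sh W
  rw [aeval_X]
  simp [h]

private theorem J2_Wn (P : Bool → Fin 3 → Bool) {a : Fin 3} (h : P true a = false) (i : ℕ) :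
    sh k P (W k a i) = W k a i := by
  unfold sh W
  rw [aeval_X]
  simp [h]

private theorem J2_mn (P : Bool → Fin 3 → Bool) (a c : Fin 3) (l : ℕ) :
    sh k P (mn k a c l) = ∑ p ∈ Finset.HasAntidiagonal.antidiagonal l,
      (sh k P (U k a p.1) * sh k P (W k c p.2) - sh k P (U k c p.1) * sh k P (W k a p.2)) := by
  unfold mn
  rw [map_sum]
  simp only [map_sub, map_mul]

/-- the variables U of both columns are shifted -/
private theorem J2_A (P : Bool → Fin 3 → Bool) {a c : Fin 3} (h1 : P false a = true)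
    (h2 : P false c = true) (h3 : P true a = false) (h4 : P true c = false) (l : ℕ) :
    sh k P (mn k a c (l + 1)) = mn k a c l := by
  rw [J2_mn, Finset.Nat.sum_antidiagonal_succ]
  simp only [J2_U0 P h1, J2_U0 P h2, J2_US P h1, J2_US P h2, J2_Wn P h3, J2_Wn P h4, zero_mul,
    sub_self, zero_add]
  rfl

private theorem J2_A0 (P : Bool → Fin 3 → Bool) {a c : Fin 3} (h1 : P false a = true)
    (h2 : P false c = true) : sh k P (mn k a c 0) = 0 := by
  rw [J2_mn, Finset.Nat.antidiagonal_zero, Finset.sum_singleton, J2_U0 P h1, J2_U0 P h2,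
    zero_mul, zero_mul, sub_self]

/-- the variables of the column a are shifted -/
private theorem J2_B (P : Bool → Fin 3 → Bool) {a c : Fin 3} (h1 : P false a = true)
    (h2 : P false c = false) (h3 : P true a = true) (h4 : P true c = false) (l : ℕ) :
    sh k P (mn k a c (l + 1)) = mn k a c l := by
  rw [J2_mn, Finset.sum_sub_distrib, Finset.Nat.sum_antidiagonal_succ,
    Finset.Nat.sum_antidiagonal_succ']
  simp only [J2_U0 P h1, J2_Un P h2, J2_US P h1, J2_W0 P h3, J2_WS P h3, J2_Wn P h4, zero_mul,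
    mul_zero, zero_add]
  unfold mn
  rw [Finset.sum_sub_distrib]

private theorem J2_B0 (P : Bool → Fin 3 → Bool) {a c : Fin 3} (h1 : P false a = true)
    (h3 : P true a = true) : sh k P (mn k a c 0) = 0 := by
  rw [J2_mn, Finset.Nat.antidiagonal_zero, Finset.sum_singleton, J2_U0 P h1, J2_W0 P h3,
    zero_mul, mul_zero, sub_self]

/-- all variables of both columns are shifted -/
private theorem J2_C (P : Bool → Fin 3 → Bool) {a c : Fin 3} (h1 : P false a = true)
    (h2 : P false c = true) (h3 : P true a = true) (h4 : P true c = true) (l : ℕ) :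
    sh k P (mn k a c (l + 2)) = mn k a c l := by
  rw [J2_mn, Finset.Nat.sum_antidiagonal_succ, Finset.Nat.sum_antidiagonal_succ']
  simp only [J2_U0 P h1, J2_U0 P h2, J2_US P h1, J2_US P h2, J2_W0 P h3, J2_W0 P h4,
    J2_WS P h3, J2_WS P h4, zero_mul, mul_zero, sub_self, zero_add]
  rfl

private theorem J2_C1 (P : Bool → Fin 3 → Bool) {a c : Fin 3} (h1 : P false a = true)
    (h2 : P false c = true) (h3 : P true a = true) (h4 : P true c = true) :
    sh k P (mn k a c 1) = 0 := by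
  rw [J2_mn, Finset.Nat.sum_antidiagonal_succ, Finset.Nat.antidiagonal_zero,
    Finset.sum_singleton]
  simp only [J2_U0 P h1, J2_U0 P h2, J2_W0 P h3, J2_W0 P h4, zero_mul, mul_zero, sub_self,
    zero_add, add_zero]

/-- nothing is shifted -/
private theorem J2_D (P : Bool → Fin 3 → Bool) {a c : Fin 3} (h1 : P false a = false)
    (h2 : P false c = false) (h3 : P true a = false) (h4 : P true c = false) (l : ℕ) :
    sh k P (mn k a c l) = mn k a c l := by
  rw [J2_mn]
  simp only [J2_Un P h1, J2_Un P h2, J2_Wn P h3, J2_Wn P h4]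
  rfl

theorem sh_Pu_succ (a c : Fin 3) (l : ℕ) : sh k Pu (mn k a c (l + 1)) = mn k a c l :=
  J2_A Pu rfl rfl rfl rfl l
theorem sh_Pu_zero (a c : Fin 3) : sh k Pu (mn k a c 0) = 0 :=
  J2_A0 Pu rfl rfl

theorem sh_P01_01 (l : ℕ) : sh k P01 (mn k 0 1 (l + 2)) = mn k 0 1 l :=
  J2_C P01 rfl rfl rfl rfl l
theorem sh_P01_01_zero : sh k P01 (mn k 0 1 0) = 0 :=
  J2_A0 P01 rfl rfl
theorem sh_P01_01_one : sh k P01 (mn k 0 1 1) = 0 :=
  J2_C1 P01 rfl rfl rfl rfl
theorem sh_P01_02 (l : ℕ) : sh k P01 (mn k 0 2 (l + 1)) = mn k 0 2 l :=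
  J2_B P01 rfl rfl rfl rfl l
theorem sh_P01_02_zero : sh k P01 (mn k 0 2 0) = 0 :=
  J2_B0 P01 rfl rfl
theorem sh_P01_12 (l : ℕ) : sh k P01 (mn k 1 2 (l + 1)) = mn k 1 2 l :=
  J2_B P01 rfl rfl rfl rfl l
theorem sh_P01_12_zero : sh k P01 (mn k 1 2 0) = 0 :=
  J2_B0 P01 rfl rfl

theorem sh_P0_01 (l : ℕ) : sh k P0 (mn k 0 1 (l + 1)) = mn k 0 1 l :=
  J2_B P0 rfl rfl rfl rfl l
theorem sh_P0_01_zero : sh k P0 (mn k 0 1 0) = 0 :=
  J2_B0 P0 rfl rfl
theorem sh_P0_02 (l : ℕ) : sh k P0 (mn k 0 2 (l + 1)) = mn k 0 2 l :=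
  J2_B P0 rfl rfl rfl rfl l
theorem sh_P0_02_zero : sh k P0 (mn k 0 2 0) = 0 :=
  J2_B0 P0 rfl rfl
theorem sh_P0_12 (l : ℕ) : sh k P0 (mn k 1 2 l) = mn k 1 2 l :=
  J2_D P0 rfl rfl rfl rfl l

theorem sh_P1_12 (l : ℕ) : sh k P1 (mn k 1 2 (l + 1)) = mn k 1 2 l :=
  J2_B P1 rfl rfl rfl rfl l
theorem sh_P1_12_zero : sh k P1 (mn k 1 2 0) = 0 :=
  J2_B0 P1 rfl rfl

theorem sh_Pu12_12 (l : ℕ) : sh k Pu12 (mn k 1 2 (l + 1)) = mn k 1 2 l :=
  J2_A Pu12 rfl rfl rfl rfl l
theorem sh_Pu12_12_zero : sh k Pu12 (mn k 1 2 0) = 0 :=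
  J2_A0 Pu12 rfl rfl

end Pool.Agent.LibRG7
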