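import Pool.Agent.LibRG7.J6

set_option autoImplicit false

/-! ROW J7. MAIN INDUCTION of block 1: K k a b is prime for a <= b (k a domain). -/

namespace Pool.Agent.LibRG7

open MvPolynomial

variable {k : Type*} [CommRing k] [IsDomain k]

omit [IsDomain k] in
private theorem J7_fix (P : Bool → Fin 3 → Bool) (t : Bool) (c : Fin 3) (i : ℕ) (h : P t c = false) :
    sh k P (X (t, c, i)) = X (t, c, i) := by
  simp [sh, h]

omit [IsDomain k] in
private theorem J7_zero (P : Bool → Fin 3 → Bool) (t : Bool) (c : Fin 3) (h : P t c = true) :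
    sh k P (X (t, c, 0)) = 0 := by
  simp [sh, h]

omit [IsDomain k] in
private theorem J7_abs {I T : Ideal (S k)} {A : Set (S k)} (u : S k)
    (hA : ∀ y ∈ A, u * y ∈ I ⊔ T) {a : S k} (ha : a ∈ I ⊔ Ideal.span A) : a * u ∈ I ⊔ T := by
  obtain ⟨x, hx, y, hy, rfl⟩ := Submodule.mem_sup.mp ha
  rw [add_mul]
  refine add_mem (Ideal.mul_mem_right _ _ (Ideal.mem_sup_left hx)) ?_
  have hle : Ideal.span A ≤ Submodule.comap (LinearMap.mulLeft (S k) u) (I ⊔ T) := by
    rw [Ideal.span_le]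
    intro z hz
    exact hA z hz
  have := hle hy
  rw [Submodule.mem_comap, LinearMap.mulLeft_apply] at this
  rwa [mul_comm]

omit [IsDomain k] in
private theorem J7_mono {I : Ideal (S k)} {A B : Set (S k)} (h : A ⊆ B) {x : S k} (hx : x ∈ I ⊔ Ideal.span A) :
    x ∈ I ⊔ Ideal.span B := by
  have : I ⊔ Ideal.span A ≤ I ⊔ Ideal.span B := sup_le_sup_left (Ideal.span_mono h) I
  exact this hx

omit [IsDomain k] in
private theorem J7_cancel {I : Ideal (S k)} (hI : I.IsPrime) {w u x : S k} {N : ℕ} (hw : w ∉ I) (hu : u ∉ I)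
    (h : w ^ N * (x * u) ∈ I) : x ∈ I := by
  rcases hI.mem_or_mem h with h1 | h1
  · exact absurd (hI.mem_of_pow_mem N h1) hw
  · rcases hI.mem_or_mem h1 with h2 | h2
    · exact h2
    · exact absurd h2 hu

omit [IsDomain k] in
private theorem J7_nak {a b : ℕ} (x : Ix)
    (hL : ∀ F : S k, psi k a b F = 0 → ∃ H : S k, psi k a b H = 0 ∧ F - X x * H ∈ K k a b)
    (F : S k) (hF : psi k a b F = 0) : F ∈ K k a b := by
  refine nak (lamS k) lamS_eval _ ?_ (X x) ?_ {F | psi k a b F = 0} ?_ F hF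
  · rintro g ((⟨l, -, rfl⟩ | ⟨l, -, rfl⟩) | ⟨l, -, rfl⟩)
    · exact ⟨2, lamS_mn _ _ _⟩
    · exact ⟨2, lamS_mn _ _ _⟩
    · exact ⟨2, lamS_mn _ _ _⟩
  · rw [lamS, MvPolynomial.coe_eval₂Hom, MvPolynomial.eval₂_X]
    exact Dvd.intro_left _ rfl
  · intro F hF
    obtain ⟨H, hH, h⟩ := hL F hF
    exact ⟨H, hH, h⟩

private theorem J7_caseA {a b : ℕ} (hab : a ≤ b) (Q1 : (K k a b).IsPrime) (Q2 : (K k a (b + 1)).IsPrime)
    (F : S k) (hF : psi k (a + 1) (b + 1) F = 0) : F ∈ K k (a + 1) (b + 1) := by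
  have hab1 : a + 1 ≤ b + 1 := by omega
  revert F
  refine J7_nak (false, 0, 0) ?_
  intro F hF
  obtain ⟨N, hN⟩ := psi_sat hab1 hF
  have hW : (W k 2 0 : S k) = X (true, 2, 0) := rfl
  have w1 : (W k 2 0 : S k) ∉ K k a b := W_not_mem a b 2 0
  have w2 : (W k 2 0 : S k) ∉ K k a (b + 1) := W_not_mem a (b + 1) 2 0
  have u1 : (U k 2 0 : S k) ∉ K k a b := U_not_mem a b 2 0
  have u2 : (U k 1 0 : S k) ∉ K k a (b + 1) := U_not_mem a (b + 1) 1 0
  -- step 1
  have s1 : F ∈ K k (a + 1) (b + 1) ⊔ Ideal.span {U k 0 0, U k 1 0, U k 2 0} := by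
    apply comap_u
    have h := K_le_u a b hN
    rw [map_mul, map_pow, hW, J7_fix Pu true 2 0 rfl, ← hW] at h
    rcases Q1.mem_or_mem h with h1 | h1
    · exact absurd (Q1.mem_of_pow_mem N h1) w1
    · exact h1
  obtain ⟨κ, hκ, y, hy, rfl⟩ := Submodule.mem_sup.mp s1
  obtain ⟨a0, z, hz, rfl⟩ := Ideal.mem_span_insert.mp hy
  obtain ⟨a1, z2, hz2, rfl⟩ := Ideal.mem_span_insert.mp hz
  obtain ⟨a2, rfl⟩ := Ideal.mem_span_singleton'.mp hz2
  -- step 2
  have s2 : a2 * U k 2 0 ∈ K k (a + 1) (b + 1) ⊔ Ideal.span {U k 0 0, U k 1 0} := by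
    have h1 : W k 2 0 ^ N * (a0 * U k 0 0 + (a1 * U k 1 0 + a2 * U k 2 0)) ∈ K k (a + 1) (b + 1) := by
      rw [mul_add] at hN
      exact (Ideal.add_mem_iff_right _ (Ideal.mul_mem_left _ _ hκ)).mp hN
    have h := K_le_01 a b h1
    simp only [map_mul, map_add, map_pow] at h
    rw [show sh k P01 (W k 2 0) = W k 2 0 from J7_fix P01 true 2 0 rfl,
      show sh k P01 (U k 0 0) = 0 from J7_zero P01 false 0 rfl,
      show sh k P01 (U k 1 0) = 0 from J7_zero P01 false 1 rfl,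
      show sh k P01 (U k 2 0) = U k 2 0 from J7_fix P01 false 2 0 rfl, mul_zero, mul_zero, zero_add, zero_add] at h
    have h2 := comap_01 (J7_cancel Q1 w1 u1 h)
    refine J7_abs _ ?_ h2
    intro y hy
    simp only [Set.mem_insert_iff, Set.mem_singleton_iff] at hy
    rcases hy with rfl | rfl | rfl | rfl | rfl
    · exact Ideal.mul_mem_left _ _ (Ideal.mem_sup_right (Ideal.subset_span (by simp)))
    · have := rel_20 (k := k) a (b + 1)
      exact J7_mono (by simp) this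
    · exact Ideal.mul_mem_left _ _ (Ideal.mem_sup_right (Ideal.subset_span (by simp)))
    · have := rel_21 (k := k) (a + 1) b
      exact J7_mono (by simp) this
    · exact top_rel hab1
  obtain ⟨κ', hκ', y', hy', he⟩ := Submodule.mem_sup.mp s2
  obtain ⟨c0, z', hz', rfl⟩ := Ideal.mem_span_insert.mp hy'
  obtain ⟨c1, rfl⟩ := Ideal.mem_span_singleton'.mp hz'
  -- step 3
  have s3 : (a1 + c1) * U k 1 0 ∈ K k (a + 1) (b + 1) ⊔ Ideal.span {U k 0 0} := by
    have h1 : W k 2 0 ^ N * ((a0 + c0) * U k 0 0 + (a1 + c1) * U k 1 0) ∈ K k (a + 1) (b + 1) := by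
      have e : W k 2 0 ^ N * (κ + (a0 * U k 0 0 + (a1 * U k 1 0 + a2 * U k 2 0))) =
          W k 2 0 ^ N * (κ + κ') + W k 2 0 ^ N * ((a0 + c0) * U k 0 0 + (a1 + c1) * U k 1 0) := by
        rw [← he]; ring
      rw [e] at hN
      exact (Ideal.add_mem_iff_right _ (Ideal.mul_mem_left _ _ (add_mem hκ hκ'))).mp hN
    have h := K_le_0 a (b + 1) h1
    rw [map_mul, map_pow, map_add, map_mul, map_mul] at h
    rw [show sh k P0 (W k 2 0) = W k 2 0 from J7_fix P0 true 2 0 rfl,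
      show sh k P0 (U k 0 0) = 0 from J7_zero P0 false 0 rfl,
      show sh k P0 (U k 1 0) = U k 1 0 from J7_fix P0 false 1 0 rfl, mul_zero, zero_add] at h
    have h2 := comap_0 (J7_cancel Q2 w2 u2 h)
    refine J7_abs _ ?_ h2
    intro y hy
    simp only [Set.mem_insert_iff, Set.mem_singleton_iff] at hy
    rcases hy with rfl | rfl
    · exact Ideal.mul_mem_left _ _ (Ideal.mem_sup_right (Ideal.subset_span (by simp)))
    · exact rel_10 (k := k) a (b + 1)
  obtain ⟨κ3, hκ3, y3, hy3, he3⟩ := Submodule.mem_sup.mp s3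
  obtain ⟨e0, rfl⟩ := Ideal.mem_span_singleton'.mp hy3
  -- step 4
  have e4 : κ + (a0 * U k 0 0 + (a1 * U k 1 0 + a2 * U k 2 0)) = (κ + κ' + κ3) + (a0 + c0 + e0) * U k 0 0 := by
    have : a1 * U k 1 0 + a2 * U k 2 0 = κ' + c0 * U k 0 0 + (κ3 + e0 * U k 0 0) := by
      rw [he3, ← he]; ring
    rw [this]; ring
  have hK4 : κ + κ' + κ3 ∈ K k (a + 1) (b + 1) := add_mem (add_mem hκ hκ') hκ3
  refine ⟨a0 + c0 + e0, ?_, ?_⟩
  · rw [e4, map_add, K_le_psi hab1 hK4, zero_add, map_mul, psi_U00 (by omega)] at hF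
    rcases mul_eq_zero.mp hF with h | h
    · exact h
    · exfalso
      rcases mul_eq_zero.mp h with h | h
      · exact MvPolynomial.X_ne_zero _ h
      · exact MvPolynomial.X_ne_zero _ h
  · rw [e4]
    have : κ + κ' + κ3 + (a0 + c0 + e0) * U k 0 0 - X (false, 0, 0) * (a0 + c0 + e0) = κ + κ' + κ3 := by
      rw [show (U k 0 0 : S k) = X (false, 0, 0) from rfl]; ring
    rw [this]
    exact hK4

private theorem J7_caseB {b : ℕ} (Q1 : (K k 0 b).IsPrime)
    (F : S k) (hF : psi k 0 (b + 1) F = 0) : F ∈ K k 0 (b + 1) := by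
  have hab1 : 0 ≤ b + 1 := by omega
  revert F
  refine J7_nak (false, 1, 0) ?_
  intro F hF
  obtain ⟨N, hN⟩ := psi_sat hab1 hF
  have w1 : (W k 2 0 : S k) ∉ K k 0 b := W_not_mem 0 b 2 0
  have u1 : (U k 2 0 : S k) ∉ K k 0 b := U_not_mem 0 b 2 0
  have s1 : F ∈ K k 0 (b + 1) ⊔ Ideal.span {U k 1 0, U k 2 0} := by
    apply comap_u12
    have h := K_le_u12 b hN
    rw [map_mul, map_pow, show sh k Pu12 (W k 2 0) = W k 2 0 from J7_fix Pu12 true 2 0 rfl] at h
    rcases Q1.mem_or_mem h with h1 | h1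
    · exact absurd (Q1.mem_of_pow_mem N h1) w1
    · exact h1
  obtain ⟨κ, hκ, y, hy, rfl⟩ := Submodule.mem_sup.mp s1
  obtain ⟨a1, z2, hz2, rfl⟩ := Ideal.mem_span_insert.mp hy
  obtain ⟨a2, rfl⟩ := Ideal.mem_span_singleton'.mp hz2
  have s2 : a2 * U k 2 0 ∈ K k 0 (b + 1) ⊔ Ideal.span {U k 1 0} := by
    have h1 : W k 2 0 ^ N * (a1 * U k 1 0 + a2 * U k 2 0) ∈ K k 0 (b + 1) := by
      rw [mul_add] at hN
      exact (Ideal.add_mem_iff_right _ (Ideal.mul_mem_left _ _ hκ)).mp hN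
    have h := K_le_1 b h1
    rw [map_mul, map_pow, map_add, map_mul, map_mul] at h
    rw [show sh k P1 (W k 2 0) = W k 2 0 from J7_fix _ true 2 0 rfl,
      show sh k P1 (U k 1 0) = 0 from J7_zero _ false 1 rfl,
      show sh k P1 (U k 2 0) = U k 2 0 from J7_fix _ false 2 0 rfl, mul_zero, zero_add] at h
    have h2 := comap_1 (J7_cancel Q1 w1 u1 h)
    refine J7_abs _ ?_ h2
    intro y hy
    simp only [Set.mem_insert_iff, Set.mem_singleton_iff] at hy
    rcases hy with rfl | rfl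
    · exact Ideal.mul_mem_left _ _ (Ideal.mem_sup_right (Ideal.subset_span (by simp)))
    · exact rel_21 (k := k) 0 b
  obtain ⟨κ', hκ', y', hy', he⟩ := Submodule.mem_sup.mp s2
  obtain ⟨c1, rfl⟩ := Ideal.mem_span_singleton'.mp hy'
  have e4 : κ + (a1 * U k 1 0 + a2 * U k 2 0) = (κ + κ') + (a1 + c1) * U k 1 0 := by
    rw [← he]; ring
  have hK4 : κ + κ' ∈ K k 0 (b + 1) := add_mem hκ hκ'
  refine ⟨a1 + c1, ?_, ?_⟩
  · rw [e4, map_add, K_le_psi hab1 hK4, zero_add, map_mul, psi_U10 (by omega)] at hF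
    rcases mul_eq_zero.mp hF with h | h
    · exact h
    · exfalso
      rcases mul_eq_zero.mp h with h | h
      · exact MvPolynomial.X_ne_zero _ h
      · exact MvPolynomial.X_ne_zero _ h
  · rw [e4]
    have : κ + κ' + (a1 + c1) * U k 1 0 - X (false, 1, 0) * (a1 + c1) = κ + κ' := by
      rw [show (U k 1 0 : S k) = X (false, 1, 0) from rfl]; ring
    rw [this]
    exact hK4

omit [IsDomain k] in
private theorem J7_K00 : K k 0 0 = ⊥ := by
  rw [K, Ideal.span_eq_bot]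
  rintro x ((⟨l, hl, -⟩ | ⟨l, hl, -⟩) | ⟨l, hl, -⟩)
  · exact absurd hl (Nat.not_lt_zero _)
  · exact absurd hl (Nat.not_lt_zero _)
  · exact absurd hl (Nat.not_lt_zero _)

private theorem J7_prime_of {a b : ℕ} (hab : a ≤ b) (h : ∀ F : S k, psi k a b F = 0 → F ∈ K k a b) :
    (K k a b).IsPrime := by
  have e : K k a b = RingHom.ker (psi k a b) := by
    apply le_antisymm
    · intro F hF
      exact K_le_psi hab hF
    · intro F hF
      exact h F hF
  rw [e]
  exact RingHom.ker_isPrime _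

private theorem J7_main : ∀ (s a b : ℕ), a + b = s → a ≤ b → ∀ F : S k, psi k a b F = 0 → F ∈ K k a b := by
  intro s
  induction s using Nat.strong_induction_on with
  | _ s ih =>
    intro a b hs hab F hF
    rcases a with _ | a
    · rcases b with _ | b
      · obtain ⟨N, hN⟩ := psi_sat hab hF
        rw [J7_K00] at hN ⊢
        rw [Ideal.mem_bot] at hN ⊢
        rcases mul_eq_zero.mp hN with h | h
        · exact absurd (eq_zero_of_pow_eq_zero h) (MvPolynomial.X_ne_zero _)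
        · exact h
      · exact J7_caseB (J7_prime_of (Nat.zero_le b) (ih b (by omega) 0 b (by omega) (Nat.zero_le b))) F hF
    · rcases b with _ | b
      · omega
      · exact J7_caseA (a := a) (b := b) (by omega)
          (J7_prime_of (by omega) (ih (a + b) (by omega) a b rfl (by omega)))
          (J7_prime_of (by omega) (ih (a + (b + 1)) (by omega) a (b + 1) rfl (by omega))) F hF

theorem K_prime : ∀ (s a b : ℕ), a + b = s → a ≤ b → (K k a b).IsPrime := by
  intro s a b hs hab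
  exact J7_prime_of hab (J7_main s a b hs hab)

/-- the kernel of psi is K -/
theorem mem_K_of_psi {a b : ℕ} (hab : a ≤ b) {F : S k} (h : psi k a b F = 0) : F ∈ K k a b :=
  J7_main _ a b rfl hab F h

end Pool.Agent.LibRG7
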