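import Mathlib

set_option autoImplicit false

/-! Definitions for theorem 2REG (MP_6ef058_ag): see L23_6ef058_helper7.md. -/

namespace Pool.Agent.LibRG7

open MvPolynomial

/-- index of a variable: (false, c, i) is u^c_i, (true, c, i) is w^c_i -/
abbrev Ix := Bool × Fin 3 × ℕ

section jets
variable (k : Type*) [CommRing k]

abbrev S := MvPolynomial Ix k

noncomputable def U (c : Fin 3) (i : ℕ) : S k := X (false, c, i)

noncomputable def W (c : Fin 3) (i : ℕ) : S k := X (true, c, i)

/-- the coefficient of t^l in u^a w^c - u^c w^a -/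
noncomputable def mn (a c : Fin 3) (l : ℕ) : S k :=
  ∑ p ∈ Finset.HasAntidiagonal.antidiagonal l, (U k a p.1 * W k c p.2 - U k c p.1 * W k a p.2)

/-- column 0 has level a, columns 1, 2 have level b -/
noncomputable def K (a b : ℕ) : Ideal (S k) := Ideal.span
  ({x | ∃ l, l < a ∧ x = mn k 0 1 l} ∪ {x | ∃ l, l < a ∧ x = mn k 0 2 l} ∪
    {x | ∃ l, l < b ∧ x = mn k 1 2 l})

/-- shift of the variables of the types (t, c) with P t c: index 0 goes to 0, index j+1 to index j -/
noncomputable def sh (P : Bool → Fin 3 → Bool) : S k →ₐ[k] S k :=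
  aeval (fun x : Ix => if P x.1 x.2.1 = true then
    (if x.2.2 = 0 then 0 else X (x.1, x.2.1, x.2.2 - 1)) else X x)

/-- a section of the shift -/
noncomputable def sc (P : Bool → Fin 3 → Bool) : S k →ₐ[k] S k :=
  aeval (fun x : Ix => if P x.1 x.2.1 = true then X (x.1, x.2.1, x.2.2 + 1) else X x)

/-- the ideal of the variables killed by the shift -/
noncomputable def kil (P : Bool → Fin 3 → Bool) : Ideal (S k) :=
  Ideal.span {x | ∃ t c, P t c = true ∧ x = X (t, c, 0)}

def Pu : Bool → Fin 3 → Bool := fun t _ => !t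
def P01 : Bool → Fin 3 → Bool := fun _ c => decide (c ≠ 2)
def P0 : Bool → Fin 3 → Bool := fun _ c => decide (c = 0)
def P1 : Bool → Fin 3 → Bool := fun _ c => decide (c = 1)
def Pu12 : Bool → Fin 3 → Bool := fun t c => (!t) && decide (c ≠ 0)

/-- coefficient of t^l of nu * w^c, where nu = sum U 2 i t^i -/
noncomputable def nw (c : Fin 3) (l : ℕ) : S k :=
  ∑ p ∈ Finset.HasAntidiagonal.antidiagonal l, U k 2 p.1 * W k c p.2

/-- the parametrization: u^2 -> nu w^2, u^1 -> nu w^1 below level b, u^0 -> nu w^0 below level a -/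
noncomputable def psi (a b : ℕ) : S k →ₐ[k] S k :=
  aeval (fun x : Ix => if x.1 = true then X x else
    if x.2.1 = 2 then nw k 2 x.2.2 else
    if x.2.1 = 1 then (if x.2.2 < b then nw k 1 x.2.2 else X x) else
    (if x.2.2 < a then nw k 0 x.2.2 else X x))

/-! Block 2: generic monic modulus of degree b -/

variable (b : ℕ)

abbrev SR := MvPolynomial (Fin b) (S k)

noncomputable def dd : Polynomial (SR k b) :=
  Polynomial.X ^ b + ∑ j : Fin b, Polynomial.C (X j) * Polynomial.X ^ (j : ℕ)

noncomputable def UU (c : Fin 3) : Polynomial (SR k b) :=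
  ∑ j ∈ Finset.range b, Polynomial.C (C (U k c j)) * Polynomial.X ^ j

noncomputable def WW (c : Fin 3) : Polynomial (SR k b) :=
  ∑ j ∈ Finset.range b, Polynomial.C (C (W k c j)) * Polynomial.X ^ j

noncomputable def rel (a c : Fin 3) : Polynomial (SR k b) :=
  (UU k b a * WW k b c - UU k b c * WW k b a) %ₘ dd k b

noncomputable def J : Ideal (SR k b) := Ideal.span {x | ∃ a c : Fin 3, ∃ l : ℕ, x = (rel k b a c).coeff l}

/-- psi over the generic modulus, on the constants S k -/
noncomputable def psiC : S k →+* SR k b :=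
  MvPolynomial.eval₂Hom ((C : S k →+* SR k b).comp (C : k →+* S k))
    (fun x : Ix => if x.1 = true then C (X x) else
      if x.2.2 < b then (((UU k b 2) * WW k b x.2.1) %ₘ dd k b).coeff x.2.2
      else C (psi k b b (X x)))

noncomputable def psiR : SR k b →+* SR k b :=
  MvPolynomial.eval₂Hom (psiC k b) (fun j : Fin b => X j)

/-- the scaling homomorphism -/
noncomputable def lamC : S k →+* Polynomial (SR k b) :=
  MvPolynomial.eval₂Hom ((Polynomial.C : SR k b →+* _).comp
      ((C : S k →+* SR k b).comp (C : k →+* S k)))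
    (fun x : Ix => Polynomial.C (C (X x)) *
      Polynomial.X ^ (if x.2.2 < b then b - x.2.2 else 1))

noncomputable def lamR : SR k b →+* Polynomial (SR k b) :=
  MvPolynomial.eval₂Hom (lamC k b)
    (fun j : Fin b => Polynomial.C (X j) * Polynomial.X ^ (b - (j : ℕ)))

end jets

/-! Block 3: data for a commuting pair with a 2-regular first member -/

section dat

/-- coordinates of a commuting pair -/
structure Dat (n b : ℕ) (B : Type*) where
  g : Fin n → Fin n → B
  d : Fin b → B
  u : Fin 3 → ℕ → B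
  w : Fin 3 → ℕ → B
  al : ℕ → B
  c1 : ℕ → B
  p1 : ℕ → B

variable {B : Type*} [CommRing B] {n b : ℕ}

/-- polynomial of degree < m with given coefficients -/
noncomputable def pl (m : ℕ) (f : ℕ → B) : Polynomial B :=
  ∑ j ∈ Finset.range m, Polynomial.C (f j) * Polynomial.X ^ j

/-- f(X) v -/
noncomputable def act (X : Matrix (Fin n) (Fin n) B) (f : Polynomial B) (v : Fin n → B) :
    Fin n → B := (Polynomial.aeval X f).mulVec v

/-- the matrix with columns e, X e, .., X^(a-1) e, e', X e', .. -/
noncomputable def Gm (a : ℕ) (X : Matrix (Fin n) (Fin n) B) (e e' : Fin n → B) :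
    Matrix (Fin n) (Fin n) B :=
  Matrix.of (fun i j => if (j : ℕ) < a then ((X ^ (j : ℕ)).mulVec e) i
    else ((X ^ ((j : ℕ) - a)).mulVec e') i)

/-- coordinate vector of f e + h e' -/
def cv (a : ℕ) (f h : Polynomial B) : Fin n → B :=
  fun j => if (j : ℕ) < a then f.coeff j else h.coeff ((j : ℕ) - a)

/-- companion matrix of the relations c e = q e', d e' = p e -/
noncomputable def Cm (a : ℕ) (c d p q : Polynomial B) : Matrix (Fin n) (Fin n) B :=
  Matrix.of (fun i j => if (j : ℕ) + 1 = a then cv a (Polynomial.X ^ a - c) q i else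
    if (j : ℕ) + 1 = n then cv a p (Polynomial.X ^ (n - a) - d) i else
    if (i : ℕ) = (j : ℕ) + 1 then 1 else 0)

namespace Dat
variable (D : Dat n b B) (a : ℕ)

def map {B' : Type*} [CommRing B'] (φ : B →+* B') : Dat n b B' where
  g := fun i j => φ (D.g i j)
  d := fun j => φ (D.d j)
  u := fun c j => φ (D.u c j)
  w := fun c j => φ (D.w c j)
  al := fun j => φ (D.al j)
  c1 := fun j => φ (D.c1 j)
  p1 := fun j => φ (D.p1 j)

noncomputable def dP : Polynomial B :=
  Polynomial.X ^ b + ∑ j : Fin b, Polynomial.C (D.d j) * Polynomial.X ^ (j : ℕ)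
noncomputable def uP (c : Fin 3) : Polynomial B := pl b (D.u c)
noncomputable def wP (c : Fin 3) : Polynomial B := pl b (D.w c)
noncomputable def alP : Polynomial B := pl a D.al
noncomputable def cP : Polynomial B :=
  D.dP * (Polynomial.X ^ (a - b) + pl (a - b) D.c1) + D.uP 1
noncomputable def pP : Polynomial B := D.dP * pl (a - b) D.p1 + D.uP 2
noncomputable def qP : Polynomial B := D.uP 0
noncomputable def gaP : Polynomial B := (D.cP a * D.wP 2 - D.pP a * D.wP 1) /ₘ D.dP
noncomputable def deP : Polynomial B :=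
  D.wP 1 + (D.wP 0 * D.pP a - D.qP * D.wP 2) /ₘ D.dP

/-- the relations -/
def Rel : Prop := ∀ s t : Fin 3, (D.uP s * D.wP t - D.uP t * D.wP s) %ₘ D.dP = 0

def G (e e' : Fin n → B) : Matrix (Fin n) (Fin n) B :=
  Matrix.of (fun i j => if (j : ℕ) = 0 then e i else if (j : ℕ) = a then e' i else D.g i j)

noncomputable def Xm (e e' : Fin n → B) : Matrix (Fin n) (Fin n) B :=
  D.G a e e' * Cm a (D.cP a) D.dP (D.pP a) D.qP * (D.G a e e')⁻¹

noncomputable def y1 (e e' : Fin n → B) : Fin n → B :=
  act (D.Xm a e e') (D.alP a) e + act (D.Xm a e e') (D.wP 0) e'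

noncomputable def y2 (e e' : Fin n → B) : Fin n → B :=
  act (D.Xm a e e') (D.alP a) e' + act (D.Xm a e e') (D.gaP a) e +
    act (D.Xm a e e') (D.deP a) e'

noncomputable def Ym (e e' : Fin n → B) : Matrix (Fin n) (Fin n) B :=
  Gm a (D.Xm a e e') (D.y1 a e e') (D.y2 a e e') * (D.G a e e')⁻¹

end Dat

/-! Block 4: the universal domain -/

section univ
variable (k : Type*) [CommRing k] (n b : ℕ) (T : Type*)

/-- the quotient by the relations -/
def QR := SR k b ⧸ J k b

noncomputable instance : CommRing (QR k b) := inferInstanceAs (CommRing (SR k b ⧸ J k b))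

noncomputable instance : Algebra k (QR k b) := inferInstanceAs (Algebra k (SR k b ⧸ J k b))

noncomputable def qm : SR k b →ₐ[k] QR k b := Ideal.Quotient.mkₐ k (J k b)

abbrev Vr := MvPolynomial ((Fin n × Fin n) ⊕ ((Fin 3 × ℕ) ⊕ T)) (QR k b)

noncomputable def un : Dat n b (Vr k n b T) where
  g := fun i j => MvPolynomial.X (Sum.inl (i, j))
  d := fun j => MvPolynomial.C (qm k b (MvPolynomial.X j))
  u := fun c j => MvPolynomial.C (qm k b (MvPolynomial.C (U k c j)))
  w := fun c j => MvPolynomial.C (qm k b (MvPolynomial.C (W k c j)))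
  al := fun j => MvPolynomial.X (Sum.inr (Sum.inl (0, j)))
  c1 := fun j => MvPolynomial.X (Sum.inr (Sum.inl (1, j)))
  p1 := fun j => MvPolynomial.X (Sum.inr (Sum.inl (2, j)))

end univ

end dat

end Pool.Agent.LibRG7
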