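import Pool.Agent.LibRG7.Defs

set_option autoImplicit false

/-! ROW F1 (MEDIUM, only Mathlib). Scaling of the generic remainders.
 For a comm ring B, s in B and f : B[X] put h m f := sum_{j <= m} C (s^(m-j) * f.coeff j) * X^j (homogenization).
 (i) h m f * h n g = h (m+n) (f*g) if natDegree f <= m, natDegree g <= n (compare coefficients); h is additive in f.
 (ii) division f = d q + r, d monic of degree b, natDegree f <= 2b, deg r < b: h (2b) f = h b d * h b q + h (2b) r, h b d is monic of
 degree b (coefficient of X^b: s^0), h (2b) r has degree < b, so (h (2b) f) %ₘ (h b d) = h (2b) r (Polynomial.div_modByMonic_unique).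
 Apply with B = (SR k b)[X] (outer Polynomial), s = X, to the image under Polynomial.map (lamR k b):
 map lamR (UU c) = h b (map C (UU c)) etc. (coefficient j < b : C (..) * X^(b-j)), map lamR (dd) = h b (map C dd), so
 map lamR (UU a * WW c - UU c * WW a) = h (2b) (map C (..)), and map commutes with %ₘ (Polynomial.map_modByMonic).
 Hence lamR ((rel a c).coeff l) = C ((rel a c).coeff l) * X^(2b-l) for l <= 2b (for l >= b both sides are 0: degree < b; if b = 0
 then dd = 1 and rel = 0). -/

namespace Pool.Agent.LibRG7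

open MvPolynomial

variable {k : Type*} [CommRing k] {b : ℕ}

theorem lamR_eval (x : SR k b) : (lamR k b x).eval 1 = x := by
  have h1 : (Polynomial.evalRingHom (1 : SR k b)).comp (lamC k b) = (C : S k →+* SR k b) := by
    refine MvPolynomial.ringHom_ext (fun a => ?_) (fun x => ?_)
    · simp [lamC]
    · simp only [lamC, RingHom.comp_apply, MvPolynomial.eval₂Hom_X', map_mul, map_pow,
        Polynomial.coe_evalRingHom, Polynomial.eval_C, Polynomial.eval_X, one_pow, mul_one]
  have h2 : (Polynomial.evalRingHom (1 : SR k b)).comp (lamR k b) = RingHom.id (SR k b) := by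
    refine MvPolynomial.ringHom_ext (fun a => ?_) (fun j => ?_)
    · have h3 := RingHom.congr_fun h1 a
      simpa [lamR] using h3
    · simp [lamR]
  exact RingHom.congr_fun h2 x

section hom
variable {B : Type*} [CommRing B]

/-- homogenization -/
private noncomputable def F1_h (s : B) (m : ℕ) (f : Polynomial B) : Polynomial B :=
  ∑ j ∈ Finset.range (m + 1), Polynomial.C (s ^ (m - j) * f.coeff j) * Polynomial.X ^ j

private theorem F1_coeff (s : B) (m : ℕ) (f : Polynomial B) (l : ℕ) :
    (F1_h s m f).coeff l = if l ≤ m then s ^ (m - l) * f.coeff l else 0 := by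
  unfold F1_h
  rw [Polynomial.finsetSum_coeff]
  simp only [Polynomial.coeff_C_mul_X_pow]
  split_ifs with h
  · rw [Finset.sum_eq_single l]
    · rw [if_pos rfl]
    · intro j _ hj
      rw [if_neg (Ne.symm hj)]
    · intro h1
      exact absurd (Finset.mem_range.2 (by omega)) h1
  · refine Finset.sum_eq_zero fun j hj => ?_
    rw [Finset.mem_range] at hj
    rw [if_neg (by omega)]

private theorem F1_mul (s : B) {m n : ℕ} {f g : Polynomial B} (hf : f.natDegree ≤ m)
    (hg : g.natDegree ≤ n) : F1_h s m f * F1_h s n g = F1_h s (m + n) (f * g) := by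
  ext l
  rw [Polynomial.coeff_mul, F1_coeff, Polynomial.coeff_mul]
  split_ifs with hl
  · rw [Finset.mul_sum]
    refine Finset.sum_congr rfl fun x hx => ?_
    rw [Finset.HasAntidiagonal.mem_antidiagonal] at hx
    rw [F1_coeff, F1_coeff]
    split_ifs with h1 h2 h2
    · have h3 : m + n - l = (m - x.1) + (n - x.2) := by omega
      rw [h3, pow_add]
      ring
    · rw [Polynomial.coeff_eq_zero_of_natDegree_lt (p := g) (n := x.2) (by omega)]
      ring
    · rw [Polynomial.coeff_eq_zero_of_natDegree_lt (p := f) (n := x.1) (by omega)]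
      ring
    · rw [Polynomial.coeff_eq_zero_of_natDegree_lt (p := f) (n := x.1) (by omega)]
      ring
  · refine Finset.sum_eq_zero fun x hx => ?_
    rw [Finset.HasAntidiagonal.mem_antidiagonal] at hx
    rw [F1_coeff, F1_coeff]
    split_ifs with h1 h2 h2
    · omega
    · ring
    · ring
    · ring

private theorem F1_add (s : B) (m : ℕ) (f g : Polynomial B) :
    F1_h s m (f + g) = F1_h s m f + F1_h s m g := by
  ext l
  rw [Polynomial.coeff_add, F1_coeff, F1_coeff, F1_coeff, Polynomial.coeff_add]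
  split_ifs
  · ring
  · ring

private theorem F1_sub (s : B) (m : ℕ) (f g : Polynomial B) :
    F1_h s m (f - g) = F1_h s m f - F1_h s m g := by
  ext l
  rw [Polynomial.coeff_sub, F1_coeff, F1_coeff, F1_coeff, Polynomial.coeff_sub]
  split_ifs
  · ring
  · ring

private theorem F1_deg [Nontrivial B] (s : B) (m b : ℕ) (f : Polynomial B) (hf : f.degree < b) :
    (F1_h s m f).degree < b := by
  rw [Polynomial.degree_lt_iff_coeff_zero] at hf ⊢
  intro l hl
  rw [F1_coeff, hf l hl]
  split_ifs <;> simp

private theorem F1_mod [Nontrivial B] (s : B) {b : ℕ} {d f : Polynomial B} (hd : d.Monic)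
    (hdb : d.natDegree = b) (hf : f.natDegree ≤ 2 * b) :
    (F1_h s (2 * b) f) %ₘ (F1_h s b d) = F1_h s (2 * b) (f %ₘ d) := by
  have h1 : (f /ₘ d).natDegree ≤ b := by
    rw [Polynomial.natDegree_divByMonic f hd]
    omega
  have h2 := Polynomial.modByMonic_add_div f d
  have hmon : (F1_h s b d).Monic := by
    refine Polynomial.monic_of_natDegree_le_of_coeff_eq_one b ?_ ?_
    · rw [Polynomial.natDegree_le_iff_coeff_eq_zero]
      intro N hN
      rw [F1_coeff, if_neg (by omega)]
    · rw [F1_coeff, if_pos le_rfl, Nat.sub_self, pow_zero, one_mul, ← hdb]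
      exact hd.coeff_natDegree
  have hcb : (F1_h s b d).coeff b = 1 := by
    rw [F1_coeff, if_pos le_rfl, Nat.sub_self, pow_zero, one_mul, ← hdb]
    exact hd.coeff_natDegree
  have hdeg : (F1_h s b d).degree = b := by
    refine Polynomial.degree_eq_of_le_of_coeff_ne_zero ?_ ?_
    · rw [Polynomial.degree_le_iff_coeff_zero]
      intro N hN
      have hN' : b < N := by exact_mod_cast hN
      rw [F1_coeff, if_neg (by omega)]
    · rw [hcb]
      exact one_ne_zero
  have h3 : F1_h s (2 * b) (f %ₘ d) + F1_h s b d * F1_h s b (f /ₘ d) = F1_h s (2 * b) f := by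
    rw [F1_mul s hdb.le h1, ← two_mul, ← F1_add, h2]
  have h4 : (F1_h s (2 * b) (f %ₘ d)).degree < (F1_h s b d).degree := by
    rw [hdeg]
    refine F1_deg s (2 * b) b _ ?_
    have h5 := Polynomial.degree_modByMonic_lt f hd
    rwa [Polynomial.degree_eq_natDegree hd.ne_zero, hdb] at h5
  exact (Polynomial.div_modByMonic_unique _ _ hmon ⟨h3, h4⟩).2

end hom

private theorem F1_UU (c : Fin 3) (l : ℕ) :
    (UU k b c).coeff l = if l < b then C (U k c l) else 0 := by
  unfold UU
  rw [Polynomial.finsetSum_coeff]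
  simp only [Polynomial.coeff_C_mul_X_pow]
  split_ifs with h
  · rw [Finset.sum_eq_single l]
    · rw [if_pos rfl]
    · intro j _ hj
      rw [if_neg (Ne.symm hj)]
    · intro h1
      exact absurd (Finset.mem_range.2 h) h1
  · refine Finset.sum_eq_zero fun j hj => ?_
    rw [Finset.mem_range] at hj
    rw [if_neg (by omega)]

private theorem F1_WW (c : Fin 3) (l : ℕ) :
    (WW k b c).coeff l = if l < b then C (W k c l) else 0 := by
  unfold WW
  rw [Polynomial.finsetSum_coeff]
  simp only [Polynomial.coeff_C_mul_X_pow]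
  split_ifs with h
  · rw [Finset.sum_eq_single l]
    · rw [if_pos rfl]
    · intro j _ hj
      rw [if_neg (Ne.symm hj)]
    · intro h1
      exact absurd (Finset.mem_range.2 h) h1
  · refine Finset.sum_eq_zero fun j hj => ?_
    rw [Finset.mem_range] at hj
    rw [if_neg (by omega)]

private theorem F1_tail_deg : (∑ j : Fin b, Polynomial.C (X j : SR k b) *
    Polynomial.X ^ (j : ℕ)).degree < (b : WithBot ℕ) :=
  Polynomial.degree_sum_fin_lt _

private theorem F1_dd_monic : (dd k b).Monic := Polynomial.monic_X_pow_add F1_tail_deg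

private theorem F1_dd_natDegree [Nontrivial (SR k b)] : (dd k b).natDegree = b :=
  (Polynomial.natDegree_add_eq_left_of_degree_lt
    (by rw [Polynomial.degree_X_pow]; exact F1_tail_deg)).trans (Polynomial.natDegree_X_pow b)

private theorem F1_dd_lt {l : ℕ} (hl : l < b) : (dd k b).coeff l = X (⟨l, hl⟩ : Fin b) := by
  unfold dd
  rw [Polynomial.coeff_add, Polynomial.coeff_X_pow, if_neg (by omega), zero_add,
    Polynomial.finsetSum_coeff]
  simp only [Polynomial.coeff_C_mul_X_pow]
  rw [Finset.sum_eq_single (⟨l, hl⟩ : Fin b)]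
  · rw [if_pos rfl]
  · intro j _ hj
    rw [if_neg]
    intro h
    exact hj (Fin.ext h.symm)
  · intro h
    exact absurd (Finset.mem_univ _) h

private theorem F1_main {A : Type*} [CommRing A] [Nontrivial A] {b : ℕ} (L : A →+* Polynomial A)
    (u u' w w' d : Polynomial A) (hd : d.Monic) (hdb : d.natDegree = b)
    (hu : u.natDegree ≤ b) (hu' : u'.natDegree ≤ b) (hw : w.natDegree ≤ b) (hw' : w'.natDegree ≤ b)
    (Lu : ∀ l ≤ b, L (u.coeff l) = Polynomial.C (u.coeff l) * Polynomial.X ^ (b - l))
    (Lu' : ∀ l ≤ b, L (u'.coeff l) = Polynomial.C (u'.coeff l) * Polynomial.X ^ (b - l))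
    (Lw : ∀ l ≤ b, L (w.coeff l) = Polynomial.C (w.coeff l) * Polynomial.X ^ (b - l))
    (Lw' : ∀ l ≤ b, L (w'.coeff l) = Polynomial.C (w'.coeff l) * Polynomial.X ^ (b - l))
    (Ld : ∀ l ≤ b, L (d.coeff l) = Polynomial.C (d.coeff l) * Polynomial.X ^ (b - l)) (l : ℕ) :
    L (((u * w' - u' * w) %ₘ d).coeff l) =
      Polynomial.C (((u * w' - u' * w) %ₘ d).coeff l) * Polynomial.X ^ (2 * b - l) := by
  have hmap : ∀ f : Polynomial A, f.natDegree ≤ b →
      (∀ l ≤ b, L (f.coeff l) = Polynomial.C (f.coeff l) * Polynomial.X ^ (b - l)) →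
      f.map L = F1_h (Polynomial.X : Polynomial A) b (f.map Polynomial.C) := by
    intro f hf Lf
    ext1 l
    rw [Polynomial.coeff_map, F1_coeff, Polynomial.coeff_map]
    split_ifs with h
    · rw [Lf l h]
      ring
    · rw [Polynomial.coeff_eq_zero_of_natDegree_lt (by omega), map_zero]
  set F : Polynomial A := u * w' - u' * w with hF
  have hdeg : ∀ f : Polynomial A, f.natDegree ≤ b → (f.map (Polynomial.C (R := A))).natDegree ≤ b :=
    fun f hf => Polynomial.natDegree_map_le.trans hf
  have hmapF : F.map L =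
      F1_h (Polynomial.X : Polynomial A) (2 * b) (F.map Polynomial.C) := by
    rw [hF, Polynomial.map_sub, Polynomial.map_mul, Polynomial.map_mul, hmap u hu Lu,
      hmap u' hu' Lu', hmap w hw Lw, hmap w' hw' Lw', Polynomial.map_sub, Polynomial.map_mul,
      Polynomial.map_mul, F1_sub, two_mul, F1_mul _ (hdeg u hu) (hdeg w' hw'),
      F1_mul _ (hdeg u' hu') (hdeg w hw)]
  have hFdeg : F.natDegree ≤ 2 * b := by
    rw [hF]
    refine (Polynomial.natDegree_sub_le _ _).trans (max_le ?_ ?_)
    · exact Polynomial.natDegree_mul_le.trans (by omega)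
    · exact Polynomial.natDegree_mul_le.trans (by omega)
  have hmod : (F %ₘ d).map L =
      F1_h (Polynomial.X : Polynomial A) (2 * b) ((F %ₘ d).map Polynomial.C) := by
    rw [Polynomial.map_modByMonic _ hd, hmapF, hmap d hdb.le Ld,
      F1_mod _ (hd.map _) ?_ (Polynomial.natDegree_map_le.trans hFdeg),
      Polynomial.map_modByMonic _ hd]
    rw [hd.natDegree_map, hdb]
  have h1 := congrArg (fun p => Polynomial.coeff p l) hmod
  rw [Polynomial.coeff_map, F1_coeff, Polynomial.coeff_map] at h1
  rw [h1]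
  split_ifs with h2
  · ring
  · have h3 : (F %ₘ d).coeff l = 0 := by
      have h4 := Polynomial.degree_modByMonic_lt F hd
      rw [Polynomial.degree_eq_natDegree hd.ne_zero, hdb,
        Polynomial.degree_lt_iff_coeff_zero] at h4
      exact h4 l (by omega)
    rw [h3]
    simp

private theorem F1_lam_UU (c : Fin 3) (l : ℕ) (hl : l ≤ b) : lamR k b ((UU k b c).coeff l) =
    Polynomial.C ((UU k b c).coeff l) * Polynomial.X ^ (b - l) := by
  rw [F1_UU]
  split_ifs with h
  · simp [lamR, lamC, U, h]
  · simp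

private theorem F1_lam_WW (c : Fin 3) (l : ℕ) (hl : l ≤ b) : lamR k b ((WW k b c).coeff l) =
    Polynomial.C ((WW k b c).coeff l) * Polynomial.X ^ (b - l) := by
  rw [F1_WW]
  split_ifs with h
  · simp [lamR, lamC, W, h]
  · simp

private theorem F1_lam_dd [Nontrivial (SR k b)] (l : ℕ) (hl : l ≤ b) :
    lamR k b ((dd k b).coeff l) = Polynomial.C ((dd k b).coeff l) * Polynomial.X ^ (b - l) := by
  rcases lt_or_eq_of_le hl with hl | hl
  · rw [F1_dd_lt hl]
    simp [lamR]
  · subst hl
    have h1 : (dd k l).coeff l = 1 := by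
      have h2 := (F1_dd_monic (k := k) (b := l)).coeff_natDegree
      rwa [F1_dd_natDegree] at h2
    rw [h1]
    simp

private theorem F1_UU_deg (c : Fin 3) : (UU k b c).natDegree ≤ b := by
  rw [Polynomial.natDegree_le_iff_coeff_eq_zero]
  intro N hN
  rw [F1_UU, if_neg (by omega)]

private theorem F1_WW_deg (c : Fin 3) : (WW k b c).natDegree ≤ b := by
  rw [Polynomial.natDegree_le_iff_coeff_eq_zero]
  intro N hN
  rw [F1_WW, if_neg (by omega)]

theorem lamR_rel (a c : Fin 3) (l : ℕ) : ∃ n : ℕ,
    lamR k b ((rel k b a c).coeff l) =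
      Polynomial.C ((rel k b a c).coeff l) * Polynomial.X ^ n := by
  rcases subsingleton_or_nontrivial (SR k b) with hs | hs
  · exact ⟨0, Subsingleton.elim _ _⟩
  refine ⟨2 * b - l, ?_⟩
  exact F1_main (A := SR k b) (lamR k b) (UU k b a) (UU k b c) (WW k b a) (WW k b c) (dd k b)
    F1_dd_monic F1_dd_natDegree (F1_UU_deg a) (F1_UU_deg c) (F1_WW_deg a) (F1_WW_deg c)
    (F1_lam_UU a) (F1_lam_UU c) (F1_lam_WW a) (F1_lam_WW c) F1_lam_dd l

/-- elements without terms of d-degree < m have lamR-components only in degrees >= m -/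
theorem lamR_low (m : ℕ) (F : SR k b)
    (h : ∀ α : Fin b →₀ ℕ, α.degree < m → coeff α F = 0) :
    ∀ n < m, (lamR k b F).coeff n = 0 := by
  rw [← Polynomial.X_pow_dvd_iff]
  have h1 : lamR k b F = ∑ α ∈ F.support, lamC k b (coeff α F) *
      ∏ j ∈ α.support, (Polynomial.C (X j : SR k b) * Polynomial.X ^ (b - (j : ℕ))) ^ α j :=
    MvPolynomial.eval₂_eq _ _ _
  rw [h1]
  refine Finset.dvd_sum fun α hα => Dvd.dvd.mul_left ?_ _
  have h2 : m ≤ α.degree := by
    by_contra hcon
    push Not at hcon
    exact (MvPolynomial.mem_support_iff.1 hα) (h α hcon)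
  refine (pow_dvd_pow _ h2).trans ?_
  have h3 : (Polynomial.X : Polynomial (SR k b)) ^ α.degree =
      ∏ j ∈ α.support, (Polynomial.X : Polynomial (SR k b)) ^ α j := by
    rw [Finset.prod_pow_eq_pow_sum]
    rfl
  rw [h3]
  refine Finset.prod_dvd_prod_of_dvd _ _ fun j _ => pow_dvd_pow_of_dvd ?_ _
  refine Dvd.dvd.mul_left (dvd_pow_self _ ?_) _
  have := j.2
  omega

end Pool.Agent.LibRG7
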