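import Pool.Agent.LibRG7.Defs

set_option autoImplicit false

/-! ROW F2 (MEDIUM, only Mathlib). Specialization d_j -> 0 (constantCoeff : SR k b ->+* S k).
 map constantCoeff (dd) = X^b; map constantCoeff (UU c) = sum_{j<b} C (U c j) X^j; %ₘ commutes with map; for f : (S k)[X] and l < b:
 (f %ₘ X^b).coeff l = f.coeff l (modByMonic uniqueness or Polynomial.modByMonic_add_div). So for l < b:
 constantCoeff ((UU a * WW c) %ₘ dd).coeff l = sum over antidiagonal l of U a i * W c j (all indices are <= l < b).
 cc_psiR: both sides are ring homs SR k b -> S k in F; compare on X j (0 = psi 0) and on C (X x) (MvPolynomial.ringHom_ext).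
 exists_lift: J maps onto (a superset of) K: Ideal.mem_map_iff_of_surjective / span_induction with cc_rel. -/

namespace Pool.Agent.LibRG7

open MvPolynomial

variable {k : Type*} [CommRing k] {b : ℕ}

private theorem F2_monic : (dd k b).Monic :=
  Polynomial.monic_X_pow_add (Polynomial.degree_sum_fin_lt _)

private theorem F2_map_dd :
    (dd k b).map (constantCoeff : SR k b →+* S k) = Polynomial.X ^ b := by
  unfold dd
  rw [Polynomial.map_add, Polynomial.map_pow, Polynomial.map_X, Polynomial.map_sum]
  rw [Finset.sum_eq_zero, add_zero]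
  intro j _
  rw [Polynomial.map_mul, Polynomial.map_C, constantCoeff_X, Polynomial.C_0, zero_mul]

private theorem F2_coeff_sum (f : ℕ → S k) {i : ℕ} (hi : i < b) :
    (∑ j ∈ Finset.range b, Polynomial.C (f j) * Polynomial.X ^ j).coeff i = f i := by
  rw [Polynomial.finset_sum_coeff, Finset.sum_eq_single i]
  · rw [Polynomial.coeff_C_mul_X_pow, if_pos rfl]
  · intro j _ hj
    rw [Polynomial.coeff_C_mul_X_pow, if_neg (Ne.symm hj)]
  · intro h
    exact absurd (Finset.mem_range.2 hi) h

private theorem F2_UU (c : Fin 3) {i : ℕ} (hi : i < b) :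
    ((UU k b c).map (constantCoeff : SR k b →+* S k)).coeff i = U k c i := by
  have h : (UU k b c).map (constantCoeff : SR k b →+* S k) =
      ∑ j ∈ Finset.range b, Polynomial.C (U k c j) * Polynomial.X ^ j := by
    unfold UU
    rw [Polynomial.map_sum]
    refine Finset.sum_congr rfl fun j _ => ?_
    rw [Polynomial.map_mul, Polynomial.map_C, Polynomial.map_pow, Polynomial.map_X,
      constantCoeff_C]
  rw [h, F2_coeff_sum _ hi]

private theorem F2_WW (c : Fin 3) {i : ℕ} (hi : i < b) :
    ((WW k b c).map (constantCoeff : SR k b →+* S k)).coeff i = W k c i := by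
  have h : (WW k b c).map (constantCoeff : SR k b →+* S k) =
      ∑ j ∈ Finset.range b, Polynomial.C (W k c j) * Polynomial.X ^ j := by
    unfold WW
    rw [Polynomial.map_sum]
    refine Finset.sum_congr rfl fun j _ => ?_
    rw [Polynomial.map_mul, Polynomial.map_C, Polynomial.map_pow, Polynomial.map_X,
      constantCoeff_C]
  rw [h, F2_coeff_sum _ hi]

private theorem F2_mod (f : Polynomial (S k)) {l : ℕ} (hl : l < b) :
    (f %ₘ Polynomial.X ^ b).coeff l = f.coeff l := by
  conv_rhs => rw [← Polynomial.modByMonic_add_div f (Polynomial.X ^ b)]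
  rw [Polynomial.coeff_add, Polynomial.coeff_X_pow_mul', if_neg (not_le.2 hl), add_zero]

private theorem F2_cc_mod (f : Polynomial (SR k b)) {l : ℕ} (hl : l < b) :
    constantCoeff ((f %ₘ dd k b).coeff l) =
      (f.map (constantCoeff : SR k b →+* S k)).coeff l := by
  rw [← Polynomial.coeff_map, Polynomial.map_modByMonic _ F2_monic, F2_map_dd, F2_mod _ hl]

private theorem F2_cc_prod (a c : Fin 3) {l : ℕ} (hl : l < b) :
    ((UU k b a * WW k b c).map (constantCoeff : SR k b →+* S k)).coeff l =
      ∑ p ∈ Finset.HasAntidiagonal.antidiagonal l, U k a p.1 * W k c p.2 := by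
  rw [Polynomial.map_mul, Polynomial.coeff_mul]
  refine Finset.sum_congr rfl fun p hp => ?_
  have h := Finset.HasAntidiagonal.mem_antidiagonal.1 hp
  rw [F2_UU _ (by omega), F2_WW _ (by omega)]

private theorem F2_psiC (s : S k) : constantCoeff (psiC k b s) = psi k b b s := by
  have h : ((constantCoeff : SR k b →+* S k).comp (psiC k b)) = (psi k b b : S k →+* S k) := by
    refine MvPolynomial.ringHom_ext ?_ ?_
    · intro r
      rw [RingHom.comp_apply]
      unfold psiC
      rw [coe_eval₂Hom, eval₂_C, RingHom.comp_apply, constantCoeff_C]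
      exact ((psi k b b).commutes r).symm
    · intro x
      rw [RingHom.comp_apply]
      have h1 : psiC k b (X x) = if x.1 = true then C (X x) else
          if x.2.2 < b then (((UU k b 2) * WW k b x.2.1) %ₘ dd k b).coeff x.2.2
          else C (psi k b b (X x)) := by
        unfold psiC
        rw [coe_eval₂Hom, eval₂_X]
      have h2 : (psi k b b : S k →+* S k) (X x) = if x.1 = true then X x else
          if x.2.1 = 2 then nw k 2 x.2.2 else
          if x.2.1 = 1 then (if x.2.2 < b then nw k 1 x.2.2 else X x) else
          (if x.2.2 < b then nw k 0 x.2.2 else X x) := by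
        show psi k b b (X x) = _
        unfold psi
        rw [aeval_X]
      rw [h1]
      by_cases hx : x.1 = true
      · rw [if_pos hx, constantCoeff_C, h2, if_pos hx]
      · rw [if_neg hx]
        by_cases hb : x.2.2 < b
        · rw [if_pos hb, F2_cc_mod _ hb, F2_cc_prod _ _ hb, h2, if_neg hx]
          obtain ⟨t, c, i⟩ := x
          fin_cases c
          · simp only [Fin.zero_eta, Fin.isValue, hb, if_true]
            rw [if_neg (by decide), if_neg (by decide)]
            rfl
          · simp only [Fin.mk_one, Fin.isValue, hb, if_true]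
            rw [if_neg (by decide)]
            rfl
          · rfl
        · rw [if_neg hb, constantCoeff_C]
          rfl
  exact congrArg (fun g : S k →+* S k => g s) h

theorem cc_rel (a c : Fin 3) {l : ℕ} (hl : l < b) :
    constantCoeff ((rel k b a c).coeff l) = mn k a c l := by
  unfold rel
  rw [F2_cc_mod _ hl, Polynomial.map_sub, Polynomial.coeff_sub, F2_cc_prod _ _ hl,
    F2_cc_prod _ _ hl]
  unfold mn
  rw [Finset.sum_sub_distrib]

theorem cc_psiR (F : SR k b) : constantCoeff (psiR k b F) = psi k b b (constantCoeff F) := by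
  have h : ((constantCoeff : SR k b →+* S k).comp (psiR k b)) =
      (psi k b b : S k →+* S k).comp (constantCoeff : SR k b →+* S k) := by
    refine MvPolynomial.ringHom_ext ?_ ?_
    · intro s
      rw [RingHom.comp_apply, RingHom.comp_apply, constantCoeff_C]
      unfold psiR
      rw [coe_eval₂Hom, eval₂_C]
      exact F2_psiC s
    · intro j
      rw [RingHom.comp_apply, RingHom.comp_apply, constantCoeff_X, map_zero]
      unfold psiR
      rw [coe_eval₂Hom, eval₂_X, constantCoeff_X]
  exact congrArg (fun g : SR k b →+* S k => g F) h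

theorem exists_lift {f : S k} (hf : f ∈ K k b b) : ∃ kap ∈ J k b, constantCoeff kap = f := by
  have hsurj : Function.Surjective (constantCoeff : SR k b →+* S k) := fun s =>
    ⟨C s, constantCoeff_C _ s⟩
  have hle : K k b b ≤ Ideal.map (constantCoeff : SR k b →+* S k) (J k b) := by
    unfold K
    rw [Ideal.span_le]
    rintro x ((⟨l, hl, rfl⟩ | ⟨l, hl, rfl⟩) | ⟨l, hl, rfl⟩)
    all_goals
      rw [← cc_rel _ _ hl]
      exact Ideal.mem_map_of_mem _ (Ideal.subset_span ⟨_, _, l, rfl⟩)
  have := (Ideal.mem_map_iff_of_surjective _ hsurj).1 (hle hf)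
  exact this

/-- the coefficient of a monomial of minimal d-degree -/
theorem coeff_psiR_low (m : ℕ) (F : SR k b)
    (h : ∀ α : Fin b →₀ ℕ, α.degree < m → coeff α F = 0) (α : Fin b →₀ ℕ) (hα : α.degree = m) :
    coeff α (psiR k b F) = psi k b b (coeff α F) := by
  classical
  have hmon : ∀ (β : Fin b →₀ ℕ) (c : S k), psiR k b (monomial β c) =
      psiC k b c * monomial β 1 := by
    intro β c
    unfold psiR
    rw [coe_eval₂Hom, eval₂_monomial, monomial_eq, C_1, one_mul]
  conv_lhs => rw [F.as_sum, map_sum]
  rw [coeff_sum, Finset.sum_congr rfl fun β _ => by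
    rw [hmon, coeff_mul_monomial', mul_one]]
  rw [Finset.sum_eq_single α]
  · rw [if_pos le_rfl, tsub_self]
    exact F2_psiC _
  · intro β hβ hne
    by_cases hle : β ≤ α
    · exfalso
      have h1 : m ≤ β.degree := by
        by_contra hlt
        exact (mem_support_iff.1 hβ) (h β (not_le.1 hlt))
      have h2 : β + (α - β) = α := add_tsub_cancel_of_le hle
      have h3 : β.degree + (α - β).degree = α.degree := by
        rw [← map_add, h2]
      have h4 : (α - β).degree = 0 := by omega
      rw [Finsupp.degree_eq_zero_iff] at h4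
      rw [h4, add_zero] at h2
      exact hne h2
    · rw [if_neg hle]
  · intro hα'
    rw [notMem_support_iff.1 hα', map_zero, coeff_zero, ite_self]

end Pool.Agent.LibRG7
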