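import Pool.Agent.LibRG7.Defs

set_option autoImplicit false

/-! ROW F3 (MEDIUM, only Mathlib). J is contained in the kernel of psiR.
 map psiR dd = dd; map psiR (WW c) = WW c; map psiR (UU c) = (UU 2 * WW c) %ₘ dd =: R c for every c (coefficients j < b by
 definition of psiC, and deg R c < b; b = 0: both 0). So map psiR (UU a * WW c - UU c * WW a) = R a * WW c - R c * WW a which is
 divisible by dd (R a = UU 2 * WW a - dd * (..)), so its remainder is 0; %ₘ commutes with map (Polynomial.map_modByMonic). -/

namespace Pool.Agent.LibRG7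

open MvPolynomial

variable {k : Type*} [CommRing k] {b : ℕ}

private theorem F3_monic : (dd k b).Monic := by
  unfold dd
  exact Polynomial.monic_X_pow_add (Polynomial.degree_sum_fin_lt _)

private theorem F3_psiR_C (x : S k) : psiR k b (C x) = psiC k b x := by
  unfold psiR
  exact MvPolynomial.eval₂Hom_C _ _ _

private theorem F3_psiR_X (j : Fin b) : psiR k b (X j) = X j := by
  unfold psiR
  exact MvPolynomial.eval₂Hom_X' _ _ _

private theorem F3_psiC_W (c : Fin 3) (j : ℕ) : psiC k b (W k c j) = C (W k c j) := by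
  unfold psiC W
  rw [MvPolynomial.eval₂Hom_X']
  exact if_pos rfl

private theorem F3_psiC_U (c : Fin 3) (j : ℕ) (hj : j < b) :
    psiC k b (U k c j) = (((UU k b 2) * WW k b c) %ₘ dd k b).coeff j := by
  unfold psiC U
  rw [MvPolynomial.eval₂Hom_X']
  change (if (false : Bool) = true then _ else if j < b then _ else _) = _
  rw [if_neg (by decide), if_pos hj]

private theorem F3_map_dd : (dd k b).map (psiR k b) = dd k b := by
  unfold dd
  rw [Polynomial.map_add, Polynomial.map_pow, Polynomial.map_X, Polynomial.map_sum]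
  congr 1
  refine Finset.sum_congr rfl fun j _ => ?_
  rw [Polynomial.map_mul, Polynomial.map_C, Polynomial.map_pow, Polynomial.map_X, F3_psiR_X]

private theorem F3_map_WW (c : Fin 3) : (WW k b c).map (psiR k b) = WW k b c := by
  unfold WW
  rw [Polynomial.map_sum]
  refine Finset.sum_congr rfl fun j _ => ?_
  rw [Polynomial.map_mul, Polynomial.map_C, Polynomial.map_pow, Polynomial.map_X, F3_psiR_C, F3_psiC_W]

private theorem F3_map_UU (c : Fin 3) :
    (UU k b c).map (psiR k b) = ((UU k b 2) * WW k b c) %ₘ dd k b := by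
  have h1 : (UU k b c).map (psiR k b) = ∑ j ∈ Finset.range b,
      Polynomial.C ((((UU k b 2) * WW k b c) %ₘ dd k b).coeff j) * Polynomial.X ^ j := by
    have h0 : (UU k b c).map (psiR k b) = ∑ j ∈ Finset.range b,
        Polynomial.C (psiR k b (C (U k c j))) * Polynomial.X ^ j := by
      unfold UU
      rw [Polynomial.map_sum]
      refine Finset.sum_congr rfl fun j _ => ?_
      rw [Polynomial.map_mul, Polynomial.map_C, Polynomial.map_pow, Polynomial.map_X]
    rw [h0]
    refine Finset.sum_congr rfl fun j hj => ?_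
    rw [F3_psiR_C, F3_psiC_U c j (Finset.mem_range.1 hj)]
  rw [h1]
  obtain hs | hn := subsingleton_or_nontrivial (SR k b)
  · exact Subsingleton.elim _ _
  · have h2 : (((UU k b 2) * WW k b c) %ₘ dd k b).degree < b := by
      refine lt_of_lt_of_le (Polynomial.degree_modByMonic_lt _ F3_monic) ?_
      unfold dd
      refine (Polynomial.degree_add_le _ _).trans (max_le ?_ ?_)
      · exact Polynomial.degree_X_pow_le b
      · exact (Polynomial.degree_sum_fin_lt _).le
    generalize ((UU k b 2) * WW k b c) %ₘ dd k b = P at h2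
    ext1 l
    rw [Polynomial.finsetSum_coeff]
    simp only [Polynomial.coeff_C_mul, Polynomial.coeff_X_pow, mul_ite, mul_one, mul_zero]
    rw [Finset.sum_ite_eq]
    by_cases hl : l < b
    · rw [if_pos (Finset.mem_range.2 hl)]
    · rw [if_neg (fun h => hl (Finset.mem_range.1 h))]
      rw [Polynomial.coeff_eq_zero_of_degree_lt]
      exact lt_of_lt_of_le h2 (by exact_mod_cast not_lt.1 hl)

theorem psiR_rel (a c : Fin 3) (l : ℕ) : psiR k b ((rel k b a c).coeff l) = 0 := by
  have h1 : psiR k b ((rel k b a c).coeff l) = ((rel k b a c).map (psiR k b)).coeff l := by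
    rw [Polynomial.coeff_map]
  have h2 : (rel k b a c).map (psiR k b) = 0 := by
    unfold rel
    rw [Polynomial.map_modByMonic _ F3_monic, F3_map_dd, Polynomial.map_sub, Polynomial.map_mul,
      Polynomial.map_mul, F3_map_WW, F3_map_WW, F3_map_UU, F3_map_UU,
      Polynomial.modByMonic_eq_zero_iff_dvd F3_monic]
    have ha := Polynomial.modByMonic_add_div (UU k b 2 * WW k b a) (dd k b)
    have hc := Polynomial.modByMonic_add_div (UU k b 2 * WW k b c) (dd k b)
    refine ⟨(UU k b 2 * WW k b c) /ₘ dd k b * WW k b a - (UU k b 2 * WW k b a) /ₘ dd k b * WW k b c, ?_⟩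
    generalize (UU k b 2 * WW k b a) /ₘ dd k b = Qa at ha ⊢
    generalize (UU k b 2 * WW k b c) /ₘ dd k b = Qc at hc ⊢
    generalize (UU k b 2 * WW k b a) %ₘ dd k b = Ra at ha ⊢
    generalize (UU k b 2 * WW k b c) %ₘ dd k b = Rc at hc ⊢
    linear_combination ha * WW k b c - hc * WW k b a
  rw [h1, h2, Polynomial.coeff_zero]

theorem psiR_J {F : SR k b} (hF : F ∈ J k b) : psiR k b F = 0 := by
  have h1 : J k b ≤ RingHom.ker (psiR k b) := by
    unfold J
    rw [Ideal.span_le]
    rintro _ ⟨a, c, l, rfl⟩
    exact psiR_rel a c l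
  exact h1 hF

end Pool.Agent.LibRG7
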