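import Pool.Agent.LibRG7.J7
import Pool.Agent.LibRG7.F1
import Pool.Agent.LibRG7.F2
import Pool.Agent.LibRG7.F3

set_option autoImplicit false

/-! ROW F4 (MEDIUM, Mathlib + J5, J7, F1, F2, F3). J k b is prime.
 low_step by induction on m (m = 0: kap = 0). Given kap for m, F' = F - kap, psiR F' = 0 (F3). For alpha of degree m the coefficient
 f = coeff alpha F' satisfies psi f = coeff alpha (psiR F') = 0 (F2 coeff_psiR_low), so f in K k b b (J7 mem_K_of_psi), lift kap_f in J
 (exists_lift); kap' := sum over alpha in support of F' of degree m of monomial alpha 1 * kap_f; F' - kap' has no terms of degree <= m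
 (coeff_monomial_mul / coeff of monomial alpha 1 * G at beta: coeff (beta - alpha) G if alpha <= beta, 0 otherwise).
 J_prime: ker psiR is prime (SR is a domain) and equals J: nak2 with lam = lamR, G = the generating set of J. -/

namespace Pool.Agent.LibRG7

open MvPolynomial

variable {k : Type*} [CommRing k] [IsDomain k] {b : ℕ}

private theorem f4_le {σ : Type*} {α β : σ →₀ ℕ} (h : α ≤ β) (hd : β.degree ≤ α.degree) :
    α = β := by
  have h1 : α + (β - α) = β := add_tsub_cancel_of_le h
  have h2 : α.degree + (β - α).degree = β.degree := by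
    rw [← map_add, h1]
  have h3 : (β - α).degree = 0 := by omega
  rw [Finsupp.degree_eq_zero_iff] at h3
  rw [h3, add_zero] at h1
  exact h1

theorem low_step {F : SR k b} (hF : psiR k b F = 0) (m : ℕ) :
    ∃ kap ∈ J k b, ∀ α : Fin b →₀ ℕ, α.degree < m → coeff α (F - kap) = 0 := by
  classical
  induction m with
  | zero => exact ⟨0, zero_mem _, fun α hα => absurd hα (Nat.not_lt_zero _)⟩
  | succ m ih =>
    obtain ⟨kap, hkap, hlow⟩ := ih
    have hF' : psiR k b (F - kap) = 0 := by
      rw [map_sub, hF, psiR_J hkap, sub_zero]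
    have h1 : ∀ α : Fin b →₀ ℕ, ∃ κ ∈ J k b, α.degree = m →
        constantCoeff κ = coeff α (F - kap) := by
      intro α
      by_cases hα : α.degree = m
      · have h2 := coeff_psiR_low m (F - kap) hlow α hα
        rw [hF', coeff_zero] at h2
        obtain ⟨κ, hκ, hκ'⟩ := exists_lift (mem_K_of_psi le_rfl h2.symm)
        exact ⟨κ, hκ, fun _ => hκ'⟩
      · exact ⟨0, zero_mem _, fun h => absurd h hα⟩
    choose κ hκ hκ' using h1
    let T : Finset (Fin b →₀ ℕ) := (F - kap).support.filter fun α => α.degree = m
    let kap' : SR k b := ∑ α ∈ T, monomial α 1 * κ α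
    have hkap' : kap' ∈ J k b :=
      Ideal.sum_mem _ fun α _ => Ideal.mul_mem_left _ _ (hκ α)
    refine ⟨kap + kap', add_mem hkap hkap', ?_⟩
    intro β hβ
    have h2 : F - (kap + kap') = (F - kap) - kap' := by ring
    rw [h2, coeff_sub]
    have h3 : coeff β kap' = ∑ α ∈ T, if α = β then coeff β (F - kap) else 0 := by
      simp only [kap', coeff_sum]
      refine Finset.sum_congr rfl fun α hα => ?_
      have hα' : α.degree = m := (Finset.mem_filter.mp hα).2
      rw [coeff_monomial_mul']
      by_cases h : α ≤ β
      · have h4 : α = β := f4_le h (by omega)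
        subst h4
        rw [if_pos le_rfl, if_pos rfl, tsub_self, one_mul]
        exact hκ' α hα'
      · rw [if_neg h, if_neg (fun h4 => h (le_of_eq h4))]
    rw [h3, Finset.sum_ite_eq' T β]
    by_cases hβT : β ∈ T
    · rw [if_pos hβT, sub_self]
    · rw [if_neg hβT, sub_zero]
      by_cases hd : β.degree = m
      · by_contra h0
        exact hβT (Finset.mem_filter.mpr ⟨mem_support_iff.mpr h0, hd⟩)
      · exact hlow β (by omega)

theorem J_prime (k : Type*) [CommRing k] [IsDomain k] (b : ℕ) : (J k b).IsPrime := by
  have h1 : J k b = RingHom.ker (psiR k b) := by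
    apply le_antisymm
    · intro F hF
      exact psiR_J hF
    · intro F hF
      refine nak2 (lamR k b) lamR_eval _ ?_ F ?_
      · rintro _ ⟨a, c, l, rfl⟩
        exact lamR_rel a c l
      · intro m
        obtain ⟨kap, hkap, hlow⟩ := low_step (b := b) (F := F) hF m
        exact ⟨kap, hkap, lamR_low m _ hlow⟩
  rw [h1]
  exact RingHom.ker_isPrime _

end Pool.Agent.LibRG7
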