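import Pool.Agent.LibRG7.Defs

set_option autoImplicit false

/-! ROW J1 (SHORT/MEDIUM, only Mathlib). The shift sh k P and its section sc k P.
 sub_mem: the two algebra homs F -> mk (sc (sh F)) and F -> mk F into S k / kil k P agree on the variables
 (X x killed: both 0; X x shifted with index j+1: sc X(..,j) = X(..,j+1); not shifted: equal), so they are equal
 (MvPolynomial.algHom_ext); then Ideal.Quotient.eq. -/

namespace Pool.Agent.LibRG7

open MvPolynomial

variable {k : Type*} [CommRing k]

private theorem J1_sh_X (P : Bool → Fin 3 → Bool) (x : Ix) :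
    sh k P (X x) = if P x.1 x.2.1 = true then
      (if x.2.2 = 0 then 0 else X (x.1, x.2.1, x.2.2 - 1)) else X x := by
  unfold sh
  rw [aeval_X]

private theorem J1_sc_X (P : Bool → Fin 3 → Bool) (x : Ix) :
    sc k P (X x) = if P x.1 x.2.1 = true then X (x.1, x.2.1, x.2.2 + 1) else X x := by
  unfold sc
  rw [aeval_X]

theorem sh_sc (P : Bool → Fin 3 → Bool) (F : S k) : sh k P (sc k P F) = F := by
  have h : (sh k P).comp (sc k P) = AlgHom.id k (S k) := by
    apply MvPolynomial.algHom_ext
    rintro ⟨t, c, j⟩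
    rw [AlgHom.comp_apply, J1_sc_X]
    by_cases hP : P t c = true
    · rw [if_pos hP, J1_sh_X, if_pos hP]
      simp
    · rw [if_neg hP, J1_sh_X, if_neg hP]
      simp
  have := congrArg (fun f => f F) h
  exact this

theorem sh_kil (P : Bool → Fin 3 → Bool) {F : S k} (h : F ∈ kil k P) : sh k P F = 0 := by
  have h1 : kil k P ≤ RingHom.ker (sh k P) := by
    unfold kil
    rw [Ideal.span_le]
    rintro x ⟨t, c, hP, rfl⟩
    change sh k P (X (t, c, 0)) = 0
    rw [J1_sh_X, if_pos hP, if_pos rfl]
  exact h1 h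

theorem sub_sc_sh_mem (P : Bool → Fin 3 → Bool) (F : S k) :
    F - sc k P (sh k P F) ∈ kil k P := by
  have h : (Ideal.Quotient.mkₐ k (kil k P)).comp ((sc k P).comp (sh k P)) =
      Ideal.Quotient.mkₐ k (kil k P) := by
    apply MvPolynomial.algHom_ext
    rintro ⟨t, c, j⟩
    rw [AlgHom.comp_apply, AlgHom.comp_apply, J1_sh_X]
    by_cases hP : P t c = true
    · rw [if_pos hP]
      by_cases hj : j = 0
      · subst hj
        rw [if_pos rfl, map_zero, map_zero]
        symm
        rw [Ideal.Quotient.mkₐ_eq_mk, Ideal.Quotient.eq_zero_iff_mem]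
        exact Ideal.subset_span ⟨t, c, hP, rfl⟩
      · rw [if_neg hj, J1_sc_X, if_pos hP]
        have : j - 1 + 1 = j := by omega
        change (Ideal.Quotient.mkₐ k (kil k P)) (X (t, c, j - 1 + 1)) = _
        rw [this]
    · rw [if_neg hP, J1_sc_X, if_neg hP]
  have h2 := congrArg (fun f => f F) h
  change Ideal.Quotient.mk (kil k P) (sc k P (sh k P F)) = Ideal.Quotient.mk (kil k P) F at h2
  exact Ideal.Quotient.eq.1 h2.symm

/-- if the generators G of an ideal have lifts in the ideal I, and I contains kil, then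
 sh F in span G implies F in I -/
theorem mem_of_sh_mem (P : Bool → Fin 3 → Bool) (G : Set (S k)) (I : Ideal (S k))
    (hk : kil k P ≤ I) (hG : ∀ g ∈ G, ∃ x ∈ I, sh k P x = g) {F : S k}
    (hF : sh k P F ∈ Ideal.span G) : F ∈ I := by
  have h1 : Ideal.span G ≤ Ideal.comap (sc k P) I := by
    rw [Ideal.span_le]
    intro g hg
    obtain ⟨x, hx, rfl⟩ := hG g hg
    change sc k P (sh k P x) ∈ I
    have h2 := hk (sub_sc_sh_mem P x)
    have h3 := I.sub_mem hx h2
    rwa [sub_sub_cancel] at h3
  have h2 : sc k P (sh k P F) ∈ I := h1 hF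
  have h3 := I.add_mem (hk (sub_sc_sh_mem P F)) h2
  rwa [sub_add_cancel] at h3

end Pool.Agent.LibRG7
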