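import Pool.Agent.LibRG7.J1
import Pool.Agent.LibRG7.J2

set_option autoImplicit false

/-! ROW J3 (MEDIUM, only Mathlib + rows J1, J2). Preimages of the ideals K under the shifts.
 comap_*: mem_of_sh_mem with G = the generating set of K k a b: mn 0 1 l (l < a) has the lift mn 0 1 (l+1) resp. (l+2), etc.
 (for P01 and l+2 = a+1 the lift is the extra generator mn 0 1 (a+1)). kil k P is contained in the span of the listed
 variables. K_le_*: span_induction on the generators with J2. -/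

namespace Pool.Agent.LibRG7

open MvPolynomial

variable {k : Type*} [CommRing k]

private theorem J3_01 {a b l : ℕ} (h : l < a) : mn k 0 1 l ∈ K k a b :=
  Ideal.subset_span (Or.inl (Or.inl ⟨l, h, rfl⟩))

private theorem J3_02 {a b l : ℕ} (h : l < a) : mn k 0 2 l ∈ K k a b :=
  Ideal.subset_span (Or.inl (Or.inr ⟨l, h, rfl⟩))

private theorem J3_12 {a b l : ℕ} (h : l < b) : mn k 1 2 l ∈ K k a b :=
  Ideal.subset_span (Or.inr ⟨l, h, rfl⟩)

private theorem J3_le (P : Bool → Fin 3 → Bool) {a b : ℕ} (I : Ideal (S k))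
    (h01 : ∀ l, l < a → sh k P (mn k 0 1 l) ∈ I) (h02 : ∀ l, l < a → sh k P (mn k 0 2 l) ∈ I)
    (h12 : ∀ l, l < b → sh k P (mn k 1 2 l) ∈ I) {F : S k} (h : F ∈ K k a b) :
    sh k P F ∈ I := by
  have h1 : K k a b ≤ Ideal.comap (sh k P) I := by
    unfold K
    rw [Ideal.span_le]
    rintro x ((⟨l, hl, rfl⟩ | ⟨l, hl, rfl⟩) | ⟨l, hl, rfl⟩)
    · exact h01 l hl
    · exact h02 l hl
    · exact h12 l hl
  exact h1 h

private theorem J3_comap (P : Bool → Fin 3 → Bool) {a b : ℕ} (I : Ideal (S k))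
    (hk : ∀ t c, P t c = true → (X (t, c, 0) : S k) ∈ I)
    (h01 : ∀ l, l < a → ∃ x ∈ I, sh k P x = mn k 0 1 l)
    (h02 : ∀ l, l < a → ∃ x ∈ I, sh k P x = mn k 0 2 l)
    (h12 : ∀ l, l < b → ∃ x ∈ I, sh k P x = mn k 1 2 l) {F : S k}
    (h : sh k P F ∈ K k a b) : F ∈ I := by
  refine mem_of_sh_mem P _ I ?_ ?_ h
  · unfold kil
    rw [Ideal.span_le]
    rintro x ⟨t, c, hP, rfl⟩
    exact hk t c hP
  · rintro x ((⟨l, hl, rfl⟩ | ⟨l, hl, rfl⟩) | ⟨l, hl, rfl⟩)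
    · exact h01 l hl
    · exact h02 l hl
    · exact h12 l hl

private theorem J3_r {I : Ideal (S k)} {G : Set (S k)} {x : S k} (h : x ∈ G) :
    x ∈ I ⊔ Ideal.span G :=
  (le_sup_right : Ideal.span G ≤ I ⊔ Ideal.span G) (Ideal.subset_span h)

private theorem J3_l {I J : Ideal (S k)} {x : S k} (h : x ∈ I) : x ∈ I ⊔ J :=
  (le_sup_left : I ≤ I ⊔ J) h

theorem K_le_u (a b : ℕ) {F : S k} (h : F ∈ K k (a + 1) (b + 1)) : sh k Pu F ∈ K k a b := by
  refine J3_le Pu _ ?_ ?_ ?_ h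
  · rintro (_ | l) hl
    · rw [sh_Pu_zero]; exact zero_mem _
    · rw [sh_Pu_succ]; exact J3_01 (by omega)
  · rintro (_ | l) hl
    · rw [sh_Pu_zero]; exact zero_mem _
    · rw [sh_Pu_succ]; exact J3_02 (by omega)
  · rintro (_ | l) hl
    · rw [sh_Pu_zero]; exact zero_mem _
    · rw [sh_Pu_succ]; exact J3_12 (by omega)

theorem comap_u {a b : ℕ} {F : S k} (h : sh k Pu F ∈ K k a b) :
    F ∈ K k (a + 1) (b + 1) ⊔ Ideal.span {U k 0 0, U k 1 0, U k 2 0} := by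
  refine J3_comap Pu _ ?_ ?_ ?_ ?_ h
  · intro t c hP
    have ht : t = false := by cases t <;> simp_all [Pu]
    subst ht
    apply J3_r
    fin_cases c
    · exact Or.inl rfl
    · exact Or.inr (Or.inl rfl)
    · exact Or.inr (Or.inr rfl)
  · exact fun l hl => ⟨mn k 0 1 (l + 1), J3_l (J3_01 (by omega)), sh_Pu_succ _ _ _⟩
  · exact fun l hl => ⟨mn k 0 2 (l + 1), J3_l (J3_02 (by omega)), sh_Pu_succ _ _ _⟩
  · exact fun l hl => ⟨mn k 1 2 (l + 1), J3_l (J3_12 (by omega)), sh_Pu_succ _ _ _⟩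

theorem K_le_01 (a b : ℕ) {F : S k} (h : F ∈ K k (a + 1) (b + 1)) : sh k P01 F ∈ K k a b := by
  refine J3_le P01 _ ?_ ?_ ?_ h
  · rintro (_ | _ | l) hl
    · rw [sh_P01_01_zero]; exact zero_mem _
    · rw [sh_P01_01_one]; exact zero_mem _
    · rw [sh_P01_01]; exact J3_01 (by omega)
  · rintro (_ | l) hl
    · rw [sh_P01_02_zero]; exact zero_mem _
    · rw [sh_P01_02]; exact J3_02 (by omega)
  · rintro (_ | l) hl
    · rw [sh_P01_12_zero]; exact zero_mem _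
    · rw [sh_P01_12]; exact J3_12 (by omega)

theorem comap_01 {a b : ℕ} {F : S k} (h : sh k P01 F ∈ K k a b) :
    F ∈ K k (a + 1) (b + 1) ⊔
      Ideal.span {U k 0 0, W k 0 0, U k 1 0, W k 1 0, mn k 0 1 (a + 1)} := by
  refine J3_comap P01 _ ?_ ?_ ?_ ?_ h
  · intro t c hP
    apply J3_r
    fin_cases c
    · cases t
      · exact Or.inl rfl
      · exact Or.inr (Or.inl rfl)
    · cases t
      · exact Or.inr (Or.inr (Or.inl rfl))
      · exact Or.inr (Or.inr (Or.inr (Or.inl rfl)))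
    · simp [P01] at hP
  · intro l hl
    refine ⟨mn k 0 1 (l + 2), ?_, sh_P01_01 l⟩
    by_cases h1 : l + 2 < a + 1
    · exact J3_l (J3_01 h1)
    · have h2 : l + 2 = a + 1 := by omega
      rw [h2]
      apply J3_r
      exact Or.inr (Or.inr (Or.inr (Or.inr rfl)))
  · exact fun l hl => ⟨mn k 0 2 (l + 1), J3_l (J3_02 (by omega)), sh_P01_02 _⟩
  · exact fun l hl => ⟨mn k 1 2 (l + 1), J3_l (J3_12 (by omega)), sh_P01_12 _⟩

theorem K_le_0 (a b : ℕ) {F : S k} (h : F ∈ K k (a + 1) b) : sh k P0 F ∈ K k a b := by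
  refine J3_le P0 _ ?_ ?_ ?_ h
  · rintro (_ | l) hl
    · rw [sh_P0_01_zero]; exact zero_mem _
    · rw [sh_P0_01]; exact J3_01 (by omega)
  · rintro (_ | l) hl
    · rw [sh_P0_02_zero]; exact zero_mem _
    · rw [sh_P0_02]; exact J3_02 (by omega)
  · intro l hl
    rw [sh_P0_12]; exact J3_12 hl

theorem comap_0 {a b : ℕ} {F : S k} (h : sh k P0 F ∈ K k a b) :
    F ∈ K k (a + 1) b ⊔ Ideal.span {U k 0 0, W k 0 0} := by
  refine J3_comap P0 _ ?_ ?_ ?_ ?_ h
  · intro t c hP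
    apply J3_r
    have hc : c = 0 := by simpa [P0] using hP
    subst hc
    cases t
    · exact Or.inl rfl
    · exact Or.inr rfl
  · exact fun l hl => ⟨mn k 0 1 (l + 1), J3_l (J3_01 (by omega)), sh_P0_01 _⟩
  · exact fun l hl => ⟨mn k 0 2 (l + 1), J3_l (J3_02 (by omega)), sh_P0_02 _⟩
  · exact fun l hl => ⟨mn k 1 2 l, J3_l (J3_12 hl), sh_P0_12 _⟩

theorem K_le_u12 (b : ℕ) {F : S k} (h : F ∈ K k 0 (b + 1)) : sh k Pu12 F ∈ K k 0 b := by
  refine J3_le Pu12 _ ?_ ?_ ?_ h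
  · exact fun l hl => absurd hl (Nat.not_lt_zero l)
  · exact fun l hl => absurd hl (Nat.not_lt_zero l)
  · rintro (_ | l) hl
    · rw [sh_Pu12_12_zero]; exact zero_mem _
    · rw [sh_Pu12_12]; exact J3_12 (by omega)

theorem comap_u12 {b : ℕ} {F : S k} (h : sh k Pu12 F ∈ K k 0 b) :
    F ∈ K k 0 (b + 1) ⊔ Ideal.span {U k 1 0, U k 2 0} := by
  refine J3_comap Pu12 _ ?_ ?_ ?_ ?_ h
  · intro t c hP
    apply J3_r
    have ht : t = false := by cases t <;> simp_all [Pu12]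
    subst ht
    fin_cases c
    · simp [Pu12] at hP
    · exact Or.inl rfl
    · exact Or.inr rfl
  · exact fun l hl => absurd hl (Nat.not_lt_zero l)
  · exact fun l hl => absurd hl (Nat.not_lt_zero l)
  · exact fun l hl => ⟨mn k 1 2 (l + 1), J3_l (J3_12 (by omega)), sh_Pu12_12 _⟩

theorem K_le_1 (b : ℕ) {F : S k} (h : F ∈ K k 0 (b + 1)) : sh k P1 F ∈ K k 0 b := by
  refine J3_le P1 _ ?_ ?_ ?_ h
  · exact fun l hl => absurd hl (Nat.not_lt_zero l)
  · exact fun l hl => absurd hl (Nat.not_lt_zero l)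
  · rintro (_ | l) hl
    · rw [sh_P1_12_zero]; exact zero_mem _
    · rw [sh_P1_12]; exact J3_12 (by omega)

theorem comap_1 {b : ℕ} {F : S k} (h : sh k P1 F ∈ K k 0 b) :
    F ∈ K k 0 (b + 1) ⊔ Ideal.span {U k 1 0, W k 1 0} := by
  refine J3_comap P1 _ ?_ ?_ ?_ ?_ h
  · intro t c hP
    apply J3_r
    have hc : c = 1 := by simpa [P1] using hP
    subst hc
    cases t
    · exact Or.inl rfl
    · exact Or.inr rfl
  · exact fun l hl => absurd hl (Nat.not_lt_zero l)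
  · exact fun l hl => absurd hl (Nat.not_lt_zero l)
  · exact fun l hl => ⟨mn k 1 2 (l + 1), J3_l (J3_12 (by omega)), sh_P1_12 _⟩

end Pool.Agent.LibRG7
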