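import Pool.Agent.LibRG7.Defs

set_option autoImplicit false

/-! ROW J4 (MEDIUM/STRONG, only Mathlib). The parametrization psi.
 K_le_psi: on the generator mn 1 2 l, l < b: psi gives sum over i+j=l of nw 1 i * W 2 j - nw 2 i * W 1 j
 = coefficient l of (nu w^1) w^2 - (nu w^2) w^1 = 0; prove it with power series over S k
 (PowerSeries.mk, PowerSeries.coeff_mul) or with a reindexing of triple sums. Same for mn 0 1, mn 0 2, l < a <= b.
 psi_sat: Q := S k / K k a b, Qg := Localization.Away (mk (W k 2 0)). In Qg[[t]] the series w2 = sum W 2 j t^j has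
 invertible constant coefficient; nu := u2 * w2^{-1} (PowerSeries.invOfUnit). Define the algebra hom
 chi : S k -> Qg, (true,c,j) -> W c j, (false,2,j) -> coeff j nu, (false,1,j), (false,0,j) -> U c j (images in Qg).
 Then chi (psi F) = image of F in Qg for all F: algHom_ext; for x = (false,2,l): coeff l (nu * w2) = U 2 l;
 for (false,1,l) with l < b: coeff l (nu * w1) = U 1 l because w2 * (u1 - nu * w1) = u1 w2 - u2 w1 has coefficients
 mn 1 2 j = 0 for j < b, and w2 is invertible (multiply by w2^{-1}, coefficients < b only involve coefficients < b);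
 the same for (false,0,l), l < a, with mn 0 2. So psi F = 0 gives F = 0 in Qg, that is W^N F in K
 (IsLocalization.Away / IsLocalization.map_eq_zero_iff, Ideal.Quotient.eq_zero_iff_mem). -/

namespace Pool.Agent.LibRG7

open MvPolynomial

variable {k : Type*} [CommRing k]

theorem psi_W (a b : ℕ) (c : Fin 3) (i : ℕ) : psi k a b (W k c i) = W k c i := by
  simp [psi, W]

private theorem J4_U2 (a b : ℕ) (l : ℕ) : psi k a b (U k 2 l) = nw k 2 l := by
  simp [psi, U]

private theorem J4_U1 {a b : ℕ} {l : ℕ} (h : l < b) : psi k a b (U k 1 l) = nw k 1 l := by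
  simp [psi, U, h]

private theorem J4_U0 {a b : ℕ} {l : ℕ} (h : l < a) : psi k a b (U k 0 l) = nw k 0 l := by
  simp [psi, U, h]

private theorem J4_zero (c c' : Fin 3) (l : ℕ) :
    ∑ p ∈ Finset.HasAntidiagonal.antidiagonal l, (nw k c p.1 * W k c' p.2 - nw k c' p.1 * W k c p.2) =
      0 := by
  let ν : PowerSeries (S k) := PowerSeries.mk fun i => U k 2 i
  let w : Fin 3 → PowerSeries (S k) := fun c => PowerSeries.mk fun i => W k c i
  have h1 : ∀ c i, nw k c i = PowerSeries.coeff i (ν * w c) := by
    intro c i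
    rw [PowerSeries.coeff_mul]
    simp only [ν, w, PowerSeries.coeff_mk]
    rfl
  have h2 : ∀ c c', ∑ p ∈ Finset.HasAntidiagonal.antidiagonal l, nw k c p.1 * W k c' p.2 =
      PowerSeries.coeff l (ν * w c * w c') := by
    intro c c'
    rw [PowerSeries.coeff_mul]
    refine Finset.sum_congr rfl fun p _ => ?_
    rw [← h1]
    simp only [w, PowerSeries.coeff_mk]
  rw [Finset.sum_sub_distrib, h2, h2, mul_right_comm, sub_self]

theorem K_le_psi {a b : ℕ} (hab : a ≤ b) {F : S k} (h : F ∈ K k a b) : psi k a b F = 0 := by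
  have hle : K k a b ≤ RingHom.ker (psi k a b : S k →+* S k) := by
    refine Ideal.span_le.2 ?_
    rintro x ((⟨l, hl, rfl⟩ | ⟨l, hl, rfl⟩) | ⟨l, hl, rfl⟩)
    · change psi k a b (mn k 0 1 l) = 0
      rw [mn, map_sum, ← J4_zero (k := k) 0 1 l]
      refine Finset.sum_congr rfl fun p hp => ?_
      have hp' := Finset.HasAntidiagonal.mem_antidiagonal.1 hp
      rw [map_sub, map_mul, map_mul, psi_W, psi_W, J4_U0 (by omega), J4_U1 (by omega)]
    · change psi k a b (mn k 0 2 l) = 0
      rw [mn, map_sum, ← J4_zero (k := k) 0 2 l]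
      refine Finset.sum_congr rfl fun p hp => ?_
      have hp' := Finset.HasAntidiagonal.mem_antidiagonal.1 hp
      rw [map_sub, map_mul, map_mul, psi_W, psi_W, J4_U0 (by omega), J4_U2]
    · change psi k a b (mn k 1 2 l) = 0
      rw [mn, map_sum, ← J4_zero (k := k) 1 2 l]
      refine Finset.sum_congr rfl fun p hp => ?_
      have hp' := Finset.HasAntidiagonal.mem_antidiagonal.1 hp
      rw [map_sub, map_mul, map_mul, psi_W, psi_W, J4_U1 (by omega), J4_U2]
  exact hle h

private theorem J4_cancel {R : Type*} [CommRing R] {w v g : PowerSeries R} (hw : v * w = 1) {b : ℕ}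
    (h : ∀ j < b, PowerSeries.coeff j (w * g) = 0) : ∀ l < b, PowerSeries.coeff l g = 0 := by
  intro l hl
  have h1 : g = v * (w * g) := by rw [← mul_assoc, hw, one_mul]
  rw [h1, PowerSeries.coeff_mul]
  refine Finset.sum_eq_zero fun p hp => ?_
  have hp' := Finset.HasAntidiagonal.mem_antidiagonal.1 hp
  rw [h p.2 (by omega), mul_zero]

theorem psi_sat {a b : ℕ} (hab : a ≤ b) {F : S k} (h : psi k a b F = 0) :
    ∃ N : ℕ, (W k 2 0) ^ N * F ∈ K k a b := by
  let I : Ideal (S k) := K k a b
  let g : S k ⧸ I := Ideal.Quotient.mk I (W k 2 0)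
  let Qg := Localization.Away g
  let ι : S k →+* Qg := (algebraMap (S k ⧸ I) Qg).comp (Ideal.Quotient.mk I)
  let u : Fin 3 → PowerSeries Qg := fun c => PowerSeries.mk fun i => ι (U k c i)
  let w : Fin 3 → PowerSeries Qg := fun c => PowerSeries.mk fun i => ι (W k c i)
  have hunit : IsUnit (w 2) := by
    rw [PowerSeries.isUnit_iff_constantCoeff]
    have h1 : PowerSeries.constantCoeff (w 2) = algebraMap (S k ⧸ I) Qg g := by
      rw [← PowerSeries.coeff_zero_eq_constantCoeff_apply]
      simp only [w, PowerSeries.coeff_mk]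
      rfl
    rw [h1]
    exact IsLocalization.Away.algebraMap_isUnit g
  obtain ⟨v, hv⟩ : ∃ v, v * w 2 = 1 := by
    obtain ⟨x, hx⟩ := hunit
    exact ⟨↑x⁻¹, by rw [← hx, Units.inv_mul]⟩
  let ν : PowerSeries Qg := u 2 * v
  let χ : S k →+* Qg := MvPolynomial.eval₂Hom (ι.comp (C : k →+* S k))
    (fun x : Ix => if x.1 = true then ι (X x) else
      if x.2.1 = 2 then PowerSeries.coeff x.2.2 ν else ι (X x))
  have hχW : ∀ c i, χ (W k c i) = ι (W k c i) := by
    intro c i
    simp [χ, W]
  have hχU2 : ∀ i, χ (U k 2 i) = PowerSeries.coeff i ν := by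
    intro i
    simp [χ, U]
  have hχU : ∀ (c : Fin 3) (i : ℕ), c ≠ 2 → χ (U k c i) = ι (U k c i) := by
    intro c i hc
    simp [χ, U, hc]
  have hnw : ∀ c l, χ (nw k c l) = PowerSeries.coeff l (ν * w c) := by
    intro c l
    rw [nw, map_sum, PowerSeries.coeff_mul]
    refine Finset.sum_congr rfl fun p _ => ?_
    rw [map_mul, hχU2, hχW]
    simp only [w, PowerSeries.coeff_mk]
  have hmn : ∀ (c : Fin 3) (m : ℕ), (∀ l < m, mn k c 2 l ∈ I) → ∀ l < m,
      PowerSeries.coeff l (ν * w c) = ι (U k c l) := by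
    intro c m hm l hl
    have h1 : ∀ j < m, PowerSeries.coeff j (w 2 * (u c - ν * w c)) = 0 := by
      intro j hj
      have h2 : w 2 * (u c - ν * w c) = u c * w 2 - u 2 * w c := by
        have h3 : w 2 * (u c - ν * w c) = u c * w 2 - u 2 * (v * w 2) * w c := by
          simp only [ν]
          ring
        rw [h3, hv, mul_one]
      rw [h2, map_sub, PowerSeries.coeff_mul, PowerSeries.coeff_mul, ← Finset.sum_sub_distrib]
      have h4 : ι (mn k c 2 j) = 0 := by
        change algebraMap (S k ⧸ I) Qg (Ideal.Quotient.mk I (mn k c 2 j)) = 0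
        rw [Ideal.Quotient.eq_zero_iff_mem.2 (hm j hj), map_zero]
      rw [← h4, mn, map_sum]
      refine Finset.sum_congr rfl fun p _ => ?_
      simp only [u, w, PowerSeries.coeff_mk, map_sub, map_mul]
    have h5 := J4_cancel hv h1 l hl
    rw [map_sub, sub_eq_zero] at h5
    rw [← h5]
    simp only [u, PowerSeries.coeff_mk]
  have h12 : ∀ l < b, mn k 1 2 l ∈ I := fun l hl =>
    Ideal.subset_span (Or.inr ⟨l, hl, rfl⟩)
  have h02 : ∀ l < a, mn k 0 2 l ∈ I := fun l hl =>
    Ideal.subset_span (Or.inl (Or.inr ⟨l, hl, rfl⟩))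
  have key : χ.comp (psi k a b : S k →+* S k) = ι := by
    apply MvPolynomial.ringHom_ext
    · intro r
      change χ (psi k a b (C r)) = ι (C r)
      have h1 : psi k a b (C r) = C r := (psi k a b).commutes r
      rw [h1]
      simp [χ]
    · rintro ⟨t, c, l⟩
      change χ (psi k a b (X (t, c, l))) = ι (X (t, c, l))
      cases t with
      | true =>
        change χ (psi k a b (W k c l)) = ι (W k c l)
        rw [psi_W, hχW]
      | false =>
        change χ (psi k a b (U k c l)) = ι (U k c l)
        fin_cases c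
        · change χ (psi k a b (U k 0 l)) = ι (U k 0 l)
          by_cases hl : l < a
          · rw [J4_U0 hl, hnw, hmn 0 a h02 l hl]
          · have h1 : psi k a b (U k 0 l) = U k 0 l := by
              simp [psi, U, hl]
            rw [h1, hχU 0 l (by decide)]
        · change χ (psi k a b (U k 1 l)) = ι (U k 1 l)
          by_cases hl : l < b
          · rw [J4_U1 hl, hnw, hmn 1 b h12 l hl]
          · have h1 : psi k a b (U k 1 l) = U k 1 l := by
              simp [psi, U, hl]
            rw [h1, hχU 1 l (by decide)]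
        · change χ (psi k a b (U k 2 l)) = ι (U k 2 l)
          rw [J4_U2, hnw]
          have h1 : ν * w 2 = u 2 := by
            simp only [ν]
            rw [mul_assoc, hv, mul_one]
          rw [h1]
          simp only [u, PowerSeries.coeff_mk]
  have hF : ι F = 0 := by
    rw [← key]
    change χ (psi k a b F) = 0
    rw [h, map_zero]
  change algebraMap (S k ⧸ I) Qg (Ideal.Quotient.mk I F) = 0 at hF
  rw [IsLocalization.map_eq_zero_iff (Submonoid.powers g)] at hF
  obtain ⟨⟨_, N, rfl⟩, hN⟩ := hF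
  refine ⟨N, ?_⟩
  rw [← Ideal.Quotient.eq_zero_iff_mem (I := I), map_mul, map_pow]
  exact hN

theorem psi_U00 {a b : ℕ} (ha : 0 < a) : psi k a b (U k 0 0) = U k 2 0 * W k 0 0 := by
  rw [J4_U0 ha, nw]
  simp

theorem psi_U10 {a b : ℕ} (hb : 0 < b) : psi k a b (U k 1 0) = U k 2 0 * W k 1 0 := by
  rw [J4_U1 hb, nw]
  simp

end Pool.Agent.LibRG7
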