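import Pool.Agent.LibRG7.Defs

set_option autoImplicit false

/-! ROW J5 (MEDIUM, only Mathlib). Graded Nakayama without gradings.
 lam : A -> A[X] ring hom with eval 1 (lam x) = x ('homogeneous components'), J = span G with lam g = C g * X^n for g in G.
 coeff_mem: for F in J all coefficients of lam F are in J (span_induction: lam (r g) = lam r * C g * X^n).
 nak2: for every m there is kap in J with coeff n (lam (F - kap)) = 0 for n < m. Take m = natDegree (lam F) + 1: for n < m:
 coeff n (lam F) = coeff n (lam kap) in J; and F = eval 1 (lam F) = sum of the coefficients n < m (Polynomial.eval_eq_sum_range).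
 nak: iterate: for all m: F in J + x^m L; X divides lam x, so X^m divides lam (x^m H): coefficients n < m vanish. -/

namespace Pool.Agent.LibRG7

theorem coeff_mem {A : Type*} [CommRing A] (lam : A →+* Polynomial A)
    (G : Set A) (hG : ∀ g ∈ G, ∃ n : ℕ, lam g = Polynomial.C g * Polynomial.X ^ n)
    {F : A} (hF : F ∈ Ideal.span G) (n : ℕ) : (lam F).coeff n ∈ Ideal.span G := by
  induction hF using Submodule.span_induction generalizing n with
  | mem g hg =>
    obtain ⟨m, hm⟩ := hG g hg
    rw [hm, Polynomial.coeff_C_mul_X_pow]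
    split_ifs
    · exact Ideal.subset_span hg
    · exact zero_mem _
  | zero =>
    rw [map_zero, Polynomial.coeff_zero]
    exact zero_mem _
  | add x y _ _ hx hy =>
    rw [map_add, Polynomial.coeff_add]
    exact add_mem (hx n) (hy n)
  | smul r x _ hx =>
    rw [smul_eq_mul, map_mul, Polynomial.coeff_mul]
    exact sum_mem fun p _ => Ideal.mul_mem_left _ _ (hx p.2)

theorem nak2 {A : Type*} [CommRing A] (lam : A →+* Polynomial A)
    (h1 : ∀ x, (lam x).eval 1 = x)
    (G : Set A) (hG : ∀ g ∈ G, ∃ n : ℕ, lam g = Polynomial.C g * Polynomial.X ^ n)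
    (F : A) (hF : ∀ m : ℕ, ∃ kap ∈ Ideal.span G, ∀ n < m, (lam (F - kap)).coeff n = 0) :
    F ∈ Ideal.span G := by
  obtain ⟨kap, hk, hc⟩ := hF ((lam F).natDegree + 1)
  rw [← h1 F, Polynomial.eval_eq_sum_range]
  refine sum_mem fun n hn => ?_
  rw [one_pow, mul_one]
  have h2 := hc n (Finset.mem_range.1 hn)
  rw [map_sub, Polynomial.coeff_sub, sub_eq_zero] at h2
  rw [h2]
  exact coeff_mem lam G hG hk n

theorem nak {A : Type*} [CommRing A] (lam : A →+* Polynomial A)
    (h1 : ∀ x, (lam x).eval 1 = x)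
    (G : Set A) (hG : ∀ g ∈ G, ∃ n : ℕ, lam g = Polynomial.C g * Polynomial.X ^ n)
    (x : A) (hx : Polynomial.X ∣ lam x) (L : Set A)
    (hL : ∀ F ∈ L, ∃ H ∈ L, F - x * H ∈ Ideal.span G) (F : A) (hF : F ∈ L) :
    F ∈ Ideal.span G := by
  have hm : ∀ m : ℕ, ∃ H ∈ L, F - x ^ m * H ∈ Ideal.span G := by
    intro m
    induction m with
    | zero => exact ⟨F, hF, by rw [pow_zero, one_mul, sub_self]; exact zero_mem _⟩
    | succ m ih =>
      obtain ⟨H, hH, h2⟩ := ih
      obtain ⟨H', hH', h3⟩ := hL H hH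
      refine ⟨H', hH', ?_⟩
      have e : F - x ^ (m + 1) * H' = (F - x ^ m * H) + x ^ m * (H - x * H') := by ring
      rw [e]
      exact add_mem h2 (Ideal.mul_mem_left _ _ h3)
  refine nak2 lam h1 G hG F fun m => ?_
  obtain ⟨H, _, h2⟩ := hm m
  refine ⟨F - x ^ m * H, h2, fun n hn => ?_⟩
  rw [sub_sub_cancel, map_mul, map_pow]
  have h3 : (Polynomial.X : Polynomial A) ^ m ∣ lam x ^ m * lam H :=
    Dvd.dvd.mul_right (pow_dvd_pow_of_dvd hx m) _
  exact Polynomial.X_pow_dvd_iff.1 h3 n hn

end Pool.Agent.LibRG7
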