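import Pool.Agent.LibRG7.J3
import Pool.Agent.LibRG7.J4
import Pool.Agent.LibRG7.J5

set_option autoImplicit false

/-! ROW J6 (SHORT, only Mathlib + Defs). Non-membership (evaluation u -> 0, w -> 1 resp. u -> 1, w -> 0 kills all mn),
 the small relations, the top relation and the scaling hom of S k. -/

namespace Pool.Agent.LibRG7

open MvPolynomial

variable {k : Type*} [CommRing k]

private theorem J6_K_le {R : Type*} [CommRing R] (φ : S k →+* R)
    (h : ∀ a c l, φ (mn k a c l) = 0) (a b : ℕ) : K k a b ≤ RingHom.ker φ := by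
  unfold K
  rw [Ideal.span_le]
  rintro x ((⟨l, _, rfl⟩ | ⟨l, _, rfl⟩) | ⟨l, _, rfl⟩)
  · exact h 0 1 l
  · exact h 0 2 l
  · exact h 1 2 l

theorem W_not_mem [Nontrivial k] (a b : ℕ) (c : Fin 3) (i : ℕ) : W k c i ∉ K k a b := by
  intro hmem
  have hU : ∀ c i, MvPolynomial.eval (fun x : Ix => if x.1 = true then (1 : k) else 0)
      (U k c i) = 0 := by
    intro c i
    unfold U
    rw [MvPolynomial.eval_X]
    simp
  have hW : MvPolynomial.eval (fun x : Ix => if x.1 = true then (1 : k) else 0)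
      (W k c i) = 1 := by
    unfold W
    rw [MvPolynomial.eval_X]
    simp
  have h1 := J6_K_le (MvPolynomial.eval (fun x : Ix => if x.1 = true then (1 : k) else 0))
    (fun a c l => by
      unfold mn
      rw [map_sum]
      refine Finset.sum_eq_zero fun p _ => ?_
      rw [map_sub, map_mul, map_mul, hU, hU, zero_mul, zero_mul, sub_zero]) a b hmem
  rw [RingHom.mem_ker, hW] at h1
  exact one_ne_zero h1

theorem U_not_mem [Nontrivial k] (a b : ℕ) (c : Fin 3) (i : ℕ) : U k c i ∉ K k a b := by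
  intro hmem
  have hU : MvPolynomial.eval (fun x : Ix => if x.1 = true then (0 : k) else 1)
      (U k c i) = 1 := by
    unfold U
    rw [MvPolynomial.eval_X]
    simp
  have hW : ∀ c i, MvPolynomial.eval (fun x : Ix => if x.1 = true then (0 : k) else 1)
      (W k c i) = 0 := by
    intro c i
    unfold W
    rw [MvPolynomial.eval_X]
    simp
  have h1 := J6_K_le (MvPolynomial.eval (fun x : Ix => if x.1 = true then (0 : k) else 1))
    (fun a c l => by
      unfold mn
      rw [map_sum]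
      refine Finset.sum_eq_zero fun p _ => ?_
      rw [map_sub, map_mul, map_mul, hW, hW, mul_zero, mul_zero, sub_zero]) a b hmem
  rw [RingHom.mem_ker, hU] at h1
  exact one_ne_zero h1

private theorem J6_mn0 (a c : Fin 3) : mn k a c 0 = U k a 0 * W k c 0 - U k c 0 * W k a 0 := by
  unfold mn
  rw [Finset.Nat.antidiagonal_zero, Finset.sum_singleton]

private theorem J6_mem01 {a b l : ℕ} (h : l < a) : mn k 0 1 l ∈ K k a b :=
  Ideal.subset_span (Or.inl (Or.inl ⟨l, h, rfl⟩))

private theorem J6_mem02 {a b l : ℕ} (h : l < a) : mn k 0 2 l ∈ K k a b :=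
  Ideal.subset_span (Or.inl (Or.inr ⟨l, h, rfl⟩))

private theorem J6_mem12 {a b l : ℕ} (h : l < b) : mn k 1 2 l ∈ K k a b :=
  Ideal.subset_span (Or.inr ⟨l, h, rfl⟩)

private theorem J6_small {I : Ideal (S k)} (a c : Fin 3) (h : mn k a c 0 ∈ I) :
    U k c 0 * W k a 0 ∈ I ⊔ Ideal.span {U k a 0} := by
  have h1 : U k c 0 * W k a 0 = -mn k a c 0 + W k c 0 * U k a 0 := by
    rw [J6_mn0]
    ring
  rw [h1]
  exact Ideal.add_mem _ (Ideal.mem_sup_left (I.neg_mem h))
    (Ideal.mem_sup_right (Ideal.mul_mem_left _ _ (Ideal.subset_span rfl)))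

theorem rel_20 (a b : ℕ) : U k 2 0 * W k 0 0 ∈ K k (a + 1) b ⊔ Ideal.span {U k 0 0} := by
  exact J6_small 0 2 (J6_mem02 (Nat.succ_pos a))

theorem rel_10 (a b : ℕ) : U k 1 0 * W k 0 0 ∈ K k (a + 1) b ⊔ Ideal.span {U k 0 0} := by
  exact J6_small 0 1 (J6_mem01 (Nat.succ_pos a))

theorem rel_21 (a b : ℕ) : U k 2 0 * W k 1 0 ∈ K k a (b + 1) ⊔ Ideal.span {U k 1 0} := by
  exact J6_small 1 2 (J6_mem12 (Nat.succ_pos b))

private theorem J6_mk (a c : Fin 3) : PowerSeries.mk (mn k a c) =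
    PowerSeries.mk (U k a) * PowerSeries.mk (W k c) -
      PowerSeries.mk (U k c) * PowerSeries.mk (W k a) := by
  ext1 n
  rw [map_sub, PowerSeries.coeff_mul, PowerSeries.coeff_mul, PowerSeries.coeff_mk, mn,
    Finset.sum_sub_distrib]
  simp only [PowerSeries.coeff_mk]

private theorem J6_sum (n : ℕ) :
    ∑ p ∈ Finset.HasAntidiagonal.antidiagonal n, U k 0 p.1 * mn k 1 2 p.2 -
      ∑ p ∈ Finset.HasAntidiagonal.antidiagonal n, U k 1 p.1 * mn k 0 2 p.2 +
      ∑ p ∈ Finset.HasAntidiagonal.antidiagonal n, U k 2 p.1 * mn k 0 1 p.2 = 0 := by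
  have h : PowerSeries.mk (U k 0) * PowerSeries.mk (mn k 1 2) -
      PowerSeries.mk (U k 1) * PowerSeries.mk (mn k 0 2) +
      PowerSeries.mk (U k 2) * PowerSeries.mk (mn k 0 1) = 0 := by
    rw [J6_mk, J6_mk, J6_mk]
    ring
  have h1 := congrArg (PowerSeries.coeff n) h
  rw [map_add, map_sub, PowerSeries.coeff_mul, PowerSeries.coeff_mul, PowerSeries.coeff_mul,
    map_zero] at h1
  simp only [PowerSeries.coeff_mk] at h1
  exact h1

private theorem J6_split (I : Ideal (S k)) (f g : ℕ → S k) (n : ℕ) (h : ∀ l, l < n → g l ∈ I) :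
    (∑ p ∈ Finset.HasAntidiagonal.antidiagonal n, f p.1 * g p.2) - f 0 * g n ∈ I := by
  have hm : ((0, n) : ℕ × ℕ) ∈ Finset.HasAntidiagonal.antidiagonal n := by
    rw [Finset.HasAntidiagonal.mem_antidiagonal, zero_add]
  rw [← Finset.add_sum_erase _ _ hm, add_sub_cancel_left]
  refine Ideal.sum_mem _ fun p hp => I.mul_mem_left _ (h _ ?_)
  rw [Finset.mem_erase, Finset.HasAntidiagonal.mem_antidiagonal] at hp
  obtain ⟨h1, h2⟩ := hp
  rcases Nat.eq_zero_or_pos p.1 with h3 | h3
  · exact absurd (Prod.ext h3 (by rw [h3, zero_add] at h2; exact h2)) h1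
  · omega

/-- the coefficient of t^a of u^0 (12) - u^1 (02) + u^2 (01) = 0 -/
theorem top_rel {a b : ℕ} (hab : a ≤ b) :
    U k 2 0 * mn k 0 1 a ∈ K k a b ⊔ Ideal.span {U k 0 0, U k 1 0} := by
  have h := J6_sum (k := k) a
  have h0 := Ideal.mem_sup_left (S := K k a b) (T := Ideal.span {U k 0 0, U k 1 0})
    (J6_split (K k a b) (U k 0) (mn k 1 2) a (fun l hl => J6_mem12 (lt_of_lt_of_le hl hab)))
  have h1 := Ideal.mem_sup_left (S := K k a b) (T := Ideal.span {U k 0 0, U k 1 0})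
    (J6_split (K k a b) (U k 1) (mn k 0 2) a (fun l hl => J6_mem02 hl))
  have h2 := Ideal.mem_sup_left (S := K k a b) (T := Ideal.span {U k 0 0, U k 1 0})
    (J6_split (K k a b) (U k 2) (mn k 0 1) a (fun l hl => J6_mem01 hl))
  have h3 : U k 0 0 * mn k 1 2 a ∈ K k a b ⊔ Ideal.span {U k 0 0, U k 1 0} :=
    Ideal.mem_sup_right (Ideal.mul_mem_right _ _ (Ideal.subset_span (Or.inl rfl)))
  have h4 : U k 1 0 * mn k 0 2 a ∈ K k a b ⊔ Ideal.span {U k 0 0, U k 1 0} :=
    Ideal.mem_sup_right (Ideal.mul_mem_right _ _ (Ideal.subset_span (Or.inr rfl)))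
  have h5 := Ideal.add_mem _ (Ideal.sub_mem _ (Ideal.sub_mem _ h1 h0) h2)
    (Ideal.sub_mem _ h4 h3)
  convert h5 using 1
  linear_combination h

noncomputable def lamS (k : Type*) [CommRing k] : S k →+* Polynomial (S k) :=
  MvPolynomial.eval₂Hom ((Polynomial.C : S k →+* _).comp (C : k →+* S k))
    (fun x : Ix => Polynomial.C (X x) * Polynomial.X)

private theorem J6_lamU (c : Fin 3) (i : ℕ) :
    lamS k (U k c i) = Polynomial.C (U k c i) * Polynomial.X := by
  unfold lamS U
  rw [MvPolynomial.coe_eval₂Hom, MvPolynomial.eval₂_X]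

private theorem J6_lamW (c : Fin 3) (i : ℕ) :
    lamS k (W k c i) = Polynomial.C (W k c i) * Polynomial.X := by
  unfold lamS W
  rw [MvPolynomial.coe_eval₂Hom, MvPolynomial.eval₂_X]

theorem lamS_eval (x : S k) : (lamS k x).eval 1 = x := by
  have h : (Polynomial.evalRingHom (1 : S k)).comp (lamS k) = RingHom.id (S k) := by
    apply MvPolynomial.ringHom_ext
    · intro r
      rw [RingHom.comp_apply, lamS, MvPolynomial.coe_eval₂Hom, MvPolynomial.eval₂_C]
      simp
    · intro i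
      rw [RingHom.comp_apply, lamS, MvPolynomial.coe_eval₂Hom, MvPolynomial.eval₂_X]
      simp
  exact congrArg (fun f : S k →+* S k => f x) h

theorem lamS_mn (a c : Fin 3) (l : ℕ) :
    lamS k (mn k a c l) = Polynomial.C (mn k a c l) * Polynomial.X ^ 2 := by
  unfold mn
  rw [map_sum, map_sum, Finset.sum_mul]
  refine Finset.sum_congr rfl fun p _ => ?_
  rw [map_sub, map_mul, map_mul, J6_lamU, J6_lamU, J6_lamW, J6_lamW, map_sub, map_mul, map_mul]
  ring

end Pool.Agent.LibRG7
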