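import Pool.Agent.LibRG7.Defs

set_option autoImplicit false

/-! ROW P1 (MEDIUM, only Mathlib). Calculus of act, pl, cv, Gm.
 act_cv: for f of degree < a and h of degree < b, a + b = n: f(X) e + h(X) e' = Gm * (coordinate vector). -/

namespace Pool.Agent.LibRG7

variable {B : Type*} [CommRing B] {n : ℕ}

theorem act_add_left (X : Matrix (Fin n) (Fin n) B) (f g : Polynomial B) (v : Fin n → B) :
    act X (f + g) v = act X f v + act X g v := by
  unfold act
  rw [map_add, Matrix.add_mulVec]

theorem act_sub_left (X : Matrix (Fin n) (Fin n) B) (f g : Polynomial B) (v : Fin n → B) :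
    act X (f - g) v = act X f v - act X g v := by
  unfold act
  rw [map_sub, Matrix.sub_mulVec]

theorem act_mul (X : Matrix (Fin n) (Fin n) B) (f g : Polynomial B) (v : Fin n → B) :
    act X (f * g) v = act X f (act X g v) := by
  unfold act
  rw [map_mul, Matrix.mulVec_mulVec]

theorem act_add_right (X : Matrix (Fin n) (Fin n) B) (f : Polynomial B) (v w : Fin n → B) :
    act X f (v + w) = act X f v + act X f w := by
  unfold act
  rw [Matrix.mulVec_add]

theorem act_sub_right (X : Matrix (Fin n) (Fin n) B) (f : Polynomial B) (v w : Fin n → B) :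
    act X f (v - w) = act X f v - act X f w := by
  unfold act
  rw [Matrix.mulVec_sub]

theorem act_zero_left (X : Matrix (Fin n) (Fin n) B) (v : Fin n → B) : act X 0 v = 0 := by
  unfold act
  rw [map_zero, Matrix.zero_mulVec]

theorem act_one (X : Matrix (Fin n) (Fin n) B) (v : Fin n → B) : act X 1 v = v := by
  unfold act
  rw [map_one, Matrix.one_mulVec]

theorem act_X_pow (X : Matrix (Fin n) (Fin n) B) (j : ℕ) (v : Fin n → B) :
    act X (Polynomial.X ^ j) v = (X ^ j).mulVec v := by
  unfold act
  rw [map_pow, Polynomial.aeval_X]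

/-- a matrix commuting with X commutes with f(X) -/
theorem act_comm {X Y : Matrix (Fin n) (Fin n) B} (h : X * Y = Y * X) (f : Polynomial B)
    (v : Fin n → B) : Y.mulVec (act X f v) = act X f (Y.mulVec v) := by
  have h1 : Commute Y (Polynomial.aeval X f) := by
    induction f using Polynomial.induction_on' with
    | add p q hp hq =>
      rw [map_add]
      exact hp.add_right hq
    | monomial m c =>
      rw [Polynomial.aeval_monomial]
      have h2 : Commute Y (X ^ m) := (show Commute Y X from h.symm).pow_right m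
      exact Commute.mul_right (Algebra.commutes' c Y).symm h2
  unfold act
  rw [Matrix.mulVec_mulVec, Matrix.mulVec_mulVec, h1.eq]

private theorem P1_aeval_map {B' : Type*} [CommRing B'] (φ : B →+* B') (X : Matrix (Fin n) (Fin n) B)
    (f : Polynomial B) :
    Polynomial.aeval (X.map φ) (f.map φ) = (Polynomial.aeval X f).map φ := by
  have hpow : ∀ m : ℕ, (X.map φ) ^ m = (X ^ m).map φ := fun m => (φ.mapMatrix.map_pow X m).symm
  induction f using Polynomial.induction_on' with
  | add p q hp hq =>
    rw [Polynomial.map_add, map_add, map_add, hp, hq]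
    ext i j
    simp
  | monomial m c =>
    rw [Polynomial.map_monomial, Polynomial.aeval_monomial, Polynomial.aeval_monomial, hpow,
      Algebra.algebraMap_eq_smul_one, Algebra.algebraMap_eq_smul_one, smul_mul_assoc, smul_mul_assoc,
      one_mul, one_mul]
    ext i j
    simp

theorem act_map {B' : Type*} [CommRing B'] (φ : B →+* B') (X : Matrix (Fin n) (Fin n) B)
    (f : Polynomial B) (v : Fin n → B) :
    act (X.map φ) (f.map φ) (φ ∘ v) = φ ∘ (act X f v) := by
  unfold act
  rw [P1_aeval_map]
  funext i
  exact (RingHom.map_mulVec φ _ v i).symm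

theorem Gm_map {B' : Type*} [CommRing B'] (φ : B →+* B') (a : ℕ)
    (X : Matrix (Fin n) (Fin n) B) (v w : Fin n → B) :
    Gm a (X.map φ) (φ ∘ v) (φ ∘ w) = (Gm a X v w).map φ := by
  have hpow : ∀ m : ℕ, (X.map φ) ^ m = (X ^ m).map φ := fun m => (φ.mapMatrix.map_pow X m).symm
  have hmv : ∀ (m : ℕ) (y : Fin n → B) (i : Fin n),
      (((X.map φ) ^ m).mulVec (φ ∘ y)) i = φ (((X ^ m).mulVec y) i) := by
    intro m y i
    rw [hpow]
    exact (RingHom.map_mulVec φ _ y i).symm
  ext i j
  unfold Gm
  rw [Matrix.map_apply, Matrix.of_apply, Matrix.of_apply]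
  split_ifs
  · exact hmv _ _ _
  · exact hmv _ _ _

theorem pl_coeff (m : ℕ) (f : ℕ → B) (j : ℕ) :
    (pl m f).coeff j = if j < m then f j else 0 := by
  unfold pl
  rw [Polynomial.finsetSum_coeff]
  simp only [Polynomial.coeff_C_mul_X_pow]
  rw [Finset.sum_ite_eq]
  simp

theorem pl_degree_lt (m : ℕ) (f : ℕ → B) : (pl m f).degree < m := by
  rw [Polynomial.degree_lt_iff_coeff_zero]
  intro j hj
  rw [pl_coeff, if_neg (by omega)]

theorem pl_of_coeff {m : ℕ} {f : Polynomial B} (h : f.degree < m) :
    pl m (fun j => f.coeff j) = f := by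
  ext j
  rw [pl_coeff]
  split_ifs with hj
  · rfl
  · exact ((Polynomial.degree_lt_iff_coeff_zero f m).1 h j (by omega)).symm

theorem pl_map {B' : Type*} [CommRing B'] (φ : B →+* B') (m : ℕ) (f : ℕ → B) :
    (pl m f).map φ = pl m (fun j => φ (f j)) := by
  ext j
  rw [Polynomial.coeff_map, pl_coeff, pl_coeff]
  split_ifs
  · rfl
  · exact map_zero φ

private theorem P1_act_sum (X : Matrix (Fin n) (Fin n) B) {m : ℕ} {f : Polynomial B} (hf : f.degree < m)
    (e : Fin n → B) (i : Fin n) :
    act X f e i = ∑ j ∈ Finset.range m, ((X ^ j).mulVec e) i * f.coeff j := by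
  have h1 : f = ∑ j ∈ Finset.range m, Polynomial.C (f.coeff j) * Polynomial.X ^ j :=
    (pl_of_coeff hf).symm
  have h2 : ∀ j, act X (Polynomial.C (f.coeff j) * Polynomial.X ^ j) e =
      f.coeff j • (X ^ j).mulVec e := by
    intro j
    rw [act_mul, act_X_pow]
    unfold act
    rw [Polynomial.aeval_C, Algebra.algebraMap_eq_smul_one, Matrix.smul_mulVec, Matrix.one_mulVec]
  have h3 : act X f e = ∑ j ∈ Finset.range m, f.coeff j • (X ^ j).mulVec e := by
    conv_lhs => rw [h1]
    unfold act
    rw [map_sum, Matrix.sum_mulVec]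
    exact Finset.sum_congr rfl fun j _ => h2 j
  rw [h3, Finset.sum_apply]
  refine Finset.sum_congr rfl fun j _ => ?_
  rw [Pi.smul_apply, smul_eq_mul, mul_comm]

theorem act_cv {a b : ℕ} (hn : a + b = n) (X : Matrix (Fin n) (Fin n) B) (e e' : Fin n → B)
    {f h : Polynomial B} (hf : f.degree < a) (hh : h.degree < b) :
    act X f e + act X h e' = (Gm a X e e').mulVec (cv a f h) := by
  subst hn
  funext i
  rw [Pi.add_apply, P1_act_sum X hf, P1_act_sum X hh]
  show _ = ∑ j : Fin (a + b), Gm a X e e' i j * cv a f h j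
  rw [Fin.sum_univ_add, Finset.sum_range, Finset.sum_range]
  congr 1
  · refine Finset.sum_congr rfl fun j _ => ?_
    unfold Gm cv
    rw [Matrix.of_apply, if_pos (by simp), if_pos (by simp)]
    rfl
  · refine Finset.sum_congr rfl fun j _ => ?_
    unfold Gm cv
    rw [Matrix.of_apply, if_neg (by simp), if_neg (by simp)]
    simp

end Pool.Agent.LibRG7
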