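import Pool.Agent.LibRG7.P1

set_option autoImplicit false

/-! ROW P2 (MEDIUM, Mathlib + P1). Normal forms and the kernel of (F, H) -> F(X) e + H(X) e'.
 exists_nf: x = Gm * y with y = Gm⁻¹ x; f = sum_{j<a} y_j X^j, h = sum_{j<b} y_(a+j) X^j, act_cv.
 nf_unique: Gm * cv = 0 gives cv = 0 (injective, det is a unit), so all coefficients vanish.
 ker_mem: strong induction on m with F.degree < a + m, H.degree < b + m. m = 0: nf_unique. m+1: subtract P * (f X^m, g X^m) with
 f = F.coeff (a+m), g = H.coeff (b+m): F - c f X^m + p g X^m has degree < a + m (c monic of degree a, deg p < a), H + q f X^m - d g X^m has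
 degree < b + m. The relations c(X) e = q(X) e', d(X) e' = p(X) e keep the value 0. -/

namespace Pool.Agent.LibRG7

variable {B : Type*} [CommRing B] {n : ℕ}

theorem exists_nf {a b : ℕ} (hn : a + b = n) {X : Matrix (Fin n) (Fin n) B} {e e' : Fin n → B}
    (hG : IsUnit (Gm a X e e').det) (x : Fin n → B) : ∃ f h : Polynomial B,
    f.degree < a ∧ h.degree < b ∧ x = act X f e + act X h e' := by
  let y : Fin n → B := (Gm a X e e')⁻¹.mulVec x
  let y' : ℕ → B := fun j => if h : j < n then y ⟨j, h⟩ else 0
  have hy' : ∀ j : Fin n, y' (j : ℕ) = y j := fun j => dif_pos j.2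
  refine ⟨pl a y', pl b (fun j => y' (a + j)), pl_degree_lt _ _, pl_degree_lt _ _, ?_⟩
  rw [act_cv hn X e e' (pl_degree_lt _ _) (pl_degree_lt _ _)]
  have hcv : cv a (pl a y') (pl b (fun j => y' (a + j))) = y := by
    funext j
    unfold cv
    by_cases hj : (j : ℕ) < a
    · rw [if_pos hj, pl_coeff, if_pos hj, hy']
    · have h2 : (j : ℕ) - a < b := by have := j.2; omega
      have h3 : a + ((j : ℕ) - a) = (j : ℕ) := by omega
      rw [if_neg hj, pl_coeff, if_pos h2, h3, hy']
  rw [hcv]
  show x = (Gm a X e e').mulVec ((Gm a X e e')⁻¹.mulVec x)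
  rw [Matrix.mulVec_mulVec, Matrix.mul_nonsing_inv _ hG, Matrix.one_mulVec]

theorem nf_unique {a b : ℕ} (hn : a + b = n) {X : Matrix (Fin n) (Fin n) B} {e e' : Fin n → B}
    (hG : IsUnit (Gm a X e e').det) {f h : Polynomial B} (hf : f.degree < a) (hh : h.degree < b)
    (h0 : act X f e + act X h e' = 0) : f = 0 ∧ h = 0 := by
  rw [act_cv hn X e e' hf hh] at h0
  have hcv : cv (n := n) a f h = 0 := by
    have h1 := congrArg (Gm a X e e')⁻¹.mulVec h0
    rw [Matrix.mulVec_mulVec, Matrix.nonsing_inv_mul _ hG, Matrix.one_mulVec,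
      Matrix.mulVec_zero] at h1
    exact h1
  constructor
  · ext j
    rw [Polynomial.coeff_zero]
    by_cases hj : j < a
    · have h2 := congrFun hcv ⟨j, by omega⟩
      unfold cv at h2
      rw [if_pos hj] at h2
      exact h2
    · exact (Polynomial.degree_lt_iff_coeff_zero f a).mp hf j (by omega)
  · ext j
    rw [Polynomial.coeff_zero]
    by_cases hj : j < b
    · have h2 := congrFun hcv ⟨a + j, by omega⟩
      unfold cv at h2
      rw [if_neg (by simp)] at h2
      simpa using h2
    · exact (Polynomial.degree_lt_iff_coeff_zero h b).mp hh j (by omega)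

private theorem P2_ind {a b : ℕ} (hn : a + b = n) {X : Matrix (Fin n) (Fin n) B} {e e' : Fin n → B}
    (hG : IsUnit (Gm a X e e').det) {c d p q : Polynomial B}
    (hc : c.Monic) (hca : c.natDegree = a) (hd : d.Monic) (hdb : d.natDegree = b)
    (hp : p.degree < a) (hq : q.degree < b)
    (h1 : act X c e = act X q e') (h2 : act X d e' = act X p e) (m : ℕ) :
    ∀ F H : Polynomial B, (∀ j, a + m ≤ j → F.coeff j = 0) → (∀ j, b + m ≤ j → H.coeff j = 0) →
      act X F e + act X H e' = 0 →
      ∃ C1 C2 : Polynomial B, F = c * C1 - p * C2 ∧ H = d * C2 - q * C1 := by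
  induction m with
  | zero =>
    intro F H hF hH h0
    obtain ⟨hF0, hH0⟩ := nf_unique hn hG
      ((Polynomial.degree_lt_iff_coeff_zero F a).mpr fun j hj => hF j (by omega))
      ((Polynomial.degree_lt_iff_coeff_zero H b).mpr fun j hj => hH j (by omega)) h0
    exact ⟨0, 0, by rw [hF0]; ring, by rw [hH0]; ring⟩
  | succ m ih =>
    intro F H hF hH h0
    have hcc : c.coeff a = 1 := by rw [← hca]; exact hc
    have hdd : d.coeff b = 1 := by rw [← hdb]; exact hd
    have hpp : ∀ j, a ≤ j → p.coeff j = 0 := (Polynomial.degree_lt_iff_coeff_zero p a).mp hp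
    have hqq : ∀ j, b ≤ j → q.coeff j = 0 := (Polynomial.degree_lt_iff_coeff_zero q b).mp hq
    have hcj : ∀ j, a < j → c.coeff j = 0 := fun j hj =>
      Polynomial.coeff_eq_zero_of_natDegree_lt (by rw [hca]; exact hj)
    have hdj : ∀ j, b < j → d.coeff j = 0 := fun j hj =>
      Polynomial.coeff_eq_zero_of_natDegree_lt (by rw [hdb]; exact hj)
    have hco : ∀ (r : Polynomial B) (x : B) (j : ℕ), m ≤ j →
        (r * (Polynomial.C x * Polynomial.X ^ m)).coeff j = r.coeff (j - m) * x := by
      intro r x j hj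
      rw [← mul_assoc, Polynomial.coeff_mul_X_pow', if_pos hj, Polynomial.coeff_mul_C]
    obtain ⟨D1, D2, e1, e2⟩ := ih
      (F - c * (Polynomial.C (F.coeff (a + m)) * Polynomial.X ^ m)
        + p * (Polynomial.C (H.coeff (b + m)) * Polynomial.X ^ m))
      (H - d * (Polynomial.C (H.coeff (b + m)) * Polynomial.X ^ m)
        + q * (Polynomial.C (F.coeff (a + m)) * Polynomial.X ^ m))
      (fun j hj => by
        rw [Polynomial.coeff_add, Polynomial.coeff_sub, hco _ _ j (by omega),
          hco _ _ j (by omega), hpp _ (by omega)]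
        rcases Nat.eq_or_lt_of_le hj with h | h
        · rw [← h, Nat.add_sub_cancel, hcc]
          ring
        · rw [hF j (by omega), hcj _ (by omega)]
          ring)
      (fun j hj => by
        rw [Polynomial.coeff_add, Polynomial.coeff_sub, hco _ _ j (by omega),
          hco _ _ j (by omega), hqq _ (by omega)]
        rcases Nat.eq_or_lt_of_le hj with h | h
        · rw [← h, Nat.add_sub_cancel, hdd]
          ring
        · rw [hH j (by omega), hdj _ (by omega)]
          ring)
      (by
        rw [act_add_left, act_sub_left, act_add_left, act_sub_left,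
          mul_comm c, mul_comm p, mul_comm d, mul_comm q, act_mul X _ c, act_mul X _ p,
          act_mul X _ d, act_mul X _ q, h1, h2]
        calc _ = act X F e + act X H e' := by abel
          _ = 0 := h0)
    refine ⟨D1 + Polynomial.C (F.coeff (a + m)) * Polynomial.X ^ m,
      D2 + Polynomial.C (H.coeff (b + m)) * Polynomial.X ^ m, ?_, ?_⟩
    · linear_combination e1
    · linear_combination e2

theorem ker_mem {a b : ℕ} (hn : a + b = n) {X : Matrix (Fin n) (Fin n) B} {e e' : Fin n → B}
    (hG : IsUnit (Gm a X e e').det) {c d p q : Polynomial B}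
    (hc : c.Monic) (hca : c.natDegree = a) (hd : d.Monic) (hdb : d.natDegree = b)
    (hp : p.degree < a) (hq : q.degree < b)
    (h1 : act X c e = act X q e') (h2 : act X d e' = act X p e) {F H : Polynomial B}
    (h0 : act X F e + act X H e' = 0) :
    ∃ C1 C2 : Polynomial B, F = c * C1 - p * C2 ∧ H = d * C2 - q * C1 :=
  P2_ind hn hG hc hca hd hdb hp hq h1 h2 (F.natDegree + H.natDegree + 1) F H
    (fun j hj => Polynomial.coeff_eq_zero_of_natDegree_lt (by omega))
    (fun j hj => Polynomial.coeff_eq_zero_of_natDegree_lt (by omega)) h0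

end Pool.Agent.LibRG7
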