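import Pool.Agent.LibRG7.P1

set_option autoImplicit false

/-! ROW P3 (MEDIUM, Mathlib + P1). The companion matrix.
 gm_companion: G with unit determinant, column 0 = e, column a = e' (0 < b so that column a exists), X = G * Cm * G⁻¹. Then X * G = G * Cm.
 X * (column j) = column j+1 for j+1 /= a, j+1 /= n; so X^j e = column j (j < a), X^j e' = column (a+j) (j < b): Gm a X e e' = G.
 X^a e = X * (column a-1) = G * cv a (X^a - c) q = (X^a - c)(X) e + q(X) e' by act_cv (deg (X^a - c) < a: c monic of degree a), hence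
 c(X) e = q(X) e'; the same for X^b e' = p(X) e + (X^b - d)(X) e' (n - a = b). -/

namespace Pool.Agent.LibRG7

variable {B : Type*} [CommRing B] {n : ℕ}

private theorem P3_std (M : Matrix (Fin n) (Fin n) B) (a : ℕ) (c d p q : Polynomial B) (j : Fin n)
    (h1 : (j : ℕ) + 1 ≠ a) (h2 : (j : ℕ) + 1 < n) :
    M.mulVec (fun i => Cm a c d p q i j) = fun i => M i ⟨(j : ℕ) + 1, h2⟩ := by
  funext i
  change ∑ k, M i k * Cm a c d p q k j = _
  rw [Finset.sum_eq_single (⟨(j : ℕ) + 1, h2⟩ : Fin n)]
  · simp [Cm, h1, h2.ne]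
  · intro k _ hk
    have h3 : (k : ℕ) ≠ (j : ℕ) + 1 := fun h => hk (Fin.ext h)
    simp [Cm, h1, h2.ne, h3]
  · intro h
    exact absurd (Finset.mem_univ _) h

private theorem P3_a (M : Matrix (Fin n) (Fin n) B) (a : ℕ) (c d p q : Polynomial B) (j : Fin n)
    (h1 : (j : ℕ) + 1 = a) :
    M.mulVec (fun i => Cm a c d p q i j) = M.mulVec (cv a (Polynomial.X ^ a - c) q) := by
  have : (fun i => Cm a c d p q i j) = (cv a (Polynomial.X ^ a - c) q : Fin n → B) := by
    funext i
    simp [Cm, h1]
  rw [this]

private theorem P3_n (M : Matrix (Fin n) (Fin n) B) (a : ℕ) (c d p q : Polynomial B) (j : Fin n)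
    (h1 : (j : ℕ) + 1 ≠ a) (h2 : (j : ℕ) + 1 = n) :
    M.mulVec (fun i => Cm a c d p q i j) = M.mulVec (cv a p (Polynomial.X ^ (n - a) - d)) := by
  have : (fun i => Cm a c d p q i j) = (cv a p (Polynomial.X ^ (n - a) - d) : Fin n → B) := by
    funext i
    simp only [Cm, Matrix.of_apply]
    rw [if_neg h1, if_pos h2]
  rw [this]

private theorem P3_deg [Nontrivial B] {a : ℕ} {c : Polynomial B} (hc : c.Monic)
    (hca : c.natDegree = a) : (Polynomial.X ^ a - c).degree < (a : WithBot ℕ) := by
  have h1 : (Polynomial.X ^ a : Polynomial B).degree = a := Polynomial.degree_X_pow a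
  have h2 : c.degree = a := by rw [Polynomial.degree_eq_natDegree hc.ne_zero, hca]
  have h3 := Polynomial.degree_sub_lt_left (h1.trans h2.symm) (Polynomial.monic_X_pow a).ne_zero
    ((Polynomial.monic_X_pow a).leadingCoeff.trans hc.leadingCoeff.symm)
  rwa [h1] at h3

private theorem P3_pow (X : Matrix (Fin n) (Fin n) B) (j : ℕ) (v : Fin n → B) :
    X.mulVec ((X ^ j).mulVec v) = (X ^ (j + 1)).mulVec v := by
  rw [Matrix.mulVec_mulVec, ← pow_succ']

private theorem P3_lt (X : Matrix (Fin n) (Fin n) B) {a : ℕ} (e e' : Fin n → B) (j : Fin n)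
    (h : (j : ℕ) < a) : (fun i => Gm a X e e' i j) = (X ^ (j : ℕ)).mulVec e := by
  funext i
  simp [Gm, h]

private theorem P3_ge (X : Matrix (Fin n) (Fin n) B) {a : ℕ} (e e' : Fin n → B) (j : Fin n)
    (h : ¬ (j : ℕ) < a) : (fun i => Gm a X e e' i j) = (X ^ ((j : ℕ) - a)).mulVec e' := by
  funext i
  simp [Gm, h]

private theorem P3_nontriv {a : ℕ} (ha : 0 < a) {c : Polynomial B} (hca : c.natDegree = a) :
    Nontrivial B := by
  by_contra h
  rw [not_nontrivial_iff_subsingleton] at h
  have : c = 0 := Subsingleton.elim _ _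
  rw [this, Polynomial.natDegree_zero] at hca
  omega

theorem gm_companion {a b : ℕ} (hn : a + b = n) (ha : 0 < a) (hb : 0 < b)
    {c d p q : Polynomial B} (hc : c.Monic) (hca : c.natDegree = a) (hd : d.Monic)
    (hdb : d.natDegree = b) (hp : p.degree < a) (hq : q.degree < b)
    {G X : Matrix (Fin n) (Fin n) B} (hG : IsUnit G.det) {e e' : Fin n → B}
    (he : ∀ i j : Fin n, (j : ℕ) = 0 → G i j = e i)
    (he' : ∀ i j : Fin n, (j : ℕ) = a → G i j = e' i)
    (hX : X = G * Cm a c d p q * G⁻¹) :
    Gm a X e e' = G ∧ act X c e = act X q e' ∧ act X d e' = act X p e := by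
  haveI := P3_nontriv ha hca
  have hXG : X * G = G * Cm a c d p q := by
    rw [hX, Matrix.mul_assoc, Matrix.nonsing_inv_mul _ hG, Matrix.mul_one]
  have hcol : ∀ j : Fin n, X.mulVec (fun i => G i j) =
      G.mulVec (fun i => Cm a c d p q i j) := by
    intro j
    funext i
    exact congrFun (congrFun hXG i) j
  have hE : ∀ (j : ℕ) (hj : j < a), (X ^ j).mulVec e = fun i => G i ⟨j, by omega⟩ := by
    intro j
    induction j with
    | zero =>
      intro hj
      rw [pow_zero, Matrix.one_mulVec]
      funext i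
      exact (he i ⟨0, by omega⟩ rfl).symm
    | succ j ih =>
      intro hj
      rw [← P3_pow, ih (by omega), hcol,
        P3_std G a c d p q ⟨j, by omega⟩ (by simp only; omega) (by simp only; omega)]
  have hE' : ∀ (j : ℕ) (hj : j < b), (X ^ j).mulVec e' = fun i => G i ⟨a + j, by omega⟩ := by
    intro j
    induction j with
    | zero =>
      intro hj
      rw [pow_zero, Matrix.one_mulVec]
      funext i
      exact (he' i ⟨a + 0, by omega⟩ rfl).symm
    | succ j ih =>
      intro hj
      rw [← P3_pow, ih (by omega), hcol,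
        P3_std G a c d p q ⟨a + j, by omega⟩ (by simp only; omega) (by simp only; omega)]
      rfl
  have hGm : Gm a X e e' = G := by
    ext i j
    by_cases h : (j : ℕ) < a
    · have h1 := congrFun (P3_lt X e e' j h) i
      rw [hE _ h] at h1
      exact h1
    · have h1 := congrFun (P3_ge X e e' j h) i
      have hj := j.2
      rw [hE' ((j : ℕ) - a) (by omega)] at h1
      have h2 : (⟨a + ((j : ℕ) - a), by omega⟩ : Fin n) = j := Fin.ext (by simp only; omega)
      simp only [h2] at h1
      exact h1
  refine ⟨hGm, ?_, ?_⟩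
  · have h1 : act X (Polynomial.X ^ a) e = act X (Polynomial.X ^ a - c) e + act X q e' := by
      rw [act_cv hn X e e' (P3_deg hc hca) hq, hGm, act_X_pow]
      obtain ⟨m, rfl⟩ : ∃ m, a = m + 1 := ⟨a - 1, by omega⟩
      rw [← P3_pow, hE m (by omega), hcol]
      exact P3_a G (m + 1) c d p q ⟨m, by omega⟩ rfl
    rw [act_sub_left] at h1
    have h2 : act X (Polynomial.X ^ a) e = act X (Polynomial.X ^ a) e +
        (act X q e' - act X c e) := by
      rw [← add_sub_assoc, add_sub_right_comm]
      exact h1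
    rw [left_eq_add, sub_eq_zero] at h2
    exact h2.symm
  · have hna : n - a = b := by omega
    have h1 : act X (Polynomial.X ^ b) e' = act X p e + act X (Polynomial.X ^ b - d) e' := by
      rw [act_cv hn X e e' hp (P3_deg hd hdb), hGm, act_X_pow]
      obtain ⟨m, rfl⟩ : ∃ m, b = m + 1 := ⟨b - 1, by omega⟩
      rw [← P3_pow, hE' m (by omega), hcol]
      have := P3_n G a c d p q ⟨a + m, by omega⟩ (by simp only; omega) (by simp only; omega)
      rw [hna] at this
      exact this
    rw [act_sub_left] at h1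
    have h2 : act X (Polynomial.X ^ b) e' = act X (Polynomial.X ^ b) e' +
        (act X p e - act X d e') := by
      rw [← add_sub_assoc, add_comm (act X (Polynomial.X ^ b) e') (act X p e), add_sub_assoc]
      exact h1
    rw [left_eq_add, sub_eq_zero] at h2
    exact h2.symm

/-- conversely X Gm = Gm Cm if the relations hold -/
theorem companion_of_rel {a b : ℕ} (hn : a + b = n) (ha : 0 < a) (hb : 0 < b)
    {c d p q : Polynomial B} (hc : c.Monic) (hca : c.natDegree = a) (hd : d.Monic)
    (hdb : d.natDegree = b) (hp : p.degree < a) (hq : q.degree < b)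
    {X : Matrix (Fin n) (Fin n) B} {e e' : Fin n → B} (hG : IsUnit (Gm a X e e').det)
    (h1 : act X c e = act X q e') (h2 : act X d e' = act X p e) :
    Gm a X e e' * Cm a c d p q * (Gm a X e e')⁻¹ = X := by
  haveI := P3_nontriv ha hca
  have hna : n - a = b := by omega
  have key : Gm a X e e' * Cm a c d p q = X * Gm a X e e' := by
    ext i j
    change (Gm a X e e').mulVec (fun i => Cm a c d p q i j) i =
      X.mulVec (fun i => Gm a X e e' i j) i
    refine congrFun ?_ i
    have hj := j.2
    by_cases hja : (j : ℕ) + 1 = a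
    · rw [P3_a _ a c d p q j hja, ← act_cv hn X e e' (P3_deg hc hca) hq, act_sub_left, h1,
        sub_add_cancel, act_X_pow, P3_lt X e e' j (by omega), P3_pow, hja]
    · by_cases hjn : (j : ℕ) + 1 = n
      · rw [P3_n _ a c d p q j hja hjn, hna, ← act_cv hn X e e' hp (P3_deg hd hdb), act_sub_left,
          h2, add_sub_cancel, act_X_pow, P3_ge X e e' j (by omega), P3_pow]
        congr 2
        omega
      · rw [P3_std _ a c d p q j hja (by omega)]
        by_cases hlt : (j : ℕ) < a
        · rw [P3_lt X e e' j hlt, P3_pow, P3_lt X e e' ⟨(j : ℕ) + 1, by omega⟩ (by simp only; omega)]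
        · rw [P3_ge X e e' j hlt, P3_pow, P3_ge X e e' ⟨(j : ℕ) + 1, by omega⟩ (by simp only; omega)]
          congr 2
          simp only
          omega
  rw [key, Matrix.mul_assoc, Matrix.mul_nonsing_inv _ hG, Matrix.mul_one]

end Pool.Agent.LibRG7
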