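import Pool.Agent.LibRG7.P2

set_option autoImplicit false

/-! ROW P4 (MEDIUM, Mathlib + P1, P2). Commuting matrices from the relations.
 Y = Gm a X y1 y2 * (Gm a X e e')⁻¹, so Y (X^j e) = X^j y1 for j < a, Y (X^j e') = X^j y2 for j < b; hence Y (f(X) e) = f(X) y1 for deg f < a,
 Y (h(X) e') = h(X) y2 for deg h < b (act_cv twice). Y X = X Y on every column: for j+1 < a and a <= j, j+1 < n clear; for j = a-1:
 X^a e = (X^a - c)(X) e + q(X) e' so Y X^a e = (X^a - c)(X) y1 + q(X) y2 = X^a y1 = X Y X^(a-1) e because c(X) y1 = q(X) y2; the same for e'.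
 Two matrices that agree on the columns of the invertible Gm a X e e' are equal.
 rel_of_w: pure computation with act (see the page, Block 3): c y1 - q y2 = (ta p - ep c - q ga)(X) e where ep = de - om, and
 d (ta p - ep c - q ga) = (be c - q om) p - (be p - q si) c - q (c si - p om) = 0, d monic (Polynomial.Monic is not a zero divisor);
 d y2 - p y1 = si (c e - q e') = 0. -/

namespace Pool.Agent.LibRG7

variable {B : Type*} [CommRing B] {n : ℕ}

private theorem P4_key {a b : ℕ} (hn : a + b = n)
    {X : Matrix (Fin n) (Fin n) B} {e e' : Fin n → B}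
    (hG : IsUnit (Gm a X e e').det) {y1 y2 : Fin n → B}
    {Y : Matrix (Fin n) (Fin n) B} (hY : Y = Gm a X y1 y2 * (Gm a X e e')⁻¹)
    {f h : Polynomial B} (hf : f.degree < a) (hh : h.degree < b) :
    Y.mulVec (act X f e + act X h e') = act X f y1 + act X h y2 := by
  rw [act_cv hn X e e' hf hh, act_cv hn X y1 y2 hf hh, Matrix.mulVec_mulVec, hY,
    Matrix.nonsing_inv_mul_cancel_right _ _ hG]

/-- division of X * f by a monic polynomial whose degree exceeds that of f -/
private theorem P4_div {a : ℕ} {c f : Polynomial B} (hc : c.Monic) (hca : c.natDegree = a)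
    (hf : f.degree < a) : ∃ (r : Polynomial B) (s : B), r.degree < a ∧
    Polynomial.X * f = r + Polynomial.C s * c := by
  nontriviality B
  have hcd : c.degree = a := by
    rw [Polynomial.degree_eq_natDegree hc.ne_zero, hca]
  refine ⟨(Polynomial.X * f) %ₘ c, ((Polynomial.X * f) /ₘ c).coeff 0, ?_, ?_⟩
  · have h := Polynomial.degree_modByMonic_lt (Polynomial.X * f) hc
    rwa [hcd] at h
  · have h0 : ((Polynomial.X * f) /ₘ c).natDegree = 0 := by
      rw [Polynomial.natDegree_divByMonic _ hc, hca]
      have h1 : (Polynomial.X * f).natDegree ≤ a := by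
        by_cases hf0 : f = 0
        · simp [hf0]
        · have h2 : f.natDegree < a := by
            rwa [Polynomial.degree_eq_natDegree hf0, Nat.cast_lt] at hf
          have h3 := Polynomial.natDegree_mul_le (p := (Polynomial.X : Polynomial B)) (q := f)
          rw [Polynomial.natDegree_X] at h3
          omega
      omega
    have h4 := Polynomial.eq_C_of_natDegree_eq_zero h0
    rw [← h4, mul_comm _ c]
    exact (Polynomial.modByMonic_add_div (Polynomial.X * f) c).symm

theorem comm_of_rel {a b : ℕ} (hn : a + b = n) (ha : 0 < a) (hb : 0 < b)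
    {X : Matrix (Fin n) (Fin n) B} {e e' : Fin n → B}
    (hG : IsUnit (Gm a X e e').det) {c d p q : Polynomial B}
    (hc : c.Monic) (hca : c.natDegree = a) (hd : d.Monic) (hdb : d.natDegree = b)
    (hp : p.degree < a) (hq : q.degree < b)
    (h1 : act X c e = act X q e') (h2 : act X d e' = act X p e) {y1 y2 : Fin n → B}
    (r1 : act X c y1 = act X q y2) (r2 : act X d y2 = act X p y1)
    {Y : Matrix (Fin n) (Fin n) B} (hY : Y = Gm a X y1 y2 * (Gm a X e e')⁻¹) :
    X * Y = Y * X ∧ Y.mulVec e = y1 ∧ Y.mulVec e' = y2 := by
  have hXact : ∀ (f : Polynomial B) (v : Fin n → B),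
      X.mulVec (act X f v) = act X (Polynomial.X * f) v := by
    intro f v
    have h := act_mul X Polynomial.X f v
    have h' := act_X_pow X 1 (act X f v)
    rw [pow_one, pow_one] at h'
    rw [h, h']
  have hzero : ∀ m : ℕ, (0 : Polynomial B).degree < m := by
    intro m
    rw [Polynomial.degree_zero]
    exact WithBot.bot_lt_coe m
  have hone : ∀ m : ℕ, 0 < m → (1 : Polynomial B).degree < m := by
    intro m hm
    refine lt_of_le_of_lt Polynomial.degree_one_le ?_
    exact_mod_cast hm
  refine ⟨?_, ?_, ?_⟩
  · have hvec : ∀ x : Fin n → B, (X * Y).mulVec x = (Y * X).mulVec x := by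
      intro x
      obtain ⟨f, h, hf, hh, hx⟩ := exists_nf hn hG x
      obtain ⟨f0, s, hf0, hfs⟩ := P4_div hc hca hf
      obtain ⟨h0, t, hh0, hht⟩ := P4_div hd hdb hh
      have hl : (X * Y).mulVec x = act X (Polynomial.X * f) y1 + act X (Polynomial.X * h) y2 := by
        rw [← Matrix.mulVec_mulVec, hx, P4_key hn hG hY hf hh, Matrix.mulVec_add, hXact, hXact]
      have hXx : X.mulVec x = act X (f0 + Polynomial.C t * p) e
          + act X (h0 + Polynomial.C s * q) e' := by
        rw [hx, Matrix.mulVec_add, hXact, hXact, hfs, hht, act_add_left, act_add_left,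
          act_add_left, act_add_left, act_mul X (Polynomial.C s) c e,
          act_mul X (Polynomial.C t) d e', h1, h2, act_mul X (Polynomial.C s) q e',
          act_mul X (Polynomial.C t) p e]
        abel
      have hdeg1 : (f0 + Polynomial.C t * p).degree < a := by
        refine lt_of_le_of_lt (Polynomial.degree_add_le _ _) (max_lt hf0 ?_)
        rw [← Polynomial.smul_eq_C_mul]
        exact lt_of_le_of_lt (Polynomial.degree_smul_le t p) hp
      have hdeg2 : (h0 + Polynomial.C s * q).degree < b := by
        refine lt_of_le_of_lt (Polynomial.degree_add_le _ _) (max_lt hh0 ?_)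
        rw [← Polynomial.smul_eq_C_mul]
        exact lt_of_le_of_lt (Polynomial.degree_smul_le s q) hq
      rw [hl, ← Matrix.mulVec_mulVec, hXx, P4_key hn hG hY hdeg1 hdeg2, hfs, hht, act_add_left,
        act_add_left, act_add_left, act_add_left, act_mul X (Polynomial.C s) c y1,
        act_mul X (Polynomial.C t) d y2, r1, r2, act_mul X (Polynomial.C s) q y2,
        act_mul X (Polynomial.C t) p y1]
      abel
    apply Matrix.ext_of_mulVec_single
    intro i
    exact hvec _
  · have h := P4_key hn hG hY (hone a ha) (hzero b)
    rwa [act_one, act_zero_left, add_zero, act_one, act_zero_left, add_zero] at h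
  · have h := P4_key hn hG hY (hzero a) (hone b hb)
    rwa [act_one, act_zero_left, zero_add, act_one, act_zero_left, zero_add] at h

theorem rel_of_w {X : Matrix (Fin n) (Fin n) B} {e e' : Fin n → B} {c d p q : Polynomial B}
    (hd : d.Monic) (h1 : act X c e = act X q e') (h2 : act X d e' = act X p e)
    {al be om si ga de ta : Polynomial B} (hga : d * ga = c * si - p * om)
    (hde : d * (de - om) = be * p - q * si) (hta : d * ta = be * c - q * om) :
    act X c (act X al e + act X be e') = act X q (act X al e' + act X ga e + act X de e') ∧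
    act X d (act X al e' + act X ga e + act X de e') = act X p (act X al e + act X be e') := by
  have k1 : ∀ g : Polynomial B, act X (g * c) e = act X (g * q) e' := by
    intro g
    rw [act_mul, h1, ← act_mul]
  have k2 : ∀ g : Polynomial B, act X (g * d) e' = act X (g * p) e := by
    intro g
    rw [act_mul, h2, ← act_mul]
  have hT : ta * p = (de - om) * c + q * ga := by
    have h0 : d * (ta * p - ((de - om) * c + q * ga)) = 0 := by
      have e1 : d * (ta * p - ((de - om) * c + q * ga))
          = (d * ta) * p - (d * (de - om)) * c - q * (d * ga) := by ring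
      rw [e1, hga, hde, hta]
      ring
    have h3 := (hd.mul_right_eq_zero_iff).mp h0
    exact sub_eq_zero.mp h3
  constructor
  · rw [act_add_right, act_add_right, act_add_right, ← act_mul, ← act_mul, ← act_mul, ← act_mul,
      ← act_mul]
    have e1 : c * be = ta * d + q * om := by
      have e2 : ta * d = be * c - q * om := by rw [mul_comm, hta]
      rw [e2]
      ring
    have e3 : q * de = (de - om) * q + q * om := by ring
    rw [e1, e3, act_add_left, act_add_left, k2 ta, hT, act_add_left, k1, mul_comm c al, k1,
      mul_comm al q]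
    abel
  · rw [act_add_right, act_add_right, act_add_right, ← act_mul, ← act_mul, ← act_mul, ← act_mul,
      ← act_mul]
    have e1 : d * ga = si * c - om * p := by
      rw [hga]
      ring
    have e2 : d * de = om * d + p * be - si * q := by
      have e3 : d * de = d * (de - om) + om * d := by ring
      rw [e3, hde]
      ring
    rw [e1, e2, act_sub_left, act_sub_left, act_add_left, k1 si, k2 om, mul_comm d al, k2 al,
      mul_comm al p]
    abel

end Pool.Agent.LibRG7
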