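import Pool.Agent.LibRG7.P2

set_option autoImplicit false

/-! ROW P5 (MEDIUM/STRONG, Mathlib + P1, P2). The coordinates w = (be, om, si) of a matrix Y commuting with X.
 Write Y e = al(X) e + be(X) e' (exists_nf), Y e' - al(X) e' = ga0(X) e + de0(X) e' (deg ga0 < a, de0 < b). y1' := be e', y2' := ga0 e + de0 e' satisfy
 c y1' = q y2', d y2' = p y1' (apply Y to c(X) e = q(X) e', d(X) e' = p(X) e with act_comm; the al-parts cancel). So
 (-q ga0) e + (c be - q de0) e' = 0 and (d ga0) e + (d de0 - p be) e' = 0: ker_mem gives b11, b21 and si0, om0 with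
 -q ga0 = c b11 - p b21, c be - q de0 = d b21 - q b11, d ga0 = c si0 - p om0, d de0 - p be = d om0 - q si0.
 TRACE: (c d - p q)(b11 + om0 - de0) = 0 [d * first + p * second = (cd - pq) b11; c * fourth + q * third = (cd - pq) om0; sum = (cd - pq) de0],
 c d - p q is monic (degree a + b > degree of p q), so b11 = de0 - om0 and d b21 = be c - q om0.
 REDUCE: om := om0 %ₘ d, si := si0 %ₘ d, om0 = om + d o', si0 = si + d s', ga := ga0 - c s' + p o', de := de0 - d o' + q s', ta := b21 + q o'.
 Then ga e + de e' = ga0 e + de0 e' (relations), d ga = c si - p om, d (de - om) = be p - q si, d ta = be c - q om. -/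

namespace Pool.Agent.LibRG7

variable {B : Type*} [CommRing B] {n : ℕ}

private lemma P5_act_neg (X : Matrix (Fin n) (Fin n) B) (f : Polynomial B) (v : Fin n → B) :
    act X (-f) v = -act X f v := by
  have h := act_sub_left X 0 f v
  rw [act_zero_left, zero_sub, zero_sub] at h
  exact h

private lemma P5_degree_lt [Nontrivial B] {b : ℕ} {d : Polynomial B} (hd : d.Monic)
    (hdb : d.natDegree = b) (f : Polynomial B) : (f %ₘ d).degree < b := by
  have h1 := Polynomial.degree_modByMonic_lt f hd
  rwa [Polynomial.degree_eq_natDegree hd.ne_zero, hdb] at h1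

private lemma P5_monic [Nontrivial B] {a b : ℕ} {c d p q : Polynomial B}
    (hc : c.Monic) (hca : c.natDegree = a) (hd : d.Monic) (hdb : d.natDegree = b)
    (hp : p.degree < a) (hq : q.degree < b) : (c * d - p * q).Monic := by
  refine (hc.mul hd).sub_of_left ?_
  have h1 : (c * d).degree = ((a + b : ℕ) : WithBot ℕ) := by
    rw [Polynomial.degree_eq_natDegree (hc.mul hd).ne_zero, hc.natDegree_mul hd, hca, hdb]
  rw [h1]
  by_cases hp0 : p = 0
  · rw [hp0, zero_mul, Polynomial.degree_zero]
    exact WithBot.bot_lt_coe _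
  · by_cases hq0 : q = 0
    · rw [hq0, mul_zero, Polynomial.degree_zero]
      exact WithBot.bot_lt_coe _
    · refine lt_of_le_of_lt (Polynomial.degree_mul_le p q) ?_
      rw [Polynomial.degree_eq_natDegree hp0] at hp ⊢
      rw [Polynomial.degree_eq_natDegree hq0] at hq ⊢
      have hp' : p.natDegree < a := by exact_mod_cast hp
      have hq' : q.natDegree < b := by exact_mod_cast hq
      exact_mod_cast Nat.add_lt_add hp' hq'

theorem exists_w {a b : ℕ} (hn : a + b = n) (ha : 0 < a) (hb : 0 < b)
    {X Y : Matrix (Fin n) (Fin n) B} (hXY : X * Y = Y * X) {e e' : Fin n → B}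
    (hG : IsUnit (Gm a X e e').det) {c d p q : Polynomial B}
    (hc : c.Monic) (hca : c.natDegree = a) (hd : d.Monic) (hdb : d.natDegree = b)
    (hp : p.degree < a) (hq : q.degree < b)
    (h1 : act X c e = act X q e') (h2 : act X d e' = act X p e) :
    ∃ al be om si ga de ta : Polynomial B,
      al.degree < a ∧ be.degree < b ∧ om.degree < b ∧ si.degree < b ∧
      d * ga = c * si - p * om ∧ d * (de - om) = be * p - q * si ∧ d * ta = be * c - q * om ∧
      Y.mulVec e = act X al e + act X be e' ∧
      Y.mulVec e' = act X al e' + act X ga e + act X de e' := by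
  rcases subsingleton_or_nontrivial B with hB | hB
  · refine ⟨0, 0, 0, 0, 0, 0, 0, ?_, ?_, ?_, ?_, Subsingleton.elim _ _, Subsingleton.elim _ _,
      Subsingleton.elim _ _, Subsingleton.elim _ _, Subsingleton.elim _ _⟩ <;>
    · rw [Polynomial.degree_zero]; exact WithBot.bot_lt_coe _
  · obtain ⟨al, be, hal, hbe, hYe⟩ := exists_nf hn hG (Y.mulVec e)
    obtain ⟨ga0, de0, hga0, hde0, hz⟩ := exists_nf hn hG (Y.mulVec e' - act X al e')
    have hYe' : Y.mulVec e' = act X al e' + act X ga0 e + act X de0 e' := by
      rw [sub_eq_iff_eq_add] at hz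
      rw [hz]; abel
    have k1 : act X (-(q * ga0)) e + act X (c * be - q * de0) e' = 0 := by
      have h3 : act X c (Y.mulVec e) = act X q (Y.mulVec e') := by
        rw [← act_comm hXY, ← act_comm hXY, h1]
      rw [hYe, hYe', act_add_right, act_add_right, act_add_right, ← act_mul, ← act_mul,
        ← act_mul, ← act_mul, ← act_mul, mul_comm c al, act_mul X al c e, h1, ← act_mul,
        mul_comm al q, add_assoc, add_right_inj] at h3
      rw [P5_act_neg, act_sub_left, h3]
      abel
    have k2 : act X (d * ga0) e + act X (d * de0 - p * be) e' = 0 := by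
      have h3 : act X d (Y.mulVec e') = act X p (Y.mulVec e) := by
        rw [← act_comm hXY, ← act_comm hXY, h2]
      rw [hYe, hYe', act_add_right, act_add_right, act_add_right, ← act_mul, ← act_mul,
        ← act_mul, ← act_mul, ← act_mul, mul_comm d al, act_mul X al d e', h2, ← act_mul,
        mul_comm al p, add_assoc, add_right_inj] at h3
      rw [act_sub_left, ← h3]
      abel
    obtain ⟨b11, b21, e1, e2⟩ := ker_mem hn hG hc hca hd hdb hp hq h1 h2 k1
    obtain ⟨si0, om0, e3, e4⟩ := ker_mem hn hG hc hca hd hdb hp hq h1 h2 k2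
    have ht : (c * d - p * q) * (b11 + om0 - de0) = 0 := by
      linear_combination (-d) * e1 + (-p) * e2 + (-q) * e3 + (-c) * e4
    have ht' : b11 + om0 - de0 = 0 :=
      ((P5_monic hc hca hd hdb hp hq).mul_right_eq_zero_iff).1 ht
    have hb21 : d * b21 = be * c - q * om0 := by
      linear_combination (-1 : Polynomial B) * e2 + q * ht'
    have ho := Polynomial.modByMonic_add_div om0 d
    have hs := Polynomial.modByMonic_add_div si0 d
    refine ⟨al, be, om0 %ₘ d, si0 %ₘ d, ga0 - c * (si0 /ₘ d) + p * (om0 /ₘ d),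
      de0 - d * (om0 /ₘ d) + q * (si0 /ₘ d), b21 + q * (om0 /ₘ d), hal, hbe,
      P5_degree_lt hd hdb _, P5_degree_lt hd hdb _, ?_, ?_, ?_, hYe, ?_⟩
    · linear_combination e3 + (-c) * hs + p * ho
    · linear_combination e4 + q * hs + (-d) * ho
    · linear_combination hb21 + q * ho
    · have r1 : act X (c * (si0 /ₘ d)) e = act X (q * (si0 /ₘ d)) e' := by
        rw [mul_comm c, act_mul, h1, ← act_mul, mul_comm q]
      have r2 : act X (p * (om0 /ₘ d)) e = act X (d * (om0 /ₘ d)) e' := by
        rw [mul_comm p, act_mul, ← h2, ← act_mul, mul_comm d]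
      rw [hYe', act_add_left, act_add_left, act_sub_left, act_sub_left, r1, r2]
      abel

end Pool.Agent.LibRG7
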