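import Pool.Agent.LibRG7.P3
import Pool.Agent.LibRG7.P4
import Pool.Agent.LibRG7.P5

set_option autoImplicit false

/-! ROW P6 (MEDIUM, Mathlib + P1..P5). RECON and EXTRACT. (B trivial: everything is Subsingleton; otherwise Nontrivial B.)
 Degrees: dP monic of degree b; uP, wP of degree < b; cP monic of degree a (b <= a: dP * (X^(a-b) + lower) + lower), pP of degree < a, qP < b.
 recon: gm_companion (columns 0 and a of D.G are e, e'), then comm_of_rel with y1, y2 and rel_of_w with be = wP 0, om = wP 1, si = wP 2,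
 ga = gaP, de = deP, ta = (be c - q om) /ₘ d. Divisibility from Rel: cP = uP 1 + dP * (..), pP = uP 2 + dP * (..), qP = uP 0, so
 c si - p om = (uP 1 wP 2 - uP 2 wP 1) + dP * (..) etc.; f %ₘ d = 0 => d * (f /ₘ d) = f.
 extract: f, q from exists_nf of X^a e: X^a e = f e + q e', c := X^a - f; X^b e' = p e + g e', d := X^b - g; exists_w; then
 D := g = entries of Gm, d j = d.coeff j, u 0 = coeffs of q, u 1 = coeffs of c %ₘ d, u 2 = coeffs of p %ₘ d, w = coeffs of be, om, si, al,
 c1 = coeffs of c /ₘ d, p1 = coeffs of p /ₘ d (c /ₘ d is monic of degree a - b). Then dP = d, cP = c, pP = p, qP = q, gaP = ga, deP = de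
 (d * ga /ₘ d), D.G = Gm, D.Xm = X (companion_of_rel), y1 = Y e, y2 = Y e', Ym = Y (Y X^j e = X^j Y e; Gm a X (Y e) (Y e') = Y * Gm a X e e'). -/

namespace Pool.Agent.LibRG7

variable {B : Type*} [CommRing B] {n b : ℕ}

/-! ### Auxiliary lemmas -/

private theorem P6_pl_deg (m : ℕ) (f : ℕ → B) : (pl m f).degree < (m : WithBot ℕ) := pl_degree_lt m f

private theorem P6_nd [Nontrivial B] {m : ℕ} {f : Polynomial B} (h : f.degree < (m : WithBot ℕ)) :
    (Polynomial.X ^ m + f).natDegree = m := by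
  apply Polynomial.natDegree_eq_of_degree_eq_some
  rw [Polynomial.degree_add_eq_left_of_degree_lt (by rw [Polynomial.degree_X_pow]; exact h),
    Polynomial.degree_X_pow]

private theorem P6_monic_pl [Nontrivial B] (m : ℕ) (f : ℕ → B) :
    (Polynomial.X ^ m + pl m f).Monic ∧ (Polynomial.X ^ m + pl m f).natDegree = m := by
  have h := P6_pl_deg m f
  exact ⟨Polynomial.monic_X_pow_add h, P6_nd h⟩

theorem dP_monic [Nontrivial B] (D : Dat n b B) : D.dP.Monic ∧ D.dP.natDegree = b := by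
  have h : (∑ j : Fin b, Polynomial.C (D.d j) * Polynomial.X ^ (j : ℕ)).degree < (b : WithBot ℕ) :=
    Polynomial.degree_sum_fin_lt _
  exact ⟨Polynomial.monic_X_pow_add h, P6_nd h⟩

private theorem P6_degree [Nontrivial B] {f : Polynomial B} {m : ℕ} (h : f.Monic)
    (h2 : f.natDegree = m) : f.degree = (m : WithBot ℕ) := by
  rw [Polynomial.degree_eq_natDegree h.ne_zero, h2]

private theorem P6_cP [Nontrivial B] {a : ℕ} (hba : b ≤ a) (D : Dat n b B) :
    (D.cP a).Monic ∧ (D.cP a).natDegree = a := by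
  obtain ⟨h1, h2⟩ := dP_monic D
  obtain ⟨h3, h4⟩ := P6_monic_pl (a - b) D.c1
  have h5 : (D.dP * (Polynomial.X ^ (a - b) + pl (a - b) D.c1)).Monic := h1.mul h3
  have h6 : (D.dP * (Polynomial.X ^ (a - b) + pl (a - b) D.c1)).natDegree = a := by
    rw [h1.natDegree_mul h3, h2, h4]
    omega
  have h7 : (D.uP 1).degree <
      (D.dP * (Polynomial.X ^ (a - b) + pl (a - b) D.c1)).degree := by
    rw [P6_degree h5 h6]
    refine lt_of_lt_of_le (P6_pl_deg b (D.u 1)) ?_
    exact_mod_cast hba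
  refine ⟨h5.add_of_left h7, ?_⟩
  apply Polynomial.natDegree_eq_of_degree_eq_some
  unfold Dat.cP
  rw [Polynomial.degree_add_eq_left_of_degree_lt h7, P6_degree h5 h6]

private theorem P6_pP [Nontrivial B] {a : ℕ} (hba : b ≤ a) (D : Dat n b B) :
    (D.pP a).degree < (a : WithBot ℕ) := by
  obtain ⟨h1, h2⟩ := dP_monic D
  unfold Dat.pP
  refine lt_of_le_of_lt (Polynomial.degree_add_le _ _) (max_lt ?_ ?_)
  · refine lt_of_le_of_lt (Polynomial.degree_mul_le _ _) ?_
    rw [P6_degree h1 h2]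
    have h3 := P6_pl_deg (a - b) D.p1
    have h4 : (a : WithBot ℕ) = (b : WithBot ℕ) + ((a - b : ℕ) : WithBot ℕ) := by
      rw [← Nat.cast_add]
      congr 1
      omega
    rw [h4]
    exact WithBot.add_lt_add_left (by simp) h3
  · refine lt_of_lt_of_le (P6_pl_deg b (D.u 2)) ?_
    exact_mod_cast hba

private theorem P6_div {d f : Polynomial B} (h : f %ₘ d = 0) :
    d * (f /ₘ d) = f := by
  have := Polynomial.modByMonic_add_div f d
  rw [h, zero_add] at this
  exact this

private theorem P6_dvd {d f : Polynomial B} (hd : d.Monic) (h : d ∣ f) :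
    d * (f /ₘ d) = f := P6_div ((Polynomial.modByMonic_eq_zero_iff_dvd hd).mpr h)

theorem recon {a : ℕ} (hn : a + b = n) (hb : 0 < b) (hba : b ≤ a) (D : Dat n b B) (hR : D.Rel)
    (e e' : Fin n → B) (hG : IsUnit (D.G a e e').det) :
    D.Xm a e e' * D.Ym a e e' = D.Ym a e e' * D.Xm a e e' ∧
      Gm a (D.Xm a e e') e e' = D.G a e e' := by
  rcases subsingleton_or_nontrivial B with hB | hB
  · exact ⟨Subsingleton.elim _ _, Subsingleton.elim _ _⟩
  have ha : 0 < a := lt_of_lt_of_le hb hba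
  obtain ⟨hd, hdb⟩ := dP_monic D
  obtain ⟨hc, hca⟩ := P6_cP hba D
  have hp := P6_pP hba D
  have hq : D.qP.degree < (b : WithBot ℕ) := P6_pl_deg b (D.u 0)
  obtain ⟨g1, g2, g3⟩ := gm_companion hn ha hb hc hca hd hdb hp hq hG (e := e) (e' := e')
    (by
      intro i j hj
      simp only [Dat.G, Matrix.of_apply, hj, if_true])
    (by
      intro i j hj
      have : (j : ℕ) ≠ 0 := by omega
      simp only [Dat.G, Matrix.of_apply, if_neg this, if_pos hj]) (X := D.Xm a e e') rfl
  have hdvd : ∀ s t : Fin 3, D.dP ∣ D.uP s * D.wP t - D.uP t * D.wP s := fun s t =>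
    (Polynomial.modByMonic_eq_zero_iff_dvd hd).mp (hR s t)
  have hga : D.dP * D.gaP a = D.cP a * D.wP 2 - D.pP a * D.wP 1 := by
    apply P6_dvd hd
    have e1 : D.cP a * D.wP 2 - D.pP a * D.wP 1 =
        D.dP * ((Polynomial.X ^ (a - b) + pl (a - b) D.c1) * D.wP 2 -
          pl (a - b) D.p1 * D.wP 1) + (D.uP 1 * D.wP 2 - D.uP 2 * D.wP 1) := by
      unfold Dat.cP Dat.pP
      ring
    rw [e1]
    exact dvd_add (dvd_mul_right _ _) (hdvd 1 2)
  have hde : D.dP * (D.deP a - D.wP 1) = D.wP 0 * D.pP a - D.qP * D.wP 2 := by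
    have e0 : D.deP a - D.wP 1 = (D.wP 0 * D.pP a - D.qP * D.wP 2) /ₘ D.dP := by
      unfold Dat.deP
      ring
    rw [e0]
    apply P6_dvd hd
    have e1 : D.wP 0 * D.pP a - D.qP * D.wP 2 =
        D.dP * (pl (a - b) D.p1 * D.wP 0) + (D.uP 2 * D.wP 0 - D.uP 0 * D.wP 2) := by
      unfold Dat.qP Dat.pP
      ring
    rw [e1]
    exact dvd_add (dvd_mul_right _ _) (hdvd 2 0)
  have hta : D.dP * ((D.wP 0 * D.cP a - D.qP * D.wP 1) /ₘ D.dP) =
      D.wP 0 * D.cP a - D.qP * D.wP 1 := by
    apply P6_dvd hd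
    have e1 : D.wP 0 * D.cP a - D.qP * D.wP 1 =
        D.dP * ((Polynomial.X ^ (a - b) + pl (a - b) D.c1) * D.wP 0) +
          (D.uP 1 * D.wP 0 - D.uP 0 * D.wP 1) := by
      unfold Dat.qP Dat.cP
      ring
    rw [e1]
    exact dvd_add (dvd_mul_right _ _) (hdvd 1 0)
  obtain ⟨r1, r2⟩ := rel_of_w hd g2 g3 (al := D.alP a) (be := D.wP 0) (om := D.wP 1)
    (si := D.wP 2) (ga := D.gaP a) (de := D.deP a) (ta := (D.wP 0 * D.cP a - D.qP * D.wP 1) /ₘ D.dP)
    hga hde hta
  have hG' : IsUnit (Gm a (D.Xm a e e') e e').det := by rw [g1]; exact hG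
  have key := comm_of_rel hn ha hb hG' hc hca hd hdb hp hq g2 g3 (y1 := D.y1 a e e')
    (y2 := D.y2 a e e') r1 r2 (Y := D.Ym a e e') (by rw [g1]; rfl)
  exact ⟨key.1, g1⟩

private theorem P6_dvd_sub {d x y : Polynomial B} (h : d ∣ x) (h2 : d ∣ y - x) : d ∣ y := by
  have := dvd_add h h2
  rwa [add_sub_cancel] at this

theorem extract {a : ℕ} (hn : a + b = n) (hb : 0 < b) (hba : b ≤ a)
    {X Y : Matrix (Fin n) (Fin n) B} (hXY : X * Y = Y * X) (e e' : Fin n → B)
    (hG : IsUnit (Gm a X e e').det) :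
    ∃ D : Dat n b B, D.Rel ∧ D.G a e e' = Gm a X e e' ∧ D.Xm a e e' = X ∧
      D.Ym a e e' = Y := by
  rcases subsingleton_or_nontrivial B with hB | hB
  · refine ⟨⟨fun _ _ => 0, fun _ => 0, fun _ _ => 0, fun _ _ => 0, fun _ => 0, fun _ => 0,
      fun _ => 0⟩, ?_, ?_, ?_, ?_⟩
    · intro s t; exact Subsingleton.elim _ _
    · exact Subsingleton.elim _ _
    · exact Subsingleton.elim _ _
    · exact Subsingleton.elim _ _
  have ha : 0 < a := lt_of_lt_of_le hb hba
  obtain ⟨f, q, hf, hq, h1⟩ := exists_nf hn hG ((X ^ a).mulVec e)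
  obtain ⟨p, g, hp, hg, h2⟩ := exists_nf hn hG ((X ^ b).mulVec e')
  -- the monic polynomials
  have hc : (Polynomial.X ^ a - f : Polynomial B).Monic := Polynomial.monic_X_pow_sub hf
  have hca : (Polynomial.X ^ a - f : Polynomial B).natDegree = a := by
    rw [sub_eq_add_neg]
    exact P6_nd (by rw [Polynomial.degree_neg]; exact hf)
  have hd : (Polynomial.X ^ b - g : Polynomial B).Monic := Polynomial.monic_X_pow_sub hg
  have hdb : (Polynomial.X ^ b - g : Polynomial B).natDegree = b := by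
    rw [sub_eq_add_neg]
    exact P6_nd (by rw [Polynomial.degree_neg]; exact hg)
  have r1 : act X (Polynomial.X ^ a - f) e = act X q e' := by
    rw [act_sub_left, act_X_pow, h1]; abel
  have r2 : act X (Polynomial.X ^ b - g) e' = act X p e := by
    rw [act_sub_left, act_X_pow, h2]; abel
  generalize (Polynomial.X ^ a - f : Polynomial B) = c at hc hca r1
  generalize (Polynomial.X ^ b - g : Polynomial B) = d at hd hdb r2
  have hdd : d.degree = (b : WithBot ℕ) := P6_degree hd hdb
  have hcd : c.degree = (a : WithBot ℕ) := P6_degree hc hca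
  obtain ⟨al, be, om, si, ga, de, ta, hal, hbe, hom, hsi, k1, k2, k3, hY1, hY2⟩ :=
    exists_w hn ha hb hXY hG hc hca hd hdb hp hq r1 r2
  set D : Dat n b B := ⟨fun i j => Gm a X e e' i j, fun j => d.coeff j,
    fun s j => (![q, c %ₘ d, p %ₘ d] s).coeff j, fun s j => (![be, om, si] s).coeff j,
    fun j => al.coeff j, fun j => (c /ₘ d).coeff j, fun j => (p /ₘ d).coeff j⟩ with hD
  have eD : D.dP = d := by
    have e1 := hd.as_sum
    rw [hdb, Finset.sum_range] at e1
    exact e1.symm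
  have eu0 : D.uP 0 = q := pl_of_coeff hq
  have eu1 : D.uP 1 = c %ₘ d := pl_of_coeff (by
    have := Polynomial.degree_modByMonic_lt c hd
    rwa [hdd] at this)
  have eu2 : D.uP 2 = p %ₘ d := pl_of_coeff (by
    have := Polynomial.degree_modByMonic_lt p hd
    rwa [hdd] at this)
  have ew0 : D.wP 0 = be := pl_of_coeff hbe
  have ew1 : D.wP 1 = om := pl_of_coeff hom
  have ew2 : D.wP 2 = si := pl_of_coeff hsi
  have eal : D.alP a = al := pl_of_coeff hal
  have hcdm : (c /ₘ d).Monic := by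
    unfold Polynomial.Monic
    rw [Polynomial.leadingCoeff_divByMonic_of_monic hd (by rw [hdd, hcd]; exact_mod_cast hba)]
    exact hc
  have hcdn : (c /ₘ d).natDegree = a - b := by
    rw [Polynomial.natDegree_divByMonic c hd, hca, hdb]
  have ec1 : Polynomial.X ^ (a - b) + pl (a - b) D.c1 = c /ₘ d := by
    have e1 := hcdm.as_sum
    rw [hcdn] at e1
    exact e1.symm
  have ep1 : pl (a - b) D.p1 = p /ₘ d := by
    refine pl_of_coeff (m := a - b) (f := p /ₘ d) ?_
    by_cases h0 : p /ₘ d = 0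
    · rw [h0, Polynomial.degree_zero]; exact WithBot.bot_lt_coe _
    · rw [Polynomial.degree_eq_natDegree h0, Polynomial.natDegree_divByMonic p hd, hdb]
      have hp0 : p ≠ 0 := by
        rintro rfl
        exact h0 (Polynomial.zero_divByMonic d)
      have h3 : ¬ p.degree < d.degree := fun h => h0 ((Polynomial.divByMonic_eq_zero_iff hd).mpr h)
      rw [hdd, Polynomial.degree_eq_natDegree hp0] at h3
      rw [Polynomial.degree_eq_natDegree hp0] at hp
      have h4 : p.natDegree < a := by exact_mod_cast hp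
      have h5 : b ≤ p.natDegree := by
        have := not_lt.mp h3
        exact_mod_cast this
      exact_mod_cast (by omega : p.natDegree - b < a - b)
  have ec : D.cP a = c := by
    unfold Dat.cP
    rw [ec1, eD, eu1, add_comm]
    exact Polynomial.modByMonic_add_div c d
  have ep : D.pP a = p := by
    unfold Dat.pP
    rw [ep1, eD, eu2, add_comm]
    exact Polynomial.modByMonic_add_div p d
  have eq0 : D.qP = q := eu0
  have hcm : ∀ x : Polynomial B, (d * x) /ₘ d = x := fun x =>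
    Polynomial.mul_divByMonic_cancel_left x hd
  have ega : D.gaP a = ga := by
    unfold Dat.gaP
    rw [ec, ep, ew1, ew2, eD, ← k1, hcm]
  have ede : D.deP a = de := by
    unfold Dat.deP
    rw [ep, eq0, ew0, ew1, ew2, eD, ← k2, hcm]
    ring
  have eG : D.G a e e' = Gm a X e e' := by
    ext i j
    simp only [Dat.G, Matrix.of_apply]
    by_cases h0 : (j : ℕ) = 0
    · rw [if_pos h0]
      simp only [Gm, Matrix.of_apply]
      rw [if_pos (by omega), h0, pow_zero, Matrix.one_mulVec]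
    · rw [if_neg h0]
      by_cases h1 : (j : ℕ) = a
      · rw [if_pos h1]
        simp only [Gm, Matrix.of_apply]
        rw [if_neg (by omega), h1, Nat.sub_self, pow_zero, Matrix.one_mulVec]
      · rw [if_neg h1]
  have eX : D.Xm a e e' = X := by
    unfold Dat.Xm
    rw [eG, ec, ep, eq0, eD]
    exact companion_of_rel hn ha hb hc hca hd hdb hp hq hG r1 r2
  have ey1 : D.y1 a e e' = Y.mulVec e := by
    unfold Dat.y1
    rw [eX, eal, ew0, hY1]
  have ey2 : D.y2 a e e' = Y.mulVec e' := by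
    unfold Dat.y2
    rw [eX, eal, ega, ede, hY2]
  have hpow : ∀ m : ℕ, X ^ m * Y = Y * X ^ m := by
    intro m
    have : Commute X Y := hXY
    exact this.pow_left m
  have eGY : Gm a X (Y.mulVec e) (Y.mulVec e') = Y * Gm a X e e' := by
    ext i j
    simp only [Gm, Matrix.of_apply, Matrix.mul_apply]
    by_cases h0 : (j : ℕ) < a
    · simp only [if_pos h0]
      rw [Matrix.mulVec_mulVec, hpow, ← Matrix.mulVec_mulVec]
      rfl
    · simp only [if_neg h0]
      rw [Matrix.mulVec_mulVec, hpow, ← Matrix.mulVec_mulVec]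
      rfl
  refine ⟨D, ?_, eG, eX, ?_⟩
  · -- the relations
    have hcm' : c %ₘ d = c - d * (c /ₘ d) := by
      rw [eq_sub_iff_add_eq]; exact Polynomial.modByMonic_add_div c d
    have hpm' : p %ₘ d = p - d * (p /ₘ d) := by
      rw [eq_sub_iff_add_eq]; exact Polynomial.modByMonic_add_div p d
    have d01 : d ∣ D.uP 0 * D.wP 1 - D.uP 1 * D.wP 0 := by
      rw [eu0, eu1, ew0, ew1, hcm']
      exact ⟨-ta + (c /ₘ d) * be, by linear_combination k3⟩
    have d02 : d ∣ D.uP 0 * D.wP 2 - D.uP 2 * D.wP 0 := by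
      rw [eu0, eu2, ew0, ew2, hpm']
      exact ⟨-(de - om) + (p /ₘ d) * be, by linear_combination k2⟩
    have d12 : d ∣ D.uP 1 * D.wP 2 - D.uP 2 * D.wP 1 := by
      rw [eu1, eu2, ew1, ew2, hcm', hpm']
      exact ⟨ga - (c /ₘ d) * si + (p /ₘ d) * om, by linear_combination (-1 : Polynomial B) * k1⟩
    have hsw : ∀ s t : Fin 3, d ∣ D.uP s * D.wP t - D.uP t * D.wP s →
        d ∣ D.uP t * D.wP s - D.uP s * D.wP t := by
      intro s t h
      have := (dvd_neg (a := d)).mpr h
      rwa [neg_sub] at this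
    intro s t
    rw [eD, Polynomial.modByMonic_eq_zero_iff_dvd hd]
    fin_cases s <;> fin_cases t
    · exact ⟨0, by simp⟩
    · exact d01
    · exact d02
    · exact hsw 0 1 d01
    · exact ⟨0, by simp⟩
    · exact d12
    · exact hsw 0 2 d02
    · exact hsw 1 2 d12
    · exact ⟨0, by simp⟩
  · unfold Dat.Ym
    rw [eX, ey1, ey2, eG, eGY, Matrix.mul_assoc, Matrix.mul_nonsing_inv _ hG, Matrix.mul_one]

end Pool.Agent.LibRG7
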