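import Pool.Agent.LibRG7.P1

set_option autoImplicit false

/-! ROW P7 (MEDIUM, Mathlib + P1). Naturality of the constructions under ring homs.
 %ₘ and /ₘ commute with Polynomial.map for monic divisors (dP is monic: X^b + lower terms); the inverse matrix: (D.G)⁻¹ is mapped to the inverse
 because the determinant is a unit (Matrix.nonsing_inv is the unique inverse: A * A⁻¹ = 1 mapped by φ; Matrix.inv_eq_right_inv). -/

namespace Pool.Agent.LibRG7

variable {B B' : Type*} [CommRing B] [CommRing B'] {n b : ℕ}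

private theorem P7_monic (D : Dat n b B) : D.dP.Monic := by
  unfold Dat.dP
  exact Polynomial.monic_X_pow_add (Polynomial.degree_sum_fin_lt D.d)

private theorem P7_dP (φ : B →+* B') (D : Dat n b B) : (D.map φ).dP = D.dP.map φ := by
  unfold Dat.dP
  simp only [Polynomial.map_add, Polynomial.map_pow, Polynomial.map_X, Polynomial.map_sum,
    Polynomial.map_mul, Polynomial.map_C]
  rfl

private theorem P7_uP (φ : B →+* B') (D : Dat n b B) (c : Fin 3) :
    (D.map φ).uP c = (D.uP c).map φ := by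
  unfold Dat.uP
  rw [pl_map]
  rfl

private theorem P7_wP (φ : B →+* B') (D : Dat n b B) (c : Fin 3) :
    (D.map φ).wP c = (D.wP c).map φ := by
  unfold Dat.wP
  rw [pl_map]
  rfl

private theorem P7_alP (φ : B →+* B') (D : Dat n b B) (a : ℕ) :
    (D.map φ).alP a = (D.alP a).map φ := by
  unfold Dat.alP
  rw [pl_map]
  rfl

private theorem P7_cP (φ : B →+* B') (D : Dat n b B) (a : ℕ) :
    (D.map φ).cP a = (D.cP a).map φ := by
  unfold Dat.cP
  rw [P7_dP, P7_uP, Polynomial.map_add, Polynomial.map_mul, Polynomial.map_add,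
    Polynomial.map_pow, Polynomial.map_X, pl_map]
  rfl

private theorem P7_pP (φ : B →+* B') (D : Dat n b B) (a : ℕ) :
    (D.map φ).pP a = (D.pP a).map φ := by
  unfold Dat.pP
  rw [P7_dP, P7_uP, Polynomial.map_add, Polynomial.map_mul, pl_map]
  rfl

private theorem P7_qP (φ : B →+* B') (D : Dat n b B) : (D.map φ).qP = D.qP.map φ := by
  unfold Dat.qP
  rw [P7_uP]

private theorem P7_gaP (φ : B →+* B') (D : Dat n b B) (a : ℕ) :
    (D.map φ).gaP a = (D.gaP a).map φ := by
  unfold Dat.gaP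
  rw [P7_dP, P7_cP, P7_pP, P7_wP, P7_wP, Polynomial.map_divByMonic _ (P7_monic D),
    Polynomial.map_sub, Polynomial.map_mul, Polynomial.map_mul]

private theorem P7_deP (φ : B →+* B') (D : Dat n b B) (a : ℕ) :
    (D.map φ).deP a = (D.deP a).map φ := by
  unfold Dat.deP
  rw [P7_dP, P7_qP, P7_pP, P7_wP, P7_wP, P7_wP, Polynomial.map_add,
    Polynomial.map_divByMonic _ (P7_monic D),
    Polynomial.map_sub, Polynomial.map_mul, Polynomial.map_mul]

private theorem P7_cv (φ : B →+* B') (a : ℕ) (f h : Polynomial B) (i : Fin n) :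
    cv a (f.map φ) (h.map φ) i = φ (cv a f h i) := by
  unfold cv
  split_ifs
  · rw [Polynomial.coeff_map]
  · rw [Polynomial.coeff_map]

private theorem P7_Cm (φ : B →+* B') (a : ℕ) (c d p q : Polynomial B) :
    (Cm a (c.map φ) (d.map φ) (p.map φ) (q.map φ) : Matrix (Fin n) (Fin n) B')
      = (Cm a c d p q).map φ := by
  ext i j
  rw [Matrix.map_apply]
  unfold Cm
  rw [Matrix.of_apply, Matrix.of_apply]
  have h1 : (Polynomial.X ^ a - c.map φ : Polynomial B') = (Polynomial.X ^ a - c).map φ := by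
    rw [Polynomial.map_sub, Polynomial.map_pow, Polynomial.map_X]
  have h2 : (Polynomial.X ^ (n - a) - d.map φ : Polynomial B')
      = (Polynomial.X ^ (n - a) - d).map φ := by
    rw [Polynomial.map_sub, Polynomial.map_pow, Polynomial.map_X]
  rw [h1, h2]
  split_ifs
  · rw [P7_cv]
  · rw [P7_cv]
  · rw [map_one]
  · rw [map_zero]

private theorem P7_inv (φ : B →+* B') (M : Matrix (Fin n) (Fin n) B) (h : IsUnit M.det) :
    (M.map φ)⁻¹ = (M⁻¹).map φ := by
  apply Matrix.inv_eq_right_inv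
  rw [← Matrix.map_mul, Matrix.mul_nonsing_inv _ h, Matrix.map_one _ (map_zero φ) (map_one φ)]

theorem map_G (φ : B →+* B') (D : Dat n b B) (a : ℕ) (e e' : Fin n → B) :
    (D.map φ).G a (φ ∘ e) (φ ∘ e') = (D.G a e e').map φ := by
  ext i j
  rw [Matrix.map_apply]
  unfold Dat.G
  rw [Matrix.of_apply, Matrix.of_apply]
  split_ifs <;> rfl

theorem map_Xm (φ : B →+* B') (D : Dat n b B) (a : ℕ) (e e' : Fin n → B)
    (hG : IsUnit (D.G a e e').det) :
    (D.map φ).Xm a (φ ∘ e) (φ ∘ e') = (D.Xm a e e').map φ := by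
  unfold Dat.Xm
  rw [map_G, P7_inv φ _ hG, P7_cP, P7_dP, P7_pP, P7_qP, P7_Cm, Matrix.map_mul, Matrix.map_mul]

theorem map_Ym (φ : B →+* B') (D : Dat n b B) (a : ℕ) (e e' : Fin n → B)
    (hG : IsUnit (D.G a e e').det) :
    (D.map φ).Ym a (φ ∘ e) (φ ∘ e') = (D.Ym a e e').map φ := by
  have hadd : ∀ v w : Fin n → B, (φ ∘ v) + (φ ∘ w) = φ ∘ (v + w) := by
    intro v w
    funext i
    simp only [Pi.add_apply, Function.comp_apply, map_add]
  have h1 : (D.map φ).y1 a (φ ∘ e) (φ ∘ e') = φ ∘ (D.y1 a e e') := by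
    unfold Dat.y1
    rw [map_Xm φ D a e e' hG, P7_alP, P7_wP, act_map, act_map, hadd]
  have h2 : (D.map φ).y2 a (φ ∘ e) (φ ∘ e') = φ ∘ (D.y2 a e e') := by
    unfold Dat.y2
    rw [map_Xm φ D a e e' hG, P7_alP, P7_gaP, P7_deP, act_map, act_map, act_map, hadd, hadd]
  unfold Dat.Ym
  rw [h1, h2, map_Xm φ D a e e' hG, Gm_map, map_G, P7_inv φ _ hG, Matrix.map_mul]

theorem map_Rel (φ : B →+* B') (D : Dat n b B) (h : D.Rel) : (D.map φ).Rel := by
  intro s t
  rw [P7_uP, P7_uP, P7_wP, P7_wP, P7_dP, ← Polynomial.map_mul, ← Polynomial.map_mul,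
    ← Polynomial.map_sub, ← Polynomial.map_modByMonic _ (P7_monic D), h s t, Polynomial.map_zero]

end Pool.Agent.LibRG7
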