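import Pool.Agent.LibRG7.F4
import Pool.Agent.LibRG7.P7

set_option autoImplicit false

/-! ROW R1 (MEDIUM, Mathlib + F4, P7). The universal domain Vr k n b T and its universal property.
 un_rel: with the ring hom theta := C.comp (Ideal.Quotient.mk (J k b)) : SR k b -> Vr, (un).dP = map theta (dd), (un).uP c = map theta (UU c),
 (un).wP c = map theta (WW c), so the remainder is map theta (rel s t) = 0 (coefficients in J).
 un_hom: S k -> B by eval (U c j -> D.u c j, W c j -> D.w c j), SR k b -> B by d_j -> D.d j; it kills J because it maps rel s t to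
 (D.uP s * D.wP t - D.uP t * D.wP s) %ₘ D.dP = 0; then the quotient and the outer variables (eval₂).
 Vr_domain: J prime (J_prime), MvPolynomial over a domain. -/

namespace Pool.Agent.LibRG7

variable (k : Type*) [CommRing k] (n b : ℕ) (T : Type*)

private lemma R1_dd_monic : (dd k b).Monic := by
  unfold dd
  exact Polynomial.monic_X_pow_add (Polynomial.degree_sum_fin_lt _)

variable {k b} in
private lemma R1_dd_map {B : Type*} [CommRing B] (θ : SR k b →+* B) (d : Fin b → B)
    (hd : ∀ j, θ (MvPolynomial.X j) = d j) :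
    (dd k b).map θ = Polynomial.X ^ b + ∑ j : Fin b, Polynomial.C (d j) * Polynomial.X ^ (j : ℕ) := by
  unfold dd
  rw [Polynomial.map_add, Polynomial.map_pow, Polynomial.map_X, Polynomial.map_sum]
  congr 1
  refine Finset.sum_congr rfl (fun j _ => ?_)
  rw [Polynomial.map_mul, Polynomial.map_C, Polynomial.map_pow, Polynomial.map_X, hd]

variable {k b} in
private lemma R1_UU_map {B : Type*} [CommRing B] (θ : SR k b →+* B) (u : Fin 3 → ℕ → B)
    (hu : ∀ c j, θ (MvPolynomial.C (U k c j)) = u c j) (c : Fin 3) :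
    (UU k b c).map θ = pl b (u c) := by
  unfold UU pl
  rw [Polynomial.map_sum]
  refine Finset.sum_congr rfl (fun j _ => ?_)
  rw [Polynomial.map_mul, Polynomial.map_C, Polynomial.map_pow, Polynomial.map_X, hu]

variable {k b} in
private lemma R1_WW_map {B : Type*} [CommRing B] (θ : SR k b →+* B) (u : Fin 3 → ℕ → B)
    (hu : ∀ c j, θ (MvPolynomial.C (W k c j)) = u c j) (c : Fin 3) :
    (WW k b c).map θ = pl b (u c) := by
  unfold WW pl
  rw [Polynomial.map_sum]
  refine Finset.sum_congr rfl (fun j _ => ?_)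
  rw [Polynomial.map_mul, Polynomial.map_C, Polynomial.map_pow, Polynomial.map_X, hu]

variable {k b} in
private lemma R1_rel_map {B : Type*} [CommRing B] (θ : SR k b →+* B) (D : Dat n b B)
    (hd : ∀ j, θ (MvPolynomial.X j) = D.d j)
    (hu : ∀ c j, θ (MvPolynomial.C (U k c j)) = D.u c j)
    (hw : ∀ c j, θ (MvPolynomial.C (W k c j)) = D.w c j) (s t : Fin 3) :
    (rel k b s t).map θ = (D.uP s * D.wP t - D.uP t * D.wP s) %ₘ D.dP := by
  unfold rel
  rw [Polynomial.map_modByMonic _ (R1_dd_monic k b), Polynomial.map_sub, Polynomial.map_mul,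
    Polynomial.map_mul, R1_UU_map θ D.u hu, R1_UU_map θ D.u hu, R1_WW_map θ D.w hw,
    R1_WW_map θ D.w hw, R1_dd_map θ D.d hd]
  rfl

theorem un_rel : (un k n b T).Rel := by
  intro s t
  rw [← R1_rel_map n ((MvPolynomial.C : QR k b →+* Vr k n b T).comp (qm k b : SR k b →+* QR k b))
    (un k n b T) (fun _ => rfl) (fun _ _ => rfl) (fun _ _ => rfl) s t]
  refine Polynomial.ext (fun l => ?_)
  rw [Polynomial.coeff_map, Polynomial.coeff_zero]
  have h1 : (rel k b s t).coeff l ∈ J k b := Ideal.subset_span ⟨s, t, l, rfl⟩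
  have h2 : qm k b ((rel k b s t).coeff l) = 0 := Ideal.Quotient.eq_zero_iff_mem.2 h1
  change MvPolynomial.C (qm k b ((rel k b s t).coeff l)) = 0
  rw [h2, map_zero]

theorem un_hom {B : Type*} [CommRing B] [Algebra k B] (D : Dat n b B) (hD : D.Rel) (t : T → B) :
    ∃ φ : Vr k n b T →ₐ[k] B, (un k n b T).map φ.toRingHom = D ∧
      ∀ x : T, φ (MvPolynomial.X (Sum.inr (Sum.inr x))) = t x := by
  -- the constants
  let ψ₀ : S k →ₐ[k] B := MvPolynomial.aeval
    (fun x : Ix => if x.1 = true then D.w x.2.1 x.2.2 else D.u x.2.1 x.2.2)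
  let ψ₁ : SR k b →ₐ[k] B :=
    { MvPolynomial.eval₂Hom (ψ₀ : S k →+* B) D.d with
      commutes' := fun c => by
        change MvPolynomial.eval₂ (ψ₀ : S k →+* B) D.d (algebraMap k (SR k b) c) = _
        rw [MvPolynomial.algebraMap_apply, MvPolynomial.eval₂_C]
        exact ψ₀.commutes c }
  have hd : ∀ j, ψ₁ (MvPolynomial.X j) = D.d j := fun j => MvPolynomial.eval₂_X _ _ _
  have hC : ∀ c, ψ₁ (MvPolynomial.C c) = ψ₀ c := fun c => MvPolynomial.eval₂_C _ _ _
  have hu : ∀ c j, ψ₁ (MvPolynomial.C (U k c j)) = D.u c j := by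
    intro c j
    rw [hC]
    change MvPolynomial.aeval _ (MvPolynomial.X (false, c, j)) = _
    rw [MvPolynomial.aeval_X]
    rfl
  have hw : ∀ c j, ψ₁ (MvPolynomial.C (W k c j)) = D.w c j := by
    intro c j
    rw [hC]
    change MvPolynomial.aeval _ (MvPolynomial.X (true, c, j)) = _
    rw [MvPolynomial.aeval_X]
    rfl
  have hJ : ∀ a ∈ J k b, ψ₁ a = 0 := by
    intro a ha
    have h1 : J k b ≤ RingHom.ker (ψ₁ : SR k b →+* B) := by
      unfold J
      rw [Ideal.span_le]
      rintro x ⟨s', t', l, rfl⟩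
      have h2 := R1_rel_map n (ψ₁ : SR k b →+* B) D hd hu hw s' t'
      rw [hD s' t'] at h2
      have h3 := congrArg (fun f => Polynomial.coeff f l) h2
      simp only [Polynomial.coeff_map, Polynomial.coeff_zero] at h3
      exact h3
    exact h1 ha
  let ψ₂ : QR k b →ₐ[k] B := (Ideal.Quotient.liftₐ (J k b) ψ₁ hJ : (SR k b ⧸ J k b) →ₐ[k] B)
  have hq : ∀ a, ψ₂ (qm k b a) = ψ₁ a := fun a => rfl
  let val : ((Fin n × Fin n) ⊕ ((Fin 3 × ℕ) ⊕ T)) → B := Sum.elim (fun q => D.g q.1 q.2)
    (Sum.elim (fun q => if q.1 = 0 then D.al q.2 else if q.1 = 1 then D.c1 q.2 else D.p1 q.2) t)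
  let φ : Vr k n b T →ₐ[k] B :=
    { MvPolynomial.eval₂Hom (ψ₂ : QR k b →+* B) val with
      commutes' := fun c => by
        change MvPolynomial.eval₂ (ψ₂ : QR k b →+* B) val (algebraMap k (Vr k n b T) c) = _
        rw [MvPolynomial.algebraMap_apply, MvPolynomial.eval₂_C]
        exact ψ₂.commutes c }
  have hX : ∀ x, φ (MvPolynomial.X x) = val x := fun x => MvPolynomial.eval₂_X _ _ _
  have hC' : ∀ c, φ (MvPolynomial.C c) = ψ₂ c := fun c => MvPolynomial.eval₂_C _ _ _
  refine ⟨φ, ?_, fun x => hX _⟩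
  have e1 : (fun (i j : Fin n) => φ ((un k n b T).g i j)) = D.g := by
    funext i j
    exact hX _
  have e2 : (fun j => φ ((un k n b T).d j)) = D.d := by
    funext j
    exact (hC' _).trans ((hq _).trans (hd j))
  have e3 : (fun c j => φ ((un k n b T).u c j)) = D.u := by
    funext c j
    exact (hC' _).trans ((hq _).trans (hu c j))
  have e4 : (fun c j => φ ((un k n b T).w c j)) = D.w := by
    funext c j
    exact (hC' _).trans ((hq _).trans (hw c j))
  have e5 : (fun j => φ ((un k n b T).al j)) = D.al := by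
    funext j
    exact hX _
  have e6 : (fun j => φ ((un k n b T).c1 j)) = D.c1 := by
    funext j
    exact hX _
  have e7 : (fun j => φ ((un k n b T).p1 j)) = D.p1 := by
    funext j
    exact hX _
  have hmap : (un k n b T).map φ.toRingHom =
      { g := fun i j => φ ((un k n b T).g i j), d := fun j => φ ((un k n b T).d j),
        u := fun c j => φ ((un k n b T).u c j), w := fun c j => φ ((un k n b T).w c j),
        al := fun j => φ ((un k n b T).al j), c1 := fun j => φ ((un k n b T).c1 j),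
        p1 := fun j => φ ((un k n b T).p1 j) } := rfl
  rw [hmap, e1, e2, e3, e4, e5, e6, e7]

theorem Vr_domain [IsDomain k] : IsDomain (Vr k n b T) := by
  have h1 := J_prime k b
  have h2 : IsDomain (QR k b) := inferInstanceAs (IsDomain (SR k b ⧸ J k b))
  infer_instance

end Pool.Agent.LibRG7
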