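import Pool.Agent.LibRG7.R1
import Pool.Agent.LibRG7.P6

set_option autoImplicit false

/-! ROW R2 (MEDIUM/STRONG, Mathlib + R1, P6, P7). The coordinate ring of commuting matrices with vectors has no zero divisors where
 the determinant of Gm a Z e e', Z = al X + be Y, is inverted.
 T := Fin r x Fin n. V := Vr k n b T, G := (un).G a e e' over V (e, e' mapped from k), D0 := Localization.Away G.det.
 Let x y = 0 in A := Aq k r n. Let g := gq .., Ag := Localization.Away g.
 (1) Psi : A -> D0: over D0 the data un.map have unit determinant; Z0 := Xm, T0 := Ym commute (recon); send X -> de Z0 - be T0, Y -> al T0 - ga Z0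
     (al de - be ga = 1), v -> the variables; commutator is 0, so I k r n is killed.
 (2) over Ag: Z := al X + be Y, T := ga X + de Y commute, det (Gm a Z e e') = image of g is a unit: extract gives D with Xm = Z, Ym = T;
     un_hom gives phi : V -> Ag with un.map phi = D, v -> v; phi maps G.det to det (Gm a Z e e'), a unit, so phi extends to Phi : D0 -> Ag
     (IsLocalization.Away.lift). Phi (Psi X) = de Z - be T = X etc. (map_Xm, map_Ym), so Phi o Psi = algebraMap A Ag (Ideal.Quotient.ringHom_ext,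
     MvPolynomial.ringHom_ext).
 (3) V is a domain. If G.det = 0 in V then its image, a unit, is 0 in Ag: Ag trivial, g nilpotent, g^N = 0. Otherwise D0 is a domain
     (IsLocalization.isDomain_localization), Psi x * Psi y = 0, say Psi x = 0, so x -> 0 in Ag, g^N x = 0. -/

namespace Pool.Agent.LibRG7

open MvPolynomial

section
variable (k : Type*) [CommRing k] (r d : ℕ)

/-- entries of two d x d matrices and r vectors -/
abbrev Vx := (Fin 2 × Fin d × Fin d) ⊕ (Fin r × Fin d)

noncomputable def mt (s : Fin 2) : Matrix (Fin d) (Fin d) (MvPolynomial (Vx r d) k) :=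
  Matrix.of (fun i j => X (Sum.inl (s, i, j)))

noncomputable def Ic : Ideal (MvPolynomial (Vx r d) k) :=
  Ideal.span (Set.range (fun p : Fin d × Fin d => (mt k r d 0 * mt k r d 1 -
    mt k r d 1 * mt k r d 0) p.1 p.2))

abbrev Aq := MvPolynomial (Vx r d) k ⧸ Ic k r d

noncomputable def mtq (s : Fin 2) : Matrix (Fin d) (Fin d) (Aq k r d) :=
  (mt k r d s).map (Ideal.Quotient.mk (Ic k r d))

noncomputable def gq (a : ℕ) (α β : k) (e e' : Fin d → k) : Aq k r d :=
  (Gm a (α • mtq k r d 0 + β • mtq k r d 1) (algebraMap k (Aq k r d) ∘ e)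
    (algebraMap k (Aq k r d) ∘ e')).det

end

private theorem R2_mat {R : Type*} [CommRing R] {n : ℕ} (Z T : Matrix (Fin n) (Fin n) R) (h : Z * T = T * Z)
    (al be ga de : R) : (de • Z - be • T) * (al • T - ga • Z) = (al • T - ga • Z) * (de • Z - be • T) := by
  simp only [mul_sub, sub_mul, Matrix.smul_mul, Matrix.mul_smul, h, smul_smul]
  rw [mul_comm al de, mul_comm ga de, mul_comm al be, mul_comm ga be]
  abel

private theorem R2_mat2 {R : Type*} [CommRing R] {n : ℕ} (X Y : Matrix (Fin n) (Fin n) R) (h : X * Y = Y * X)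
    (al be ga de : R) : (al • X + be • Y) * (ga • X + de • Y) = (ga • X + de • Y) * (al • X + be • Y) := by
  simp only [mul_add, add_mul, Matrix.smul_mul, Matrix.mul_smul, h, smul_smul]
  rw [mul_comm al de, mul_comm ga al, mul_comm be de, mul_comm ga be]
  abel

private theorem R2_smul {k A B : Type*} [CommRing k] [CommRing A] [Algebra k A] [CommRing B]
    (j : A →+* B) (cA : k → B) (h : ∀ c, j (algebraMap k A c) = cA c) {n : ℕ}
    (M N : Matrix (Fin n) (Fin n) A) (α β : k) :
    (α • M + β • N).map j = cA α • M.map j + cA β • N.map j := by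
  ext i l
  rw [Matrix.map_apply, Matrix.add_apply, Matrix.add_apply, Matrix.smul_apply, Matrix.smul_apply,
    Matrix.smul_apply, Matrix.smul_apply, Matrix.map_apply, Matrix.map_apply, Algebra.smul_def,
    Algebra.smul_def, map_add, map_mul, map_mul, h, h, smul_eq_mul, smul_eq_mul]

/-- the matrices of the generic point commute -/
private theorem R2_comm (k : Type*) [CommRing k] (r d : ℕ) :
    mtq k r d 0 * mtq k r d 1 = mtq k r d 1 * mtq k r d 0 := by
  unfold mtq
  rw [← Matrix.map_mul, ← Matrix.map_mul]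
  ext i j
  rw [Matrix.map_apply, Matrix.map_apply, Ideal.Quotient.eq]
  exact Ideal.subset_span ⟨(i, j), rfl⟩

theorem key (k : Type*) [CommRing k] [IsDomain k] (r d a b : ℕ) (hn : a + b = d) (hb : 0 < b)
    (hba : b ≤ a) (α β γ δ : k) (hdet : α * δ - β * γ = 1) (e e' : Fin d → k)
    (x y : Aq k r d) (hxy : x * y = 0) :
    ∃ N : ℕ, gq k r d a α β e e' ^ N * x = 0 ∨ gq k r d a α β e e' ^ N * y = 0 := by
  classical
  set g := gq k r d a α β e e' with hg
  let Ag := Localization.Away g
  let T := Fin r × Fin d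
  let V := Vr k d b T
  have hVd : IsDomain V := Vr_domain k d b T
  let eV : Fin d → V := algebraMap k V ∘ e
  let eV' : Fin d → V := algebraMap k V ∘ e'
  let G : V := ((un k d b T).G a eV eV').det
  let D0 := Localization.Away G
  -- the data over D0
  let j0 : V →+* D0 := algebraMap V D0
  let D1 : Dat d b D0 := (un k d b T).map j0
  let e1 : Fin d → D0 := j0 ∘ eV
  let e1' : Fin d → D0 := j0 ∘ eV'
  have hD1 : D1.Rel := map_Rel j0 _ (un_rel k d b T)
  have hG1 : D1.G a e1 e1' = ((un k d b T).G a eV eV').map j0 := map_G j0 _ a eV eV'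
  have hG1u : IsUnit (D1.G a e1 e1').det := by
    rw [hG1]
    have h1 : (((un k d b T).G a eV eV').map j0).det = j0 G := (RingHom.map_det j0 _).symm
    rw [h1]
    exact IsLocalization.Away.algebraMap_isUnit G
  obtain ⟨hcomm1, -⟩ := recon hn hb hba D1 hD1 e1 e1' hG1u
  set Z0 := D1.Xm a e1 e1' with hZ0
  set T0 := D1.Ym a e1 e1' with hT0
  let c0 : k → D0 := algebraMap k D0
  let Xs : Matrix (Fin d) (Fin d) D0 := c0 δ • Z0 - c0 β • T0
  let Ys : Matrix (Fin d) (Fin d) D0 := c0 α • T0 - c0 γ • Z0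
  have hXY : Xs * Ys = Ys * Xs := R2_mat Z0 T0 hcomm1 _ _ _ _
  let Ψ0 : MvPolynomial (Vx r d) k →ₐ[k] D0 := aeval (fun v : Vx r d =>
    match v with
    | Sum.inl (s, i, j) => if s = 0 then Xs i j else Ys i j
    | Sum.inr p => j0 (MvPolynomial.X (Sum.inr (Sum.inr p))))
  have hΨ0 : (mt k r d 0).map Ψ0 = Xs := by
    ext i j
    change Ψ0 (X (Sum.inl (0, i, j))) = _
    simp [Ψ0]
  have hΨ1 : (mt k r d 1).map Ψ0 = Ys := by
    ext i j
    change Ψ0 (X (Sum.inl (1, i, j))) = _
    simp [Ψ0]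
  have hker : ∀ p ∈ Ic k r d, Ψ0 p = 0 := by
    intro p hp
    have h1 : Ic k r d ≤ RingHom.ker Ψ0 := by
      rw [Ic, Ideal.span_le]
      rintro _ ⟨⟨i, j⟩, rfl⟩
      change Ψ0 ((mt k r d 0 * mt k r d 1) i j - (mt k r d 1 * mt k r d 0) i j) = 0
      rw [map_sub, sub_eq_zero]
      have h2 : (mt k r d 0 * mt k r d 1).map Ψ0 = (mt k r d 1 * mt k r d 0).map Ψ0 := by
        rw [Matrix.map_mul, Matrix.map_mul, hΨ0, hΨ1, hXY]
      exact congrFun (congrFun h2 i) j
    exact h1 hp
  let Ψ : Aq k r d →ₐ[k] D0 := Ideal.Quotient.liftₐ (Ic k r d) Ψ0 hker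
  -- the other direction
  let jA : Aq k r d →+* Ag := algebraMap (Aq k r d) Ag
  let mA : Fin 2 → Matrix (Fin d) (Fin d) Ag := fun s => (mtq k r d s).map jA
  have hmA : mA 0 * mA 1 = mA 1 * mA 0 := by
    change (mtq k r d 0).map jA * (mtq k r d 1).map jA = (mtq k r d 1).map jA * (mtq k r d 0).map jA
    rw [← Matrix.map_mul, ← Matrix.map_mul, R2_comm]
  let cA : k →+* Ag := algebraMap k Ag
  let Z : Matrix (Fin d) (Fin d) Ag := cA α • mA 0 + cA β • mA 1
  let Tm : Matrix (Fin d) (Fin d) Ag := cA γ • mA 0 + cA δ • mA 1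
  have hZT : Z * Tm = Tm * Z := R2_mat2 _ _ hmA _ _ _ _
  let eA : Fin d → Ag := cA ∘ e
  let eA' : Fin d → Ag := cA ∘ e'
  have hcA : ∀ c : k, jA (algebraMap k (Aq k r d) c) = cA c := fun c =>
    (IsScalarTower.algebraMap_apply k (Aq k r d) Ag c).symm
  have hZmap : (α • mtq k r d 0 + β • mtq k r d 1).map jA = Z := by
    exact R2_smul jA cA hcA _ _ _ _
  have hGA : Gm a Z eA eA' = (Gm a (α • mtq k r d 0 + β • mtq k r d 1)
      (algebraMap k (Aq k r d) ∘ e) (algebraMap k (Aq k r d) ∘ e')).map jA := by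
    have h1 : jA ∘ (algebraMap k (Aq k r d) ∘ e) = eA := by
      funext i
      exact hcA (e i)
    have h2 : jA ∘ (algebraMap k (Aq k r d) ∘ e') = eA' := by
      funext i
      exact hcA (e' i)
    rw [← Gm_map, hZmap, h1, h2]
  have hGAu : IsUnit (Gm a Z eA eA').det := by
    rw [hGA]
    have h1 : ((Gm a (α • mtq k r d 0 + β • mtq k r d 1)
      (algebraMap k (Aq k r d) ∘ e) (algebraMap k (Aq k r d) ∘ e')).map jA).det = jA g :=
      (RingHom.map_det jA _).symm
    rw [h1]
    exact IsLocalization.Away.algebraMap_isUnit g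
  obtain ⟨D, hDR, hDG, hDX, hDY⟩ := extract hn hb hba hZT eA eA' hGAu
  obtain ⟨φ, hφD, hφX⟩ := un_hom k d b T D hDR
    (fun p => jA (Ideal.Quotient.mk (Ic k r d) (X (Sum.inr p))))
  have hφe : φ.toRingHom ∘ eV = eA := by
    funext i
    exact φ.commutes (e i)
  have hφe' : φ.toRingHom ∘ eV' = eA' := by
    funext i
    exact φ.commutes (e' i)
  have hφG : IsUnit (φ.toRingHom G) := by
    have h1 : φ.toRingHom G = (((un k d b T).G a eV eV').map φ.toRingHom).det :=
      RingHom.map_det φ.toRingHom _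
    rw [h1, ← map_G, hφD, hφe, hφe', hDG]
    exact hGAu
  let Φ : D0 →+* Ag := IsLocalization.Away.lift G hφG
  have hΦj : Φ.comp j0 = φ.toRingHom := IsLocalization.Away.lift_comp G hφG
  have hΦj' : ∀ v : V, Φ (j0 v) = φ v := fun v => RingHom.congr_fun hΦj v
  have hmapD : D1.map Φ = D := by
    rw [← hφD, ← hΦj]
    rfl
  have hΦe : Φ ∘ e1 = eA := by
    rw [← hφe, ← hΦj]
    rfl
  have hΦe' : Φ ∘ e1' = eA' := by
    rw [← hφe', ← hΦj]
    rfl
  have hΦZ : Z0.map Φ = Z := by
    rw [hZ0, ← map_Xm Φ D1 a e1 e1' hG1u, hmapD, hΦe, hΦe', hDX]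
  have hΦT : T0.map Φ = Tm := by
    rw [hT0, ← map_Ym Φ D1 a e1 e1' hG1u, hmapD, hΦe, hΦe', hDY]
  have hΦc : ∀ c : k, Φ (c0 c) = cA c := by
    intro c
    have h1 : c0 c = j0 (algebraMap k V c) := IsScalarTower.algebraMap_apply k V D0 c
    rw [h1, hΦj']
    exact φ.commutes c
  have hdetA : cA α * cA δ - cA β * cA γ = 1 := by
    rw [← map_mul, ← map_mul, ← map_sub, hdet, map_one]
  have hΦXs : ∀ i j, Φ (Xs i j) = mA 0 i j := by
    intro i j
    have h1 := congrFun (congrFun hΦZ i) j
    have h2 := congrFun (congrFun hΦT i) j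
    rw [Matrix.map_apply] at h1 h2
    simp only [Xs, Matrix.sub_apply, Matrix.smul_apply, smul_eq_mul, map_sub, map_mul, hΦc, h1, h2,
      Z, Tm, Matrix.add_apply]
    linear_combination (mA 0 i j) * hdetA
  have hΦYs : ∀ i j, Φ (Ys i j) = mA 1 i j := by
    intro i j
    have h1 := congrFun (congrFun hΦZ i) j
    have h2 := congrFun (congrFun hΦT i) j
    rw [Matrix.map_apply] at h1 h2
    simp only [Ys, Matrix.sub_apply, Matrix.smul_apply, smul_eq_mul, map_sub, map_mul, hΦc, h1, h2,
      Z, Tm, Matrix.add_apply]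
    linear_combination (mA 1 i j) * hdetA
  have hcomp : Φ.comp Ψ.toRingHom = jA := by
    apply Ideal.Quotient.ringHom_ext
    apply MvPolynomial.ringHom_ext
    · intro c
      change Φ (Ψ0 (C c)) = jA (Ideal.Quotient.mk _ (C c))
      have h1 : Ψ0 (C c) = c0 c := Ψ0.commutes c
      rw [h1, hΦc]
      exact (hcA c).symm
    · rintro (⟨s, i, j⟩ | p)
      · change Φ (Ψ0 (X (Sum.inl (s, i, j)))) = jA (Ideal.Quotient.mk _ (X (Sum.inl (s, i, j))))
        have h1 : Ψ0 (X (Sum.inl (s, i, j))) = if s = 0 then Xs i j else Ys i j := by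
          simp only [Ψ0, aeval_X]
        rw [h1]
        have h2 : s = 0 ∨ s = 1 := by
          rcases s with ⟨s, hs⟩
          interval_cases s
          · left; rfl
          · right; rfl
        rcases h2 with rfl | rfl
        · rw [if_pos rfl, hΦXs]
          rfl
        · rw [if_neg (by decide), hΦYs]
          rfl
      · change Φ (Ψ0 (X (Sum.inr p))) = jA (Ideal.Quotient.mk _ (X (Sum.inr p)))
        have h1 : Ψ0 (X (Sum.inr p)) = j0 (MvPolynomial.X (Sum.inr (Sum.inr p))) := by
          simp only [Ψ0, aeval_X]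
        rw [h1, hΦj', hφX]
  have hz : ∀ z : Aq k r d, jA z = 0 → ∃ N : ℕ, g ^ N * z = 0 := by
    intro z hz
    obtain ⟨⟨m, N, hN⟩, hm⟩ := (IsLocalization.map_eq_zero_iff (Submonoid.powers g) Ag z).mp hz
    refine ⟨N, ?_⟩
    have hN' : g ^ N = m := hN
    rw [hN']
    exact hm
  by_cases hG0 : G = 0
  · have h1 : IsUnit (0 : Ag) := by
      have := hφG
      rw [hG0, map_zero] at this
      exact this
    have h2 : jA x = 0 := by
      have h3 : (0 : Ag) = 1 := (isUnit_zero_iff.mp h1)
      calc jA x = 1 * jA x := (one_mul _).symm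
        _ = 0 * jA x := by rw [h3]
        _ = 0 := zero_mul _
    obtain ⟨N, hN⟩ := hz x h2
    exact ⟨N, Or.inl hN⟩
  · have hdom : IsDomain D0 := IsLocalization.isDomain_localization
      (powers_le_nonZeroDivisors_of_noZeroDivisors hG0)
    have h1 : Ψ x * Ψ y = 0 := by rw [← map_mul, hxy, map_zero]
    rcases mul_eq_zero.mp h1 with h2 | h2
    · have h3 : jA x = 0 := by
        rw [← hcomp]
        change Φ (Ψ x) = 0
        rw [h2, map_zero]
      obtain ⟨N, hN⟩ := hz x h3
      exact ⟨N, Or.inl hN⟩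
    · have h3 : jA y = 0 := by
        rw [← hcomp]
        change Φ (Ψ y) = 0
        rw [h2, map_zero]
      obtain ⟨N, hN⟩ := hz y h3
      exact ⟨N, Or.inr hN⟩

end Pool.Agent.LibRG7
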