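import Pool.Agent.LibRG7.Defs

set_option autoImplicit false

/-! ROW R3 (MEDIUM, only Mathlib). Linear algebra: two generators over k[Z] give an invertible Gm.
 For v let c(v) := dimension of the span of all Z^i v; the Z^i v, i < c(v), are a basis of it (first linear relation; its span is stable).
 WLOG c(e) >= c(e') (the hypothesis is symmetric). a0 := c(e). If a0 = d (d >= 2): f = e, f' = Z^(d-1) e, a = d-1, b = 1: the columns are
 Z^i e, i < d, a basis. Otherwise a = a0, b = d - a0 > 0, f = e, f' = e': modulo W := span Z^i e the vectors Z^j e' span the quotient of dimension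
 b, so Z^j e', j < b, are a basis of it (first relation), b <= c(e') <= a. Columns independent => det is a unit
 (Matrix.linearIndependent_cols_iff_isUnit, Matrix.isUnit_iff_isUnit_det). -/

namespace Pool.Agent.LibRG7

section krylov
variable {k V : Type*} [Field k] [AddCommGroup V] [Module k V]

/-- the span of `W` and the first terms of `s` -/
private def R3_K (W : Submodule k V) (s : ℕ → V) : ℕ → Submodule k V
  | 0 => W
  | n + 1 => R3_K W s n ⊔ Submodule.span k {s n}

private theorem R3_mono (W : Submodule k V) (s : ℕ → V) : Monotone (R3_K W s) :=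
  monotone_nat_of_le_succ fun _ => le_sup_left

private theorem R3_mem (W : Submodule k V) (s : ℕ → V) {i n : ℕ} (h : i < n) : s i ∈ R3_K W s n := by
  have h1 : s i ∈ R3_K W s (i + 1) :=
    Submodule.mem_sup_right (Submodule.mem_span_singleton_self _)
  exact R3_mono W s (Nat.succ_le_of_lt h) h1

private theorem R3_le (W : Submodule k V) (s : ℕ → V) (n : ℕ) (S : Submodule k V) (hW : W ≤ S)
    (hs : ∀ i, i < n → s i ∈ S) : R3_K W s n ≤ S := by
  induction n with
  | zero => exact hW
  | succ n ih =>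
    refine sup_le (ih fun i hi => hs i (Nat.lt_succ_of_lt hi)) ?_
    rw [Submodule.span_singleton_le_iff_mem]
    exact hs n (Nat.lt_succ_self n)

private theorem R3_monoW {W W' : Submodule k V} (h : W ≤ W') (s : ℕ → V) (n : ℕ) :
    R3_K W s n ≤ R3_K W' s n :=
  R3_le W s n _ (h.trans (R3_mono W' s (Nat.zero_le n))) fun _ hi => R3_mem W' s hi

private theorem R3_step (T : V →ₗ[k] V) (W : Submodule k V) (s : ℕ → V) (hs : ∀ i, T (s i) = s (i + 1))
    (hW : ∀ x ∈ W, T x ∈ W) (n : ℕ) : ∀ x ∈ R3_K W s n, T x ∈ R3_K W s (n + 1) := by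
  induction n with
  | zero =>
    intro x hx
    exact R3_mono W s (Nat.zero_le 1) (hW x hx)
  | succ n ih =>
    intro x hx
    obtain ⟨y, hy, z, hz, rfl⟩ := Submodule.mem_sup.mp hx
    obtain ⟨c, rfl⟩ := Submodule.mem_span_singleton.mp hz
    rw [map_add, map_smul, hs]
    exact Submodule.add_mem _ (R3_mono W s (Nat.le_succ (n + 1)) (ih y hy))
      (Submodule.smul_mem _ _ (R3_mem W s (Nat.lt_succ_self (n + 1))))

private theorem R3_dim [FiniteDimensional k V] (W : Submodule k V) (s : ℕ → V) (n : ℕ)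
    (h : ∀ m, m < n → s m ∉ R3_K W s m) :
    Module.finrank k (R3_K W s n) = Module.finrank k W + n := by
  induction n with
  | zero => rfl
  | succ n ih =>
    have h1 := ih fun m hm => h m (Nat.lt_succ_of_lt hm)
    have h2 := h n (Nat.lt_succ_self n)
    have h3 := Submodule.finrank_sup_add_finrank_inf_eq (R3_K W s n) (Submodule.span k {s n})
    have h4 : s n ≠ 0 := by
      intro h0
      apply h2
      rw [h0]
      exact Submodule.zero_mem _
    rw [(Submodule.disjoint_span_singleton_of_notMem h2).eq_bot, finrank_bot,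
      finrank_span_singleton h4, h1] at h3
    change Module.finrank k (R3_K W s n ⊔ Submodule.span k {s n} : Submodule k V) = _
    omega

private theorem R3_krylov [FiniteDimensional k V] (T : V →ₗ[k] V) (W : Submodule k V) (s : ℕ → V)
    (hs : ∀ i, T (s i) = s (i + 1)) (hW : ∀ x ∈ W, T x ∈ W) :
    ∃ n, (∀ i, s i ∈ R3_K W s n) ∧ Module.finrank k (R3_K W s n) = Module.finrank k W + n ∧
      (∀ m, s m ∈ R3_K W s m → n ≤ m) ∧ (∀ x ∈ R3_K W s n, T x ∈ R3_K W s n) := by
  classical
  have hex : ∃ n, s n ∈ R3_K W s n := by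
    by_contra hno
    push Not at hno
    have h := R3_dim W s (Module.finrank k V + 1) fun m _ => hno m
    have h' := Submodule.finrank_le (R3_K W s (Module.finrank k V + 1))
    omega
  refine ⟨Nat.find hex, ?_, ?_, fun m hm => Nat.find_min' hex hm, ?_⟩
  · have hst : ∀ x ∈ R3_K W s (Nat.find hex), T x ∈ R3_K W s (Nat.find hex) := by
      intro x hx
      have h := R3_step T W s hs hW _ x hx
      have h' : R3_K W s (Nat.find hex + 1) ≤ R3_K W s (Nat.find hex) := by
        refine sup_le le_rfl ?_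
        rw [Submodule.span_singleton_le_iff_mem]
        exact Nat.find_spec hex
      exact h' h
    intro i
    induction i with
    | zero =>
      rcases Nat.eq_zero_or_pos (Nat.find hex) with h0 | h0
      · have h := Nat.find_spec hex
        rw [h0] at h ⊢
        exact h
      · exact R3_mem W s h0
    | succ i ih =>
      rw [← hs]
      exact hst _ ih
  · exact R3_dim W s _ fun m hm => Nat.find_min hex hm
  · intro x hx
    have h := R3_step T W s hs hW _ x hx
    have h' : R3_K W s (Nat.find hex + 1) ≤ R3_K W s (Nat.find hex) := by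
      refine sup_le le_rfl ?_
      rw [Submodule.span_singleton_le_iff_mem]
      exact Nat.find_spec hex
    exact h' h

end krylov

private theorem R3_unit {k : Type*} [Field k] {d : ℕ} (A : Matrix (Fin d) (Fin d) k)
    (h : ⊤ ≤ Submodule.span k (Set.range A.col)) : IsUnit A.det := by
  rw [← Matrix.isUnit_iff_isUnit_det, ← Matrix.linearIndependent_cols_iff_isUnit]
  refine linearIndependent_of_top_le_span_of_card_eq_finrank h ?_
  rw [Fintype.card_fin, Module.finrank_fin_fun]

private theorem R3_seq {k : Type*} [Field k] {d : ℕ} (Z : Matrix (Fin d) (Fin d) k) (e : Fin d → k)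
    (i : ℕ) : Z.mulVecLin ((Z ^ i).mulVec e) = (Z ^ (i + 1)).mulVec e := by
  rw [Matrix.mulVecLin_apply, Matrix.mulVec_mulVec, pow_succ']

private theorem R3_aux {k : Type*} [Field k] {d : ℕ} (hd : 2 ≤ d) (Z : Matrix (Fin d) (Fin d) k)
    (e e' : Fin d → k)
    (h : Submodule.span k {v : Fin d → k | ∃ i : ℕ, v = (Z ^ i).mulVec e ∨
      v = (Z ^ i).mulVec e'} = ⊤) (n n' : ℕ)
    (h1 : ∀ i, (Z ^ i).mulVec e ∈ R3_K (⊥ : Submodule k (Fin d → k)) (fun i => (Z ^ i).mulVec e) n)
    (h2 : Module.finrank k (R3_K (⊥ : Submodule k (Fin d → k)) (fun i => (Z ^ i).mulVec e) n) = n)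
    (h3 : ∀ x ∈ R3_K (⊥ : Submodule k (Fin d → k)) (fun i => (Z ^ i).mulVec e) n, Z.mulVecLin x ∈
      R3_K (⊥ : Submodule k (Fin d → k)) (fun i => (Z ^ i).mulVec e) n)
    (h4 : (Z ^ n').mulVec e' ∈ R3_K (⊥ : Submodule k (Fin d → k)) (fun i => (Z ^ i).mulVec e') n') (hle : n' ≤ n) :
    ∃ a b : ℕ, a + b = d ∧ 0 < b ∧ b ≤ a ∧ ∃ f f' : Fin d → k, IsUnit (Gm a Z f f').det := by
  obtain ⟨b, hb1, hb2, hb3, _⟩ := R3_krylov Z.mulVecLin (R3_K (⊥ : Submodule k (Fin d → k)) (fun i => (Z ^ i).mulVec e) n)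
    (fun i => (Z ^ i).mulVec e') (fun i => R3_seq Z e' i) h3
  have hbn : b ≤ n := (hb3 n' (R3_monoW bot_le _ _ h4)).trans hle
  have htop : ⊤ ≤ R3_K (R3_K (⊥ : Submodule k (Fin d → k)) (fun i => (Z ^ i).mulVec e) n) (fun i => (Z ^ i).mulVec e') b := by
    rw [← h, Submodule.span_le]
    rintro v ⟨i, rfl | rfl⟩
    · exact R3_mono _ _ (Nat.zero_le b) (h1 i)
    · exact hb1 i
  have hdim : n + b = d := by
    rw [top_le_iff.mp htop, finrank_top, Module.finrank_fin_fun, h2] at hb2
    exact hb2.symm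
  rcases Nat.eq_zero_or_pos b with h0 | h0
  · have hn : n = d := by omega
    refine ⟨d - 1, 1, by omega, by omega, by omega, e, (Z ^ (d - 1)).mulVec e, ?_⟩
    apply R3_unit
    refine htop.trans ?_
    rw [h0]
    refine R3_le _ _ n _ bot_le fun i hi => ?_
    have hid : i < d := by omega
    rcases lt_or_ge i (d - 1) with hi' | hi'
    · apply Submodule.subset_span
      refine ⟨⟨i, hid⟩, ?_⟩
      funext r
      change (if i < d - 1 then _ else _) = _
      rw [if_pos hi']
    · apply Submodule.subset_span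
      refine ⟨⟨i, hid⟩, ?_⟩
      funext r
      change (if i < d - 1 then _ else _) = _
      have hi2 : i = d - 1 := by omega
      rw [if_neg (by omega)]
      change ((Z ^ (i - (d - 1))).mulVec ((Z ^ (d - 1)).mulVec e)) r = (Z ^ i).mulVec e r
      rw [hi2, Nat.sub_self, pow_zero, Matrix.one_mulVec]
  · refine ⟨n, b, hdim, h0, hbn, e, e', ?_⟩
    apply R3_unit
    refine htop.trans ?_
    refine R3_le _ _ b _ ?_ ?_
    · refine R3_le _ _ n _ bot_le fun i hi => ?_
      apply Submodule.subset_span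
      refine ⟨⟨i, by omega⟩, ?_⟩
      funext r
      change (if i < n then _ else _) = _
      rw [if_pos hi]
    · intro i hi
      apply Submodule.subset_span
      refine ⟨⟨n + i, by omega⟩, ?_⟩
      funext r
      change (if n + i < n then _ else _) = _
      rw [if_neg (by omega)]
      change ((Z ^ (n + i - n)).mulVec e') r = (Z ^ i).mulVec e' r
      rw [Nat.add_sub_cancel_left]

theorem exists_ab {k : Type*} [Field k] {d : ℕ} (hd : 2 ≤ d) (Z : Matrix (Fin d) (Fin d) k)
    (e e' : Fin d → k)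
    (h : Submodule.span k {v : Fin d → k | ∃ i : ℕ, v = (Z ^ i).mulVec e ∨
      v = (Z ^ i).mulVec e'} = ⊤) :
    ∃ a b : ℕ, a + b = d ∧ 0 < b ∧ b ≤ a ∧ ∃ f f' : Fin d → k, IsUnit (Gm a Z f f').det := by
  obtain ⟨n, a1, a2, a3, a4⟩ := R3_krylov Z.mulVecLin (⊥ : Submodule k (Fin d → k)) (fun i => (Z ^ i).mulVec e)
    (fun i => R3_seq Z e i) (by
      intro x hx
      rw [(Submodule.mem_bot k).mp hx, map_zero]
      exact Submodule.zero_mem _)
  obtain ⟨n', b1, b2, b3, b4⟩ := R3_krylov Z.mulVecLin (⊥ : Submodule k (Fin d → k)) (fun i => (Z ^ i).mulVec e')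
    (fun i => R3_seq Z e' i) (by
      intro x hx
      rw [(Submodule.mem_bot k).mp hx, map_zero]
      exact Submodule.zero_mem _)
  rw [finrank_bot, zero_add] at a2 b2
  rcases le_total n' n with hle | hle
  · exact R3_aux hd Z e e' h n n' a1 a2 a4 (b1 n') hle
  · refine R3_aux hd Z e' e ?_ n' n b1 b2 b4 (a1 n) hle
    rw [← h]
    congr 1
    ext v
    exact ⟨fun ⟨i, hi⟩ => ⟨i, hi.symm⟩, fun ⟨i, hi⟩ => ⟨i, hi.symm⟩⟩

end Pool.Agent.LibRG7
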