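import Pool.Agent.LibRG7.R2
import Pool.Agent.LibRG7.R3

set_option autoImplicit false

/-! ROW R4 (MEDIUM, Mathlib + R2, R3). The theorem at a k-point of a chart.
 local_domain: A a comm ring, M a submonoid chain: Rf = Localization.Away s of A, P prime of Rf, Q = comap P in A; property: for all x y with
 x y = 0 in A there is t not in Q with t x = 0 or t y = 0. Then Localization.AtPrime P has no zero divisors (write two elements as fractions of
 elements of A: IsLocalization.surj / mk', clear denominators) and is nontrivial.
 result: X0, Y0 = z of the matrices, Z0 = α X0 + β Y0.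
 d <= 1: Ic = bot (0 x 0 or 1 x 1 matrices commute), A' is isomorphic to a polynomial ring, a domain: take t = 1.
 d >= 2: if (α, β) = (0, 0) the hypothesis says that e, e' span (Z0^0 only), so it also holds for (1, 0): WLOG (α, β) /= (0,0), choose γ, δ with
 α δ - β γ = 1. exists_ab for Z0 gives a, b, f, f' with det (Gm a Z0 f f') /= 0; this is z of gq k r d a α β f f' (Gm_map, RingHom.map_det), so
 gq is not in Q = kernel of A -> k; key gives gq^N x = 0 or gq^N y = 0, take t = gq^N. -/

namespace Pool.Agent.LibRG7

open MvPolynomial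

section
variable (k : Type*) [CommRing k] (r d : ℕ)

/-- the determinant of the chart f: the vectors X^i Y^j v_c, (i, j, c) = f b, b < d -/
noncomputable def chd (f : Fin d → (Fin d × Fin d × Fin r)) : MvPolynomial (Vx r d) k :=
  Matrix.det (Matrix.of (fun (a : Fin d) (b : Fin d) =>
    Matrix.mulVec (mt k r d 0 ^ (f b).1.val * mt k r d 1 ^ (f b).2.1.val)
      (fun i : Fin d => (X (Sum.inr ((f b).2.2, i)) : MvPolynomial (Vx r d) k)) a))

abbrev Ch (f : Fin d → (Fin d × Fin d × Fin r)) :=
  Localization.Away (Ideal.Quotient.mk (Ic k r d) (chd k r d f))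

end

theorem local_domain {A : Type*} [CommRing A] (s : A) (P : Ideal (Localization.Away s)) [P.IsPrime]
    (h : ∀ x y : A, x * y = 0 → ∃ t : A, algebraMap A (Localization.Away s) t ∉ P ∧
      (t * x = 0 ∨ t * y = 0)) : IsDomain (Localization.AtPrime P) := by
  have hunit : ∀ t : Submonoid.powers s, algebraMap A (Localization.Away s) t ∉ P := by
    intro t ht
    exact Ideal.IsPrime.ne_top' (P.eq_top_of_isUnit_mem ht
      (IsLocalization.map_units (Localization.Away s) t))
  have hcl : ∀ Z : Localization.AtPrime P, ∃ (a : A) (v : Localization.AtPrime P), IsUnit v ∧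
      Z * v = algebraMap (Localization.Away s) (Localization.AtPrime P)
        (algebraMap A (Localization.Away s) a) := by
    intro Z
    obtain ⟨⟨r, u⟩, hu⟩ := IsLocalization.surj P.primeCompl Z
    obtain ⟨⟨a, w⟩, hw⟩ := IsLocalization.surj (Submonoid.powers s) r
    refine ⟨a, algebraMap (Localization.Away s) (Localization.AtPrime P) (u : Localization.Away s) *
      algebraMap (Localization.Away s) (Localization.AtPrime P)
        (algebraMap A (Localization.Away s) w), ?_, ?_⟩
    · exact (IsLocalization.map_units _ u).mul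
        ((IsLocalization.map_units (Localization.Away s) w).map _)
    · rw [← mul_assoc, hu, ← map_mul, hw]
  have hkey : ∀ a b : A, algebraMap (Localization.Away s) (Localization.AtPrime P)
      (algebraMap A (Localization.Away s) (a * b)) = 0 →
      algebraMap (Localization.Away s) (Localization.AtPrime P)
        (algebraMap A (Localization.Away s) a) = 0 ∨
      algebraMap (Localization.Away s) (Localization.AtPrime P)
        (algebraMap A (Localization.Away s) b) = 0 := by
    intro a b hab
    obtain ⟨⟨m, hm⟩, hm0⟩ :=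
      (IsLocalization.map_eq_zero_iff P.primeCompl (Localization.AtPrime P) _).mp hab
    obtain ⟨⟨w, t⟩, hw⟩ := IsLocalization.surj (Submonoid.powers s) m
    have hwP : algebraMap A (Localization.Away s) w ∉ P := by
      intro hwP
      have hw' : m * algebraMap A (Localization.Away s) t = algebraMap A (Localization.Away s) w := hw
      rw [← hw'] at hwP
      rcases Ideal.IsPrime.mem_or_mem ‹P.IsPrime› hwP with h1 | h1
      · exact hm h1
      · exact hunit t h1
    have h1 : algebraMap A (Localization.Away s) (w * (a * b)) = 0 := by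
      have hw' : m * algebraMap A (Localization.Away s) t = algebraMap A (Localization.Away s) w := hw
      have hm0' : m * algebraMap A (Localization.Away s) (a * b) = 0 := hm0
      rw [map_mul, ← hw', mul_right_comm, hm0', zero_mul]
    obtain ⟨q, hq0⟩ := (IsLocalization.map_eq_zero_iff (Submonoid.powers s) _ _).mp h1
    obtain ⟨t', ht', h2⟩ := h ((q : A) * w * a) b (by
      rw [← hq0]
      ring)
    rcases h2 with h2 | h2
    · left
      have hnot : algebraMap A (Localization.Away s) (t' * ((q : A) * w)) ∉ P := by
        rw [map_mul, map_mul]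
        intro h3
        rcases Ideal.IsPrime.mem_or_mem ‹P.IsPrime› h3 with h4 | h4
        · exact ht' h4
        · rcases Ideal.IsPrime.mem_or_mem ‹P.IsPrime› h4 with h5 | h5
          · exact hunit q h5
          · exact hwP h5
      have hu := IsLocalization.map_units (Localization.AtPrime P)
        (⟨algebraMap A (Localization.Away s) (t' * ((q : A) * w)), hnot⟩ : P.primeCompl)
      apply hu.mul_left_cancel
      change algebraMap (Localization.Away s) (Localization.AtPrime P)
        (algebraMap A (Localization.Away s) (t' * ((q : A) * w))) * _ = _ * _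
      rw [← map_mul, ← map_mul, mul_zero]
      have e : t' * ((q : A) * w) * a = 0 := by
        rw [← h2]
        ring
      rw [e, map_zero, map_zero]
    · right
      have hu := IsLocalization.map_units (Localization.AtPrime P)
        (⟨algebraMap A (Localization.Away s) t', ht'⟩ : P.primeCompl)
      apply hu.mul_left_cancel
      change algebraMap (Localization.Away s) (Localization.AtPrime P)
        (algebraMap A (Localization.Away s) t') * _ = _ * _
      rw [← map_mul, ← map_mul, h2, mul_zero, map_zero, map_zero]
  have hnz : NoZeroDivisors (Localization.AtPrime P) := by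
    refine ⟨?_⟩
    intro X Y hXY
    obtain ⟨a, v, hv, ha⟩ := hcl X
    obtain ⟨b, v', hv', hb⟩ := hcl Y
    have h1 := hkey a b (by
      rw [map_mul, map_mul, ← ha, ← hb]
      calc X * v * (Y * v') = X * Y * (v * v') := by ring
        _ = 0 := by rw [hXY, zero_mul])
    rcases h1 with h1 | h1
    · left
      rw [← ha] at h1
      exact (hv.mul_left_eq_zero).mp h1
    · right
      rw [← hb] at h1
      exact (hv'.mul_left_eq_zero).mp h1
  exact NoZeroDivisors.to_isDomain _

/-- the matrix at the point -/
private noncomputable def R4_Z {k : Type*} [Field k] {r d : ℕ} {f : Fin d → (Fin d × Fin d × Fin r)}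
    (z : Ch k r d f →ₐ[k] k) (α β : k) : Matrix (Fin d) (Fin d) k :=
  Matrix.of (fun i j : Fin d =>
        α * z (algebraMap _ _ (Ideal.Quotient.mk (Ic k r d) (mt k r d 0 i j))) +
        β * z (algebraMap _ _ (Ideal.Quotient.mk (Ic k r d) (mt k r d 1 i j))))

private theorem R4_map {k : Type*} [Field k] {r d : ℕ} {f : Fin d → (Fin d × Fin d × Fin r)}
    (z : Ch k r d f →ₐ[k] k) (α β : k) (a : ℕ) (e e' : Fin d → k) :
    z (algebraMap (Aq k r d) (Ch k r d f) (gq k r d a α β e e')) = (Gm a (R4_Z z α β) e e').det := by
  let φ : Aq k r d →+* k := (z : Ch k r d f →+* k).comp (algebraMap (Aq k r d) (Ch k r d f))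
  have hφ : ∀ c : k, φ (algebraMap k (Aq k r d) c) = c := by
    intro c
    change z (algebraMap (Aq k r d) (Ch k r d f) (algebraMap k (Aq k r d) c)) = c
    rw [← IsScalarTower.algebraMap_apply k (Aq k r d) (Ch k r d f)]
    exact z.commutes c
  change φ (gq k r d a α β e e') = _
  unfold gq
  rw [RingHom.map_det, RingHom.mapMatrix_apply, ← Gm_map]
  have h1 : (α • mtq k r d 0 + β • mtq k r d 1).map φ = R4_Z z α β := by
    ext i j
    have hsm : ∀ (c : k) (x : Aq k r d), φ (c • x) = c * φ x := by
      intro c x
      have e : c • x = algebraMap k (Aq k r d) c * x := Algebra.smul_def c x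
      rw [e, map_mul, hφ]
    have e1 : φ (α • (mtq k r d 0 i j : Aq k r d) + β • (mtq k r d 1 i j : Aq k r d)) =
        α * φ (mtq k r d 0 i j) + β * φ (mtq k r d 1 i j) := by
      rw [map_add, hsm, hsm]
    exact e1
  have h2 : ∀ e : Fin d → k, φ ∘ (algebraMap k (Aq k r d) ∘ e) = e := by
    intro e
    funext i
    exact hφ (e i)
  rw [h1, h2, h2]

private theorem R4_big {k : Type*} [Field k] {r d : ℕ} (hd : 2 ≤ d) (f : Fin d → (Fin d × Fin d × Fin r))
    (z : Ch k r d f →ₐ[k] k) (P : Ideal (Ch k r d f)) [P.IsPrime] (hP : P = RingHom.ker z)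
    (α β γ δ : k) (hdet : α * δ - β * γ = 1) (e e' : Fin d → k)
    (h : Submodule.span k {v : Fin d → k | ∃ i : ℕ, v = ((R4_Z z α β) ^ i).mulVec e ∨
      v = ((R4_Z z α β) ^ i).mulVec e'} = ⊤) :
    IsDomain (Localization.AtPrime P) := by
  obtain ⟨a, b, hab, hb, hba, e1, e2, hu⟩ := exists_ab hd (R4_Z z α β) e e' h
  refine local_domain _ P ?_
  intro x y hxy
  obtain ⟨N, hN⟩ := key k r d a b hab hb hba α β γ δ hdet e1 e2 x y hxy
  refine ⟨gq k r d a α β e1 e2 ^ N, ?_, hN⟩
  intro hmem
  rw [map_pow] at hmem
  have h1 := Ideal.IsPrime.mem_of_pow_mem ‹P.IsPrime› N hmem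
  rw [hP, RingHom.mem_ker] at h1
  have h2 := R4_map z α β a e1 e2
  rw [← h2] at hu
  rw [h1] at hu
  exact not_isUnit_zero hu

private theorem R4_small {k : Type*} [Field k] {r d : ℕ} (hd : d ≤ 1) (x y : Aq k r d)
    (hxy : x * y = 0) : x = 0 ∨ y = 0 := by
  have hbot : Ic k r d = ⊥ := by
    unfold Ic
    rw [Ideal.span_eq_bot]
    rintro _ ⟨⟨i, j⟩, rfl⟩
    have hsub : Subsingleton (Fin d) := by
      interval_cases d
      · infer_instance
      · infer_instance
    have hij : i = j := Subsingleton.elim _ _
    subst hij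
    change (mt k r d 0 * mt k r d 1 - mt k r d 1 * mt k r d 0) i i = 0
    rw [Matrix.sub_apply, Matrix.mul_apply, Matrix.mul_apply, sub_eq_zero]
    refine Finset.sum_congr rfl fun j _ => ?_
    have hj : j = i := Subsingleton.elim _ _
    rw [hj, mul_comm]
  obtain ⟨x', rfl⟩ := Ideal.Quotient.mk_surjective x
  obtain ⟨y', rfl⟩ := Ideal.Quotient.mk_surjective y
  rw [← map_mul, Ideal.Quotient.eq_zero_iff_mem, hbot, Ideal.mem_bot] at hxy
  rcases mul_eq_zero.mp hxy with h | h
  · left
    rw [h, map_zero]
  · right
    rw [h, map_zero]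

theorem main (k : Type*) [Field k] (r d : ℕ) (f : Fin d → (Fin d × Fin d × Fin r))
    (z : Ch k r d f →ₐ[k] k) (P : Ideal (Ch k r d f)) [P.IsPrime] (hP : P = RingHom.ker z)
    (α β : k) (e e' : Fin d → k)
    (h : Submodule.span k {v : Fin d → k | ∃ i : ℕ,
      v = ((Matrix.of (fun i j : Fin d =>
        α * z (algebraMap _ _ (Ideal.Quotient.mk (Ic k r d) (mt k r d 0 i j))) +
        β * z (algebraMap _ _ (Ideal.Quotient.mk (Ic k r d) (mt k r d 1 i j))))) ^ i).mulVec e ∨
      v = ((Matrix.of (fun i j : Fin d =>
        α * z (algebraMap _ _ (Ideal.Quotient.mk (Ic k r d) (mt k r d 0 i j))) +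
        β * z (algebraMap _ _ (Ideal.Quotient.mk (Ic k r d) (mt k r d 1 i j))))) ^ i).mulVec e'}
      = ⊤) :
    IsDomain (Localization.AtPrime P) := by
  rcases Nat.lt_or_ge d 2 with hd | hd
  · refine local_domain _ P ?_
    intro x y hxy
    refine ⟨1, ?_, ?_⟩
    · rw [map_one]
      exact (Ideal.ne_top_iff_one P).mp Ideal.IsPrime.ne_top'
    · rw [one_mul, one_mul]
      exact R4_small (by omega) x y hxy
  · by_cases hα : α = 0
    · by_cases hβ : β = 0
      · subst hα
        subst hβ
        refine R4_big hd f z P hP 1 0 0 1 (by ring) e e' ?_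
        rw [eq_top_iff, ← h, Submodule.span_le]
        have hz : (Matrix.of (fun i j : Fin d =>
            (0 : k) * z (algebraMap _ _ (Ideal.Quotient.mk (Ic k r d) (mt k r d 0 i j))) +
            (0 : k) * z (algebraMap _ _ (Ideal.Quotient.mk (Ic k r d) (mt k r d 1 i j))))) =
            (0 : Matrix (Fin d) (Fin d) k) := by
          ext i j
          change (0 : k) * _ + (0 : k) * _ = 0
          rw [zero_mul, zero_mul, add_zero]
        rw [hz]
        have h0 : ∀ (i : ℕ) (v : Fin d → k), ((0 : Matrix (Fin d) (Fin d) k) ^ i).mulVec v = v ∨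
            ((0 : Matrix (Fin d) (Fin d) k) ^ i).mulVec v = 0 := by
          intro i v
          rcases Nat.eq_zero_or_pos i with hi | hi
          · left
            rw [hi, pow_zero, Matrix.one_mulVec]
          · right
            rw [zero_pow hi.ne', Matrix.zero_mulVec]
        rintro v ⟨i, rfl | rfl⟩
        · rcases h0 i e with h1 | h1
          · rw [h1]
            apply Submodule.subset_span
            exact ⟨0, Or.inl (by rw [pow_zero, Matrix.one_mulVec])⟩
          · rw [h1]
            exact Submodule.zero_mem _
        · rcases h0 i e' with h1 | h1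
          · rw [h1]
            apply Submodule.subset_span
            exact ⟨0, Or.inr (by rw [pow_zero, Matrix.one_mulVec])⟩
          · rw [h1]
            exact Submodule.zero_mem _
      · exact R4_big hd f z P hP α β (-β⁻¹) 0 (by field_simp; ring) e e' h
    · exact R4_big hd f z P hP α β 0 α⁻¹ (by field_simp; ring) e e' h

end Pool.Agent.LibRG7
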