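import Mathlib

set_option autoImplicit false

/-! ROW R5 (MEDIUM, only Mathlib). Eigenspaces of dimension <= 2 give two generators (k algebraically closed, so infinite).
 For c in k put W c := range (Z - c) (a subspace of codimension finrank ker (Z - c) <= 2); W c /= top only for the finitely many eigenvalues.
 k is infinite: choose e outside the finitely many proper subspaces W c (Subspace.biUnion_ne_univ_of_top_notMem or similar), then e' outside the
 finitely many proper ones among W c + k e. Then W c + k e + k e' = top for every c (codimension <= 2). N := span of all Z^i e, Z^i e' is stable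
 under Z. If N /= top, the map induced by Z on the nonzero finite dimensional space V/N has an eigenvalue c, so Z - c is not injective, hence not
 surjective on V/N (Module.End.exists_eigenvalue, LinearMap.injective_iff_surjective): W c + N /= top, but W c + N contains W c + k e + k e'. -/

namespace Pool.Agent.LibRG7

private theorem R5_avoid {k V ι : Type*} [Field k] [Infinite k] [AddCommGroup V] [Module k V]
    (S : Set ι) (hS : S.Finite) (W : ι → Submodule k V) (hW : ∀ c ∈ S, W c ≠ ⊤) :
    ∃ e : V, ∀ c ∈ S, e ∉ W c := by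
  by_contra hcon
  push Not at hcon
  have hfin : Finite S := hS
  have h1 : ⋃ i : S, ((W i : Submodule k V) : Set V) = Set.univ := by
    rw [Set.eq_univ_iff_forall]
    intro e
    obtain ⟨c, hc, hec⟩ := hcon e
    exact Set.mem_iUnion.2 ⟨⟨c, hc⟩, hec⟩
  obtain ⟨i, hi⟩ := Subspace.exists_eq_top_of_iUnion_eq_univ h1
  exact hW i i.2 hi

private theorem R5_lt {k V : Type*} [Field k] [AddCommGroup V] [Module k V] [FiniteDimensional k V]
    (W : Submodule k V) {e : V} (he : e ∉ W) :
    Module.finrank k W + 1 ≤ Module.finrank k (W ⊔ Submodule.span k {e} : Submodule k V) := by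
  apply Submodule.finrank_lt_finrank_of_lt
  refine lt_of_le_of_ne le_sup_left fun h => he ?_
  rw [h]
  exact Submodule.mem_sup_right (Submodule.mem_span_singleton_self e)

private theorem R5_abs {k V : Type*} [Field k] [IsAlgClosed k] [AddCommGroup V] [Module k V]
    [FiniteDimensional k V] (T : Module.End k V)
    (h : ∀ c : k, Module.finrank k (LinearMap.ker (T - c • (1 : Module.End k V))) ≤ 2) :
    ∃ e e' : V, ∀ N : Submodule k V, (∀ v ∈ N, T v ∈ N) → e ∈ N → e' ∈ N → N = ⊤ := by
  have hinf : Infinite k := IsAlgClosed.instInfinite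
  let W : k → Submodule k V := fun c => LinearMap.range (T - c • (1 : Module.End k V))
  have hWT : ∀ c : k, W c ≠ ⊤ → T.HasEigenvalue c := by
    intro c hc
    rw [Module.End.hasEigenvalue_iff, Module.End.eigenspace_def]
    intro hker
    apply hc
    rw [LinearMap.range_eq_top, ← LinearMap.injective_iff_surjective, ← LinearMap.ker_eq_bot]
    rw [← hker]
  have hfin : {c : k | W c ≠ ⊤}.Finite := T.finite_hasEigenvalue.subset fun c hc => hWT c hc
  obtain ⟨e, he⟩ := R5_avoid _ hfin W (fun c hc => hc)
  have hfin2 : {c : k | W c ⊔ Submodule.span k {e} ≠ ⊤}.Finite := by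
    refine hfin.subset fun c hc hW => hc ?_
    rw [hW, top_sup_eq]
  obtain ⟨e', he'⟩ := R5_avoid _ hfin2 (fun c => W c ⊔ Submodule.span k {e}) (fun c hc => hc)
  have hall : ∀ c : k, W c ⊔ Submodule.span k {e} ⊔ Submodule.span k {e'} = ⊤ := by
    intro c
    by_cases h1 : W c = ⊤
    · rw [h1, top_sup_eq, top_sup_eq]
    by_cases h2 : W c ⊔ Submodule.span k {e} = ⊤
    · rw [h2, top_sup_eq]
    have h3 := R5_lt (W c) (he c h1)
    have h4 := R5_lt (W c ⊔ Submodule.span k {e}) (he' c h2)
    have h5 := LinearMap.finrank_range_add_finrank_ker (T - c • (1 : Module.End k V))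
    have h6 := h c
    apply Submodule.eq_top_of_finrank_eq
    apply le_antisymm (Submodule.finrank_le _)
    have h7 : Module.finrank k (W c) = Module.finrank k (LinearMap.range (T - c • (1 : Module.End k V))) := rfl
    omega
  refine ⟨e, e', fun N hN heN heN' => ?_⟩
  by_contra hNtop
  have hnt : Nontrivial (V ⧸ N) := Submodule.Quotient.nontrivial_iff.2 hNtop
  let T' : Module.End k (V ⧸ N) := N.mapQ N T (fun v hv => hN v hv)
  obtain ⟨c, hc⟩ := Module.End.exists_eigenvalue T'
  obtain ⟨w, hw⟩ := hc.exists_hasEigenvector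
  have hsurj : Function.Surjective (T' - c • (1 : Module.End k (V ⧸ N))) := by
    intro y
    obtain ⟨v, rfl⟩ := N.mkQ_surjective y
    have hv : v ∈ W c ⊔ N := by
      have h8 : (⊤ : Submodule k V) ≤ W c ⊔ N := by
        rw [← hall c]
        refine sup_le (sup_le le_sup_left ?_) ?_
        · rw [Submodule.span_singleton_le_iff_mem]
          exact Submodule.mem_sup_right heN
        · rw [Submodule.span_singleton_le_iff_mem]
          exact Submodule.mem_sup_right heN'
      exact h8 Submodule.mem_top
    obtain ⟨a, ⟨x, rfl⟩, n, hn, hv2⟩ := Submodule.mem_sup.1 hv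
    refine ⟨N.mkQ x, ?_⟩
    rw [← hv2, map_add]
    have h9 : N.mkQ n = 0 := (Submodule.Quotient.mk_eq_zero N).2 hn
    rw [h9, add_zero]
    rfl
  have hinj := LinearMap.injective_iff_surjective.2 hsurj
  apply hw.2
  apply hinj
  rw [map_zero, LinearMap.sub_apply, LinearMap.smul_apply, Module.End.one_apply, sub_eq_zero]
  exact hw.apply_eq_smul

theorem two_gen {k : Type*} [Field k] [IsAlgClosed k] {d : ℕ} (Z : Matrix (Fin d) (Fin d) k)
    (h : ∀ c : k, Module.finrank k (LinearMap.ker (Matrix.toLin' (Z - c • (1 : Matrix (Fin d) (Fin d) k)))) ≤ 2) :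
    ∃ e e' : Fin d → k, Submodule.span k {v : Fin d → k | ∃ i : ℕ, v = (Z ^ i).mulVec e ∨
      v = (Z ^ i).mulVec e'} = ⊤ := by
  obtain ⟨e, e', he⟩ := R5_abs (Matrix.toLin' Z) (by
    intro c
    have h1 := h c
    rw [map_sub, map_smul, Matrix.toLin'_one] at h1
    exact h1)
  refine ⟨e, e', he _ ?_ (Submodule.subset_span ⟨0, Or.inl ?_⟩) (Submodule.subset_span ⟨0, Or.inr ?_⟩)⟩
  · intro v hv
    induction hv using Submodule.span_induction with
    | mem x hx =>
      obtain ⟨i, rfl | rfl⟩ := hx
      · refine Submodule.subset_span ⟨i + 1, Or.inl ?_⟩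
        rw [Matrix.toLin'_apply, Matrix.mulVec_mulVec, pow_succ']
      · refine Submodule.subset_span ⟨i + 1, Or.inr ?_⟩
        rw [Matrix.toLin'_apply, Matrix.mulVec_mulVec, pow_succ']
    | zero =>
      rw [map_zero]
      exact Submodule.zero_mem _
    | add x y _ _ hx hy =>
      rw [map_add]
      exact Submodule.add_mem _ hx hy
    | smul a x _ hx =>
      rw [map_smul]
      exact Submodule.smul_mem _ a hx
  · rw [pow_zero, Matrix.one_mulVec]
  · rw [pow_zero, Matrix.one_mulVec]

end Pool.Agent.LibRG7
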